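import Pool.Agent.H631.LT.Defs

open MeasureTheory Filter Topology ENNReal
open scoped Laplacian FourierTransform InnerProductSpace

namespace LTS

noncomputable section

/-! TARGET: prove the following -/

theorem mulOp_memLp24430 {d : ℕ} (m : EE d → ℂ) (hm : Measurable m) (C : ℝ)
    (hC : ∀ x, ‖m x‖ ≤ C) (f : HH d) :
    MemLp (fun x => m x * f x) 2 (volume : Measure (EE d)) := by
  refine MemLp.of_le_mul (c := C) (Lp.memLp f)
    (hm.aestronglyMeasurable.mul (Lp.aestronglyMeasurable f)) ?_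
  refine Filter.Eventually.of_forall fun x => ?_
  rw [norm_mul]
  exact mul_le_mul_of_nonneg_right (hC x) (norm_nonneg _)

theorem mulOp_exists24430 {d : ℕ} (m : EE d → ℂ) (hm : Measurable m) (C : ℝ)
    (hC : ∀ x, ‖m x‖ ≤ C) :
    ∃ A : HH d →L[ℂ] HH d, ∀ f : HH d, (A f : EE d → ℂ) =ᵐ[volume] fun x => m x * f x := by
  let L : HH d →ₗ[ℂ] HH d :=
    { toFun := fun f => (mulOp_memLp24430 m hm C hC f).toLp _
      map_add' := by
        intro f g
        apply Lp.ext
        filter_upwards [(mulOp_memLp24430 m hm C hC (f + g)).coeFn_toLp,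
          (mulOp_memLp24430 m hm C hC f).coeFn_toLp, (mulOp_memLp24430 m hm C hC g).coeFn_toLp,
          Lp.coeFn_add ((mulOp_memLp24430 m hm C hC f).toLp _)
            ((mulOp_memLp24430 m hm C hC g).toLp _), Lp.coeFn_add f g] with x h1 h2 h3 h4 h5
        rw [h1, h4, Pi.add_apply, h2, h3, h5, Pi.add_apply, mul_add]
      map_smul' := by
        intro c f
        apply Lp.ext
        filter_upwards [(mulOp_memLp24430 m hm C hC (c • f)).coeFn_toLp,
          (mulOp_memLp24430 m hm C hC f).coeFn_toLp,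
          Lp.coeFn_smul c ((mulOp_memLp24430 m hm C hC f).toLp _),
          Lp.coeFn_smul c f] with x h1 h2 h4 h5
        rw [RingHom.id_apply, h1, h4, Pi.smul_apply, h2, h5, Pi.smul_apply, smul_eq_mul,
          smul_eq_mul]
        ring }
  have hL : ∀ f, (L f : EE d → ℂ) =ᵐ[volume] fun x => m x * f x := fun f =>
    (mulOp_memLp24430 m hm C hC f).coeFn_toLp
  refine ⟨LinearMap.mkContinuous L C ?_, hL⟩
  intro f
  apply Lp.norm_le_mul_norm_of_ae_le_mul
  filter_upwards [hL f] with x hx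
  rw [hx, norm_mul]
  exact mul_le_mul_of_nonneg_right (hC x) (norm_nonneg _)

theorem mulOp_ae {d : ℕ} (m : EE d → ℂ) (hm : Measurable m) (C : ℝ) (hC : ∀ x, ‖m x‖ ≤ C)
    (f : HH d) : (mulOp m f : EE d → ℂ) =ᵐ[volume] fun x => m x * f x := by
  have hex := mulOp_exists24430 m hm C hC
  unfold mulOp
  rw [dif_pos hex]
  exact hex.choose_spec f

theorem mulOp_norm {d : ℕ} (m : EE d → ℂ) (hm : Measurable m) (C : ℝ) (hC : ∀ x, ‖m x‖ ≤ C)
    (f : HH d) : ‖mulOp m f‖ ≤ C * ‖f‖ := by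
  apply Lp.norm_le_mul_norm_of_ae_le_mul
  filter_upwards [mulOp_ae m hm C hC f] with x hx
  rw [hx, norm_mul]
  exact mul_le_mul_of_nonneg_right (hC x) (norm_nonneg _)

theorem mulOp_inner {d : ℕ} (m : EE d → ℂ) (hm : Measurable m) (C : ℝ) (hC : ∀ x, ‖m x‖ ≤ C)
    (f g : HH d) :
    ⟪mulOp m f, g⟫_ℂ = ⟪f, mulOp (fun x => (starRingEnd ℂ) (m x)) g⟫_ℂ := by
  have hcm : Measurable (fun x => (starRingEnd ℂ) (m x)) :=
    Complex.continuous_conj.measurable.comp hm
  have hcC : ∀ x, ‖(starRingEnd ℂ) (m x)‖ ≤ C := fun x => by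
    rw [RCLike.norm_conj]; exact hC x
  rw [L2.inner_def, L2.inner_def]
  apply integral_congr_ae
  filter_upwards [mulOp_ae m hm C hC f,
    mulOp_ae (fun x => (starRingEnd ℂ) (m x)) hcm C hcC g] with x h1 h2
  rw [h1, h2]
  simp only [RCLike.inner_apply, map_mul]
  ring

theorem mulOp_mulOp {d : ℕ} (m m' : EE d → ℂ) (hm : Measurable m) (C : ℝ) (hC : ∀ x, ‖m x‖ ≤ C)
    (hm' : Measurable m') (C' : ℝ) (hC' : ∀ x, ‖m' x‖ ≤ C') (f : HH d) :
    mulOp m (mulOp m' f) = mulOp (fun x => m x * m' x) f := by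
  have hC0 : 0 ≤ C := le_trans (norm_nonneg _) (hC 0)
  apply Lp.ext
  filter_upwards [mulOp_ae m hm C hC (mulOp m' f), mulOp_ae m' hm' C' hC' f,
    mulOp_ae (fun x => m x * m' x) (hm.mul hm') (C * C') (fun x => by
      rw [norm_mul]
      exact mul_le_mul (hC x) (hC' x) (norm_nonneg _) hC0) f] with x h1 h2 h3
  rw [h1, h2, h3, mul_assoc]

end

end LTS
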