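import Pool.Agent.H631.LT.Defs
import Pool.Agent.H631.LT.J01

open MeasureTheory Filter Topology ENNReal
open scoped Laplacian FourierTransform InnerProductSpace

namespace LTS

noncomputable section

/-! TARGET: prove the following -/

theorem proj_ind_meas {d : ℕ} (S : Set (EE d)) (hS : MeasurableSet S) :
    Measurable (S.indicator fun _ : EE d => (1 : ℂ)) :=
  measurable_const.indicator hS

theorem proj_ind_bound {d : ℕ} (S : Set (EE d)) (x : EE d) :
    ‖S.indicator (fun _ : EE d => (1 : ℂ)) x‖ ≤ 1 := by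
  by_cases h : x ∈ S
  · rw [Set.indicator_of_mem h]; simp
  · rw [Set.indicator_of_notMem h]; simp

theorem proj_ae {d : ℕ} (S : Set (EE d)) (hS : MeasurableSet S) (f : HH d) :
    (proj S f : EE d → ℂ) =ᵐ[volume] S.indicator f := by
  have h := mulOp_ae (S.indicator fun _ : EE d => (1 : ℂ)) (proj_ind_meas S hS) 1
    (proj_ind_bound S) f
  refine h.trans (Filter.Eventually.of_forall fun x => ?_)
  by_cases hx : x ∈ S
  · simp [Set.indicator_of_mem hx]
  · simp [Set.indicator_of_notMem hx]

theorem proj_norm {d : ℕ} (S : Set (EE d)) (hS : MeasurableSet S) (f : HH d) :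
    ‖proj S f‖ ≤ ‖f‖ := by
  have h := mulOp_norm (S.indicator fun _ : EE d => (1 : ℂ)) (proj_ind_meas S hS) 1
    (proj_ind_bound S) f
  rw [one_mul] at h
  exact h

theorem proj_inner {d : ℕ} (S : Set (EE d)) (hS : MeasurableSet S) (f g : HH d) :
    ⟪proj S f, g⟫_ℂ = ⟪f, proj S g⟫_ℂ := by
  have h := mulOp_inner (S.indicator fun _ : EE d => (1 : ℂ)) (proj_ind_meas S hS) 1
    (proj_ind_bound S) f g
  have e : (fun x => (starRingEnd ℂ) (S.indicator (fun _ : EE d => (1 : ℂ)) x)) =
      S.indicator fun _ : EE d => (1 : ℂ) := by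
    funext x
    by_cases hx : x ∈ S
    · simp [Set.indicator_of_mem hx]
    · simp [Set.indicator_of_notMem hx]
  rw [e] at h
  exact h

theorem proj_sub {d : ℕ} (S S' : Set (EE d)) (hS : MeasurableSet S) (hS' : MeasurableSet S')
    (h : S ⊆ S') (f : HH d) : proj S (proj S' f) = proj S f := by
  have h1 := mulOp_mulOp (S.indicator fun _ : EE d => (1 : ℂ))
    (S'.indicator fun _ : EE d => (1 : ℂ)) (proj_ind_meas S hS) 1
    (proj_ind_bound S) (proj_ind_meas S' hS') 1 (proj_ind_bound S') f
  have e : (fun x => S.indicator (fun _ : EE d => (1 : ℂ)) x *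
      S'.indicator (fun _ : EE d => (1 : ℂ)) x) = S.indicator fun _ : EE d => (1 : ℂ) := by
    funext x
    by_cases hx : x ∈ S
    · simp [Set.indicator_of_mem hx, Set.indicator_of_mem (h hx)]
    · simp [Set.indicator_of_notMem hx]
  rw [e] at h1
  exact h1

end

end LTS
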