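import Pool.Agent.H631.LT.Defs
import Pool.Agent.H631.LT.J01

open MeasureTheory Filter Topology ENNReal
open scoped Laplacian FourierTransform InnerProductSpace

namespace LTS

noncomputable section

/-! TARGET: prove the following -/

theorem wgt_meas {d : ℕ} (ħ lam : ℝ) : Measurable (wgt (d := d) ħ lam) := by
  unfold wgt
  fun_prop

theorem wgt_bdd {d : ℕ} (ħ lam : ℝ) (hl : 0 < lam) (ξ : EE d) :
    ‖wgt ħ lam ξ‖ ≤ (Real.sqrt lam)⁻¹ := by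
  unfold wgt
  rw [Complex.norm_real, Real.norm_of_nonneg (inv_nonneg.mpr (Real.sqrt_nonneg _))]
  have h1 : 0 < Real.sqrt lam := Real.sqrt_pos.mpr hl
  have h2 : Real.sqrt lam ≤ Real.sqrt (lam + 4 * Real.pi ^ 2 * ħ ^ 2 * ‖ξ‖ ^ 2) := by
    apply Real.sqrt_le_sqrt
    have : 0 ≤ 4 * Real.pi ^ 2 * ħ ^ 2 * ‖ξ‖ ^ 2 := by positivity
    linarith
  exact inv_anti₀ h1 h2

theorem wgt_conj_aux {d : ℕ} (ħ lam : ℝ) :
    (fun x : EE d => (starRingEnd ℂ) (wgt ħ lam x)) = wgt ħ lam := by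
  funext x
  unfold wgt
  rw [Complex.conj_ofReal]

theorem Top_eq_aux {d : ℕ} (ħ lam : ℝ) (f : HH d) :
    Top d ħ lam f = (Lp.fourierTransformₗᵢ (EE d) ℂ).symm
      (mulOp (wgt ħ lam) ((Lp.fourierTransformₗᵢ (EE d) ℂ) f)) := rfl

theorem Top_apply {d : ℕ} (ħ lam : ℝ) (f : HH d) :
    Top d ħ lam f = 𝓕⁻ (mulOp (wgt ħ lam) (𝓕 f)) := by
  rfl

theorem Top_sa {d : ℕ} (ħ lam : ℝ) (hl : 0 < lam) (f g : HH d) :
    ⟪Top d ħ lam f, g⟫_ℂ = ⟪f, Top d ħ lam g⟫_ℂ := by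
  rw [Top_eq_aux, Top_eq_aux]
  rw [← (Lp.fourierTransformₗᵢ (EE d) ℂ).inner_map_map _ g,
    ← (Lp.fourierTransformₗᵢ (EE d) ℂ).inner_map_map f _,
    LinearIsometryEquiv.apply_symm_apply, LinearIsometryEquiv.apply_symm_apply,
    mulOp_inner (wgt ħ lam) (wgt_meas ħ lam) _ (wgt_bdd ħ lam hl), wgt_conj_aux]

theorem Top_norm {d : ℕ} (ħ lam : ℝ) (hl : 0 < lam) (f : HH d) :
    lam * ‖Top d ħ lam f‖ ^ 2 ≤ ‖f‖ ^ 2 := by
  rw [Top_eq_aux, LinearIsometryEquiv.norm_map]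
  have h1 := mulOp_norm (wgt ħ lam) (wgt_meas ħ lam) _ (wgt_bdd ħ lam hl)
    ((Lp.fourierTransformₗᵢ (EE d) ℂ) f)
  rw [LinearIsometryEquiv.norm_map] at h1
  have h2 : 0 < Real.sqrt lam := Real.sqrt_pos.mpr hl
  have h3 : Real.sqrt lam ^ 2 = lam := Real.sq_sqrt hl.le
  have h4 := pow_le_pow_left₀ (norm_nonneg _) h1 2
  calc lam * ‖mulOp (wgt ħ lam) ((Lp.fourierTransformₗᵢ (EE d) ℂ) f)‖ ^ 2
      ≤ lam * ((Real.sqrt lam)⁻¹ * ‖f‖) ^ 2 := mul_le_mul_of_nonneg_left h4 hl.le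
    _ = ‖f‖ ^ 2 := by
      rw [mul_pow, inv_pow, h3]
      field_simp

end

end LTS
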