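import Pool.Agent.H631.LT.Defs
import Pool.Agent.H631.LT.J01
import Pool.Agent.H631.LT.J03

open MeasureTheory Filter Topology ENNReal
open scoped Laplacian FourierTransform InnerProductSpace

namespace LTS

noncomputable section

/-! TARGET: prove the following -/

open scoped SchwartzMap

theorem zz_lap {d : ℕ} (f : 𝓢(EE d, ℂ)) (x : EE d) :
    (𝓕 (Δ f) : 𝓢(EE d, ℂ)) x = (-((2 * Real.pi) ^ 2 * ‖x‖ ^ 2 : ℝ) : ℂ) * (𝓕 f : 𝓢(EE d, ℂ)) x := by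
  rw [SchwartzMap.laplacian_eq_fourierMultiplierCLM, FourierTransform.fourier_smul,
    SchwartzMap.fourierMultiplierCLM_apply, FourierTransform.fourier_fourierInv_eq, smul_apply,
    SchwartzMap.smulLeftCLM_apply_apply (by fun_prop)]
  simp
  ring

theorem zz_symb {d : ℕ} (ħ lam : ℝ) (f : 𝓢(EE d, ℂ)) (x : EE d) :
    (𝓕 ((-(ħ : ℂ) ^ 2) • (Δ f) + (lam : ℂ) • f) : 𝓢(EE d, ℂ)) x =
      ((lam + 4 * Real.pi ^ 2 * ħ ^ 2 * ‖x‖ ^ 2 : ℝ) : ℂ) * (𝓕 f : 𝓢(EE d, ℂ)) x := by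
  rw [FourierTransform.fourier_add, FourierTransform.fourier_smul, FourierTransform.fourier_smul,
    add_apply, smul_apply, smul_apply, zz_lap]
  simp only [smul_eq_mul]
  push_cast
  ring

theorem Top_test {d : ℕ} (ħ lam : ℝ) (hħ : 0 < ħ) (hl : 0 < lam) (φ : EE d → ℂ) (hφ : IsTest φ)
    (p z : HH d) (hp : (p : EE d → ℂ) =ᵐ[volume] φ)
    (hz : (z : EE d → ℂ) =ᵐ[volume] fun x => -((ħ : ℂ) ^ 2) * (Δ φ) x + (lam : ℂ) * φ x) :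
    Top d ħ lam (Top d ħ lam z) = p := by
  obtain ⟨φS, hφS⟩ : ∃ φS : 𝓢(EE d, ℂ), ∀ x, φS x = φ x :=
    ⟨hφ.2.toSchwartzMap hφ.1, fun _ => rfl⟩
  have hφS' : (φS : EE d → ℂ) = φ := funext hφS
  have hp2 : p = φS.toLp 2 := by
    apply Lp.ext
    filter_upwards [hp, φS.coeFn_toLp 2] with x h1 h2
    rw [h1, h2, hφS]
  have hz2 : z = ((-(ħ : ℂ) ^ 2) • (Δ φS) + (lam : ℂ) • φS : 𝓢(EE d, ℂ)).toLp 2 := by
    apply Lp.ext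
    filter_upwards [hz, ((-(ħ : ℂ) ^ 2) • (Δ φS) + (lam : ℂ) • φS : 𝓢(EE d, ℂ)).coeFn_toLp 2]
      with x h1 h2
    rw [h1, h2, add_apply, smul_apply, smul_apply,
      SchwartzMap.laplacian_apply, hφS']
    simp only [smul_eq_mul]
  have hb := wgt_bdd (d := d) ħ lam hl
  have hm := wgt_meas (d := d) ħ lam
  have key : mulOp (wgt ħ lam) (mulOp (wgt ħ lam) (𝓕 z)) = 𝓕 p := by
    rw [hp2, hz2, SchwartzMap.toLp_fourier_eq, SchwartzMap.toLp_fourier_eq]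
    apply Lp.ext
    filter_upwards [mulOp_ae (wgt ħ lam) hm _ hb (mulOp (wgt ħ lam)
      ((𝓕 ((-(ħ : ℂ) ^ 2) • (Δ φS) + (lam : ℂ) • φS) : 𝓢(EE d, ℂ)).toLp 2)),
      mulOp_ae (wgt ħ lam) hm _ hb
      ((𝓕 ((-(ħ : ℂ) ^ 2) • (Δ φS) + (lam : ℂ) • φS) : 𝓢(EE d, ℂ)).toLp 2),
      (𝓕 ((-(ħ : ℂ) ^ 2) • (Δ φS) + (lam : ℂ) • φS) : 𝓢(EE d, ℂ)).coeFn_toLp 2,
      (𝓕 φS : 𝓢(EE d, ℂ)).coeFn_toLp 2] with x h1 h2 h3 h4
    rw [h1, h2, h3, h4, zz_symb]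
    have hq : 0 < lam + 4 * Real.pi ^ 2 * ħ ^ 2 * ‖x‖ ^ 2 := by positivity
    unfold wgt
    have hs : (Real.sqrt (lam + 4 * Real.pi ^ 2 * ħ ^ 2 * ‖x‖ ^ 2))⁻¹ *
        (Real.sqrt (lam + 4 * Real.pi ^ 2 * ħ ^ 2 * ‖x‖ ^ 2))⁻¹ *
        (lam + 4 * Real.pi ^ 2 * ħ ^ 2 * ‖x‖ ^ 2) = 1 := by
      rw [← mul_inv, Real.mul_self_sqrt hq.le, inv_mul_cancel₀ hq.ne']
    rw [← mul_assoc, ← mul_assoc, ← Complex.ofReal_mul, ← Complex.ofReal_mul, hs,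
      Complex.ofReal_one, one_mul]
  rw [Top_apply, Top_apply, FourierTransform.fourier_fourierInv_eq, key, FourierTransform.fourierInv_fourier_eq]

end

end LTS
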