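import Pool.Agent.H631.LT.Defs
import Pool.Agent.H631.LT.J01
import Pool.Agent.H631.LT.J03

open MeasureTheory Filter Topology ENNReal
open scoped Laplacian FourierTransform InnerProductSpace

namespace LTS

noncomputable section

theorem Top_deriv_key {d : ℕ} (Φ : SchwartzMap (EE d) ℂ) (v : HH d) :
    ⟪Φ.toLp 2, v⟫_ℂ = ∫ x, (v : EE d → ℂ) x * (starRingEnd ℂ) (Φ x) := by
  rw [L2.inner_def]
  apply integral_congr_ae
  filter_upwards [Φ.coeFn_toLp 2 volume] with x hx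
  rw [hx, RCLike.inner_apply]

theorem Top_deriv_four {d : ℕ} (Ψ : SchwartzMap (EE d) ℂ) (i : Fin d) (ξ : EE d) :
    (𝓕 (LineDeriv.lineDerivOp (EuclideanSpace.single i (1 : ℝ)) Ψ) : SchwartzMap (EE d) ℂ) ξ =
      (2 * Real.pi * Complex.I) * ((ξ i : ℝ) : ℂ) * (𝓕 Ψ : SchwartzMap (EE d) ℂ) ξ := by
  rw [SchwartzMap.fourier_lineDerivOp_eq]
  have h1 : (fun x : EE d => inner ℝ x (EuclideanSpace.single i (1 : ℝ))).HasTemperateGrowth :=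
    ((innerSL ℝ).flip (EuclideanSpace.single i (1 : ℝ))).hasTemperateGrowth
  rw [SchwartzMap.smul_apply, SchwartzMap.smulLeftCLM_apply_apply h1]
  rw [smul_eq_mul, Complex.real_smul, EuclideanSpace.inner_single_right]
  simp
  ring

/-! TARGET: prove the following -/

theorem Top_deriv {d : ℕ} (ħ lam : ℝ) (hħ : 0 < ħ) (hl : 0 < lam) (f : HH d) (i : Fin d) :
    ∃ D : HH d, ∀ φ : EE d → ℂ, IsTest φ →
      ∫ x, (Top d ħ lam f : EE d → ℂ) x * (fderiv ℝ φ x (EuclideanSpace.single i 1)) =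
        - ∫ x, (D : EE d → ℂ) x * φ x := by
  obtain ⟨m, hm⟩ : ∃ m : EE d → ℂ, ∀ ξ, m ξ = (2 * Real.pi * Complex.I) * ((ξ i : ℝ) : ℂ) * wgt ħ lam ξ :=
    ⟨_, fun _ => rfl⟩
  have hmm : Measurable m := by
    rw [show m = fun ξ => (2 * Real.pi * Complex.I) * ((ξ i : ℝ) : ℂ) * wgt ħ lam ξ from funext hm]
    have h1 : Measurable (fun ξ : EE d => ((ξ i : ℝ) : ℂ)) := by fun_prop
    exact (h1.const_mul _).mul (wgt_meas ħ lam)
  have hmb : ∀ ξ, ‖m ξ‖ ≤ 1 / ħ := by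
    intro ξ
    rw [hm, norm_mul, norm_mul]
    have h1 : ‖(2 * Real.pi * Complex.I : ℂ)‖ = 2 * Real.pi := by
      rw [norm_mul, norm_mul, Complex.norm_I, Complex.norm_real, Real.norm_of_nonneg Real.pi_pos.le]
      simp
    have h2 : ‖((ξ i : ℝ) : ℂ)‖ = |ξ i| := by
      rw [Complex.norm_real, Real.norm_eq_abs]
    have hq : 0 < lam + 4 * Real.pi ^ 2 * ħ ^ 2 * ‖ξ‖ ^ 2 := by positivity
    have hsq : 0 < Real.sqrt (lam + 4 * Real.pi ^ 2 * ħ ^ 2 * ‖ξ‖ ^ 2) := Real.sqrt_pos.2 hq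
    have h3 : ‖wgt ħ lam ξ‖ = (Real.sqrt (lam + 4 * Real.pi ^ 2 * ħ ^ 2 * ‖ξ‖ ^ 2))⁻¹ := by
      unfold wgt
      rw [Complex.norm_real, Real.norm_of_nonneg (inv_nonneg.2 hsq.le)]
    rw [h1, h2, h3, ← div_eq_mul_inv, div_le_div_iff₀ hsq hħ, one_mul]
    apply Real.le_sqrt_of_sq_le
    have h4 : |ξ i| ≤ ‖ξ‖ := by
      have := PiLp.norm_apply_le ξ i
      rwa [Real.norm_eq_abs] at this
    have h5 : |ξ i| ^ 2 ≤ ‖ξ‖ ^ 2 := pow_le_pow_left₀ (abs_nonneg _) h4 2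
    have h6 : 0 ≤ 4 * Real.pi ^ 2 * ħ ^ 2 := by positivity
    have h7 := mul_le_mul_of_nonneg_left h5 h6
    have h8 : (2 * Real.pi * |ξ i| * ħ) ^ 2 = 4 * Real.pi ^ 2 * ħ ^ 2 * |ξ i| ^ 2 := by ring
    rw [h8]
    linarith
  refine ⟨𝓕⁻ (mulOp m (𝓕 f)), ?_⟩
  rintro φ ⟨hφ, hc⟩
  have hψc : HasCompactSupport (fun x => (starRingEnd ℂ) (φ x)) :=
    hc.comp_left (g := fun z : ℂ => (starRingEnd ℂ) z) (by simp)
  have hψs : ContDiff ℝ (⊤ : ℕ∞) (fun x => (starRingEnd ℂ) (φ x)) :=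
    Complex.conjCLE.contDiff.comp hφ
  obtain ⟨Ψ, hΨ⟩ : ∃ Ψ : SchwartzMap (EE d) ℂ, ∀ x, Ψ x = (starRingEnd ℂ) (φ x) :=
    ⟨hψc.toSchwartzMap hψs, fun x => rfl⟩
  have hder : ∀ x, (LineDeriv.lineDerivOp (EuclideanSpace.single i (1 : ℝ)) Ψ : SchwartzMap (EE d) ℂ) x =
      (starRingEnd ℂ) (fderiv ℝ φ x (EuclideanSpace.single i 1)) := by
    intro x
    rw [SchwartzMap.lineDerivOp_apply_eq_fderiv]
    have h1 : (Ψ : EE d → ℂ) = fun x => Complex.conjCLE (φ x) := by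
      funext y
      exact hΨ y
    have h2 : HasFDerivAt φ (fderiv ℝ φ x) x :=
      ((hφ.differentiable (by simp)) x).hasFDerivAt
    have h3 : HasFDerivAt (fun x => Complex.conjCLE (φ x))
        ((Complex.conjCLE : ℂ →L[ℝ] ℂ).comp (fderiv ℝ φ x)) x :=
      (Complex.conjCLE : ℂ →L[ℝ] ℂ).hasFDerivAt.comp x h2
    rw [h1, h3.fderiv]
    rfl
  have hL : ∫ x, (Top d ħ lam f : EE d → ℂ) x * (fderiv ℝ φ x (EuclideanSpace.single i 1)) =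
      ⟪(LineDeriv.lineDerivOp (EuclideanSpace.single i (1 : ℝ)) Ψ : SchwartzMap (EE d) ℂ).toLp 2,
        Top d ħ lam f⟫_ℂ := by
    rw [Top_deriv_key]
    congr 1
    funext x
    rw [hder, Complex.conj_conj]
  have hR : ∫ x, ((𝓕⁻ (mulOp m (𝓕 f)) : HH d) : EE d → ℂ) x * φ x =
      ⟪Ψ.toLp 2, (𝓕⁻ (mulOp m (𝓕 f)) : HH d)⟫_ℂ := by
    rw [Top_deriv_key]
    congr 1
    funext x
    rw [hΨ, Complex.conj_conj]
  have hI : ∀ a b : HH d, ⟪a, b⟫_ℂ = ⟪(𝓕 a : HH d), (𝓕 b : HH d)⟫_ℂ := fun a b =>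
    (Lp.inner_fourier_eq a b).symm
  rw [hL, hR, Top_apply, hI _ (𝓕⁻ (mulOp (wgt ħ lam) (𝓕 f))), hI _ (𝓕⁻ (mulOp m (𝓕 f))),
    FourierTransform.fourier_fourierInv_eq, FourierTransform.fourier_fourierInv_eq,
    SchwartzMap.toLp_fourier_eq, SchwartzMap.toLp_fourier_eq, Top_deriv_key, Top_deriv_key,
    ← integral_neg]
  apply integral_congr_ae
  filter_upwards [mulOp_ae m hmm (1 / ħ) hmb (𝓕 f),
    mulOp_ae (wgt ħ lam) (wgt_meas ħ lam) _ (wgt_bdd ħ lam hl) (𝓕 f)] with ξ h1 h2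
  rw [h1, h2, Top_deriv_four, hm]
  simp only [map_mul, Complex.conj_I, Complex.conj_ofReal, map_ofNat]
  ring

end

end LTS
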