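import Pool.Agent.H631.LT.Defs
import Pool.Agent.H631.LT.J01

open MeasureTheory Filter Topology ENNReal
open scoped Laplacian FourierTransform InnerProductSpace

namespace LTS

noncomputable section

/-! TARGET: prove the following -/

theorem cont_rep_cont (d : ℕ) :
    Continuous fun p : EE d × EE d => ((-innerₗ (EE d)) p.1) p.2 := by
  have : (fun p : EE d × EE d => ((-innerₗ (EE d)) p.1) p.2) = fun p => -⟪p.1, p.2⟫_ℝ := by
    funext p; simp
  rw [this]
  exact continuous_inner.neg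

theorem cont_rep_exp (a b : ℝ) :
    ‖Complex.exp (((2 * Real.pi * a : ℝ) : ℂ) * Complex.I) -
      Complex.exp (((2 * Real.pi * b : ℝ) : ℂ) * Complex.I)‖ ≤ 2 * Real.pi * |a - b| := by
  have h1 : Complex.exp (((2 * Real.pi * a : ℝ) : ℂ) * Complex.I) -
      Complex.exp (((2 * Real.pi * b : ℝ) : ℂ) * Complex.I) =
      Complex.exp (((2 * Real.pi * b : ℝ) : ℂ) * Complex.I) *
        (Complex.exp (Complex.I * ((2 * Real.pi * (a - b) : ℝ) : ℂ)) - 1) := by
    rw [mul_sub, mul_one, ← Complex.exp_add]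
    congr 2
    push_cast
    ring
  rw [h1, norm_mul, Complex.norm_exp_ofReal_mul_I, one_mul]
  refine Real.norm_exp_I_mul_ofReal_sub_one_le.trans ?_
  rw [Real.norm_eq_abs, abs_mul, abs_of_pos (by positivity)]

theorem cont_rep_L1 {d : ℕ} (m : EE d → ℂ) (hm2 : MemLp m 2 volume) (g : HH d) :
    Integrable (fun ξ => m ξ * g ξ) ∧
      ∫ ξ, ‖m ξ * g ξ‖ ≤ Real.sqrt (∫ ξ, ‖m ξ‖ ^ 2) * ‖g‖ := by
  have hg : MemLp (g : EE d → ℂ) 2 volume := Lp.memLp g
  refine ⟨?_, ?_⟩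
  · exact hm2.integrable_mul hg
  · have h2 : (2 : ℝ).HolderConjugate 2 := by
      constructor <;> norm_num
    have h3 : ENNReal.ofReal 2 = 2 := by simp
    have h := integral_mul_norm_le_Lp_mul_Lq (μ := (volume : Measure (EE d))) h2
      (f := m) (g := (g : EE d → ℂ)) (by rw [h3]; exact hm2) (by rw [h3]; exact hg)
    simp only [norm_mul]
    refine h.trans (le_of_eq ?_)
    have h4 : ‖g‖ = (∫ ξ, ‖g ξ‖ ^ (2 : ℝ)) ^ ((1 : ℝ) / 2) := by
      rw [Lp.norm_def, hg.eLpNorm_eq_integral_rpow_norm (by norm_num) (by norm_num),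
        ENNReal.toReal_ofReal]
      · norm_num
      · apply Real.rpow_nonneg
        apply integral_nonneg
        intro x
        positivity
    rw [h4]
    congr 1
    rw [Real.sqrt_eq_rpow]
    simp only [Real.rpow_two]

theorem cont_rep_ae {d : ℕ} (h : HH d) (hi : Integrable (h : EE d → ℂ)) :
    ((𝓕⁻ h : HH d) : EE d → ℂ) =ᵐ[volume] 𝓕⁻ (h : EE d → ℂ) := by
  have hcont : Continuous (𝓕⁻ (h : EE d → ℂ)) :=
    VectorFourier.fourierIntegral_continuous (L := -innerₗ (EE d)) Real.continuous_fourierChar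
      (cont_rep_cont d) hi
  have key := ae_eq_of_integral_contDiff_smul_eq (μ := (volume : Measure (EE d)))
    (f := ((𝓕⁻ h : HH d) : EE d → ℂ)) (f' := 𝓕⁻ (h : EE d → ℂ))
    ((Lp.memLp (𝓕⁻ h : HH d)).locallyIntegrable (by norm_num)) hcont.locallyIntegrable ?_
  · exact key
  intro g hg hgc
  have hg₁ : HasCompactSupport (Complex.ofRealCLM ∘ g) := hgc.comp_left rfl
  have hg₂ : ContDiff ℝ (⊤ : ℕ∞) (Complex.ofRealCLM ∘ g) := by fun_prop
  set gS := hg₁.toSchwartzMap hg₂ with hgS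
  have hgSx : ∀ x, gS x = ((g x : ℝ) : ℂ) := fun x => rfl
  have h1 : ∫ x, g x • ((𝓕⁻ h : HH d) : EE d → ℂ) x =
      Lp.toTemperedDistribution (𝓕⁻ h : HH d) gS := by
    rw [Lp.toTemperedDistribution_apply]
    rfl
  have h2 : Lp.toTemperedDistribution (𝓕⁻ h : HH d) gS = ∫ x, (𝓕⁻ gS) x • h x := by
    rw [← Lp.fourierInv_toTemperedDistribution_eq, TemperedDistribution.fourierInv_apply,
      Lp.toTemperedDistribution_apply]
  have h3 : ∫ x, g x • (𝓕⁻ (h : EE d → ℂ)) x = ∫ x, gS x • (𝓕⁻ (h : EE d → ℂ)) x := rfl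
  rw [h1, h2, h3, SchwartzMap.fourierInv_coe]
  have hf := VectorFourier.integral_fourierIntegral_smul_eq_flip (L := -innerₗ (EE d))
    (μ := (volume : Measure (EE d))) (ν := (volume : Measure (EE d)))
    Real.continuous_fourierChar
    (cont_rep_cont d)
    (gS.integrable) hi
  have hflip : (-innerₗ (EE d)).flip = -innerₗ (EE d) := by
    ext x y
    simp [real_inner_comm]
  rw [hflip] at hf
  exact hf

theorem cont_rep {d : ℕ} (m : EE d → ℂ) (hm : Measurable m) (C : ℝ) (hC : ∀ x, ‖m x‖ ≤ C)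
    (hm2 : MemLp m 2 volume) (f : HH d) :
    ∃ G : EE d → ℂ, (∀ x, ‖G x‖ ≤ Real.sqrt (∫ ξ, ‖m ξ‖ ^ 2) * ‖f‖) ∧
      ((𝓕⁻ (mulOp m (𝓕 f)) : HH d) : EE d → ℂ) =ᵐ[volume] G ∧
      ∀ R : ℝ, 0 ≤ R → (∀ ξ, R < ‖ξ‖ → m ξ = 0) → ∀ x y,
        ‖G x - G y‖ ≤ 2 * Real.pi * R * ‖x - y‖ * (Real.sqrt (∫ ξ, ‖m ξ‖ ^ 2) * ‖f‖) := by
  obtain ⟨hI, hB⟩ := cont_rep_L1 m hm2 (𝓕 f : HH d)
  rw [Lp.norm_fourier_eq] at hB
  have hae := mulOp_ae m hm C hC (𝓕 f : HH d)
  have hi : Integrable ((mulOp m (𝓕 f) : HH d) : EE d → ℂ) := hI.congr hae.symm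
  have hG := cont_rep_ae (mulOp m (𝓕 f) : HH d) hi
  have hGG : (𝓕⁻ ((mulOp m (𝓕 f) : HH d) : EE d → ℂ)) =
      𝓕⁻ (fun ξ => m ξ * (𝓕 f : HH d) ξ) := by
    funext x
    exact Real.fourierInv_congr_ae hae x
  rw [hGG] at hG
  refine ⟨𝓕⁻ (fun ξ => m ξ * (𝓕 f : HH d) ξ), fun x => ?_, hG, ?_⟩
  · refine le_trans ?_ hB
    exact VectorFourier.norm_fourierIntegral_le_integral_norm _ _ _ _ _
  · intro R hR hmR x y
    have hint : ∀ x : EE d, Integrable (fun ξ : EE d =>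
        Complex.exp (((2 * Real.pi * ⟪ξ, x⟫_ℝ : ℝ) : ℂ) * Complex.I) •
          (m ξ * (𝓕 f : HH d) ξ)) := by
      intro x
      refine hI.bdd_mul (c := 1) ?_ ?_
      · exact (by fun_prop : Continuous fun ξ : EE d =>
          Complex.exp (((2 * Real.pi * ⟪ξ, x⟫_ℝ : ℝ) : ℂ) * Complex.I)).aestronglyMeasurable
      · filter_upwards with ξ
        rw [Complex.norm_exp_ofReal_mul_I]
    rw [Real.fourierInv_eq', Real.fourierInv_eq', ← integral_sub (hint x) (hint y)]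
    refine (norm_integral_le_integral_norm _).trans ?_
    have h1 : ∀ ξ : EE d, ‖Complex.exp (((2 * Real.pi * ⟪ξ, x⟫_ℝ : ℝ) : ℂ) * Complex.I) •
          (m ξ * (𝓕 f : HH d) ξ) - Complex.exp (((2 * Real.pi * ⟪ξ, y⟫_ℝ : ℝ) : ℂ) * Complex.I) •
          (m ξ * (𝓕 f : HH d) ξ)‖ ≤ 2 * Real.pi * R * ‖x - y‖ * ‖m ξ * (𝓕 f : HH d) ξ‖ := by
      intro ξ
      rw [← sub_smul, norm_smul]
      by_cases hξ : R < ‖ξ‖
      · rw [hmR ξ hξ]
        simp
      · apply mul_le_mul_of_nonneg_right _ (norm_nonneg _)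
        refine (cont_rep_exp _ _).trans ?_
        rw [← inner_sub_right, mul_assoc (2 * Real.pi)]
        apply mul_le_mul_of_nonneg_left _ (by positivity)
        refine (abs_real_inner_le_norm _ _).trans ?_
        exact mul_le_mul_of_nonneg_right (not_lt.1 hξ) (norm_nonneg _)
    refine (integral_mono_of_nonneg (Eventually.of_forall fun _ => norm_nonneg _)
      (hI.norm.const_mul _) (Eventually.of_forall h1)).trans ?_
    rw [integral_const_mul]
    exact mul_le_mul_of_nonneg_left hB (by positivity)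


end

end LTS
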