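import Pool.Agent.H631.LT.Defs
import Pool.Agent.H631.LT.J02
import Pool.Agent.H631.LT.J06

open MeasureTheory Filter Topology ENNReal
open scoped Laplacian FourierTransform InnerProductSpace

namespace LTS

noncomputable section

/-! TARGET: prove the following -/

theorem lp_norm_sq {d : ℕ} (g : HH d) : ‖g‖ ^ 2 = ∫ x, ‖g x‖ ^ 2 := by
  have h1 : ((‖g‖ ^ 2 : ℝ) : ℂ) = ⟪g, g⟫_ℂ := by
    rw [inner_self_eq_norm_sq_to_K]
    push_cast
    rfl
  have h2 : ⟪g, g⟫_ℂ = ((∫ x, ‖g x‖ ^ 2 : ℝ) : ℂ) := by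
    rw [L2.inner_def, ← integral_complex_ofReal]
    refine integral_congr_ae (Filter.Eventually.of_forall fun x => ?_)
    simp only []
    rw [inner_self_eq_norm_sq_to_K]
    push_cast
    rfl
  rw [h2] at h1
  exact_mod_cast h1

theorem low_part {d : ℕ} (S : Set (EE d)) (hS : MeasurableSet S) (hSv : volume S ≠ ⊤)
    (m : EE d → ℂ) (hm : Measurable m) (C : ℝ) (hC : ∀ x, ‖m x‖ ≤ C)
    (hm2 : MemLp m 2 volume) (f : HH d) :
    ‖proj S (𝓕⁻ (mulOp m (𝓕 f)))‖ ^ 2 ≤ (volume S).toReal * (∫ ξ, ‖m ξ‖ ^ 2) * ‖f‖ ^ 2 := by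
  obtain ⟨G, hG, hGe, _⟩ := cont_rep m hm C hC hm2 f
  set I : ℝ := ∫ ξ, ‖m ξ‖ ^ 2 with hI
  have hI0 : 0 ≤ I := integral_nonneg fun _ => by positivity
  rw [lp_norm_sq]
  have hbd : (fun x => ‖(proj S (𝓕⁻ (mulOp m (𝓕 f)) : HH d) : EE d → ℂ) x‖ ^ 2) ≤ᵐ[volume]
      S.indicator (fun _ => I * ‖f‖ ^ 2) := by
    filter_upwards [proj_ae S hS (𝓕⁻ (mulOp m (𝓕 f)) : HH d), hGe] with x h1 h2
    rw [h1]
    by_cases hx : x ∈ S
    · rw [Set.indicator_of_mem hx, Set.indicator_of_mem hx, h2]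
      have h3 := pow_le_pow_left₀ (norm_nonneg _) (hG x) 2
      rw [mul_pow, Real.sq_sqrt hI0] at h3
      exact h3
    · rw [Set.indicator_of_notMem hx, Set.indicator_of_notMem hx]
      simp
  have hint : Integrable (S.indicator (fun _ => I * ‖f‖ ^ 2)) (volume : Measure (EE d)) := by
    rw [integrable_indicator_iff hS]
    exact integrableOn_const hSv
  refine (integral_mono_of_nonneg (Filter.Eventually.of_forall fun x => by positivity) hint
    hbd).trans (le_of_eq ?_)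
  rw [integral_indicator_const _ hS, smul_eq_mul, mul_assoc]
  rfl

end

end LTS
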