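import Pool.Agent.H631.LT.Defs
import Pool.Agent.H631.LT.J02
import Pool.Agent.H631.LT.J06

open MeasureTheory Filter Topology ENNReal
open scoped Laplacian FourierTransform InnerProductSpace

namespace LTS

noncomputable section

/-! TARGET: prove the following -/

theorem appr_low_bf {d : ℕ} (r : ℝ) : (volume : Measure (EE d)) (Metric.ball 0 r) ≠ ⊤ :=
  measure_ball_lt_top.ne

/-- disjoint pieces of the ball -/
def appr_low_S {d n : ℕ} (r ρ : ℝ) (x : Fin n → EE d) (j : Fin n) : Set (EE d) :=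
  (Metric.ball 0 r ∩ Metric.ball (x j) ρ) \ ⋃ i : Fin n, ⋃ _ : i < j, Metric.ball (x i) ρ

theorem appr_low_meas {d n : ℕ} (r ρ : ℝ) (x : Fin n → EE d) (j : Fin n) :
    MeasurableSet (appr_low_S r ρ x j) :=
  (measurableSet_ball.inter measurableSet_ball).diff
    (MeasurableSet.iUnion fun _ => MeasurableSet.iUnion fun _ => measurableSet_ball)

theorem appr_low_fin {d n : ℕ} (r ρ : ℝ) (x : Fin n → EE d) (j : Fin n) :
    (volume : Measure (EE d)) (appr_low_S r ρ x j) ≠ ⊤ :=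
  ((measure_mono (fun _ hy => hy.1.1)).trans_lt measure_ball_lt_top).ne

theorem appr_low_uniq {d n : ℕ} (r ρ : ℝ) (x : Fin n → EE d) (y : EE d) (i j : Fin n)
    (hi : y ∈ appr_low_S r ρ x i) (hj : y ∈ appr_low_S r ρ x j) : i = j := by
  rcases lt_trichotomy i j with h | h | h
  · exact absurd (Set.mem_iUnion.2 ⟨i, Set.mem_iUnion.2 ⟨h, hi.1.2⟩⟩) hj.2
  · exact h
  · exact absurd (Set.mem_iUnion.2 ⟨j, Set.mem_iUnion.2 ⟨h, hj.1.2⟩⟩) hi.2

theorem appr_low_ex {d n : ℕ} (r ρ : ℝ) (x : Fin n → EE d) (y : EE d) (hy : y ∈ Metric.ball 0 r)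
    (h : ∃ j, y ∈ Metric.ball (x j) ρ) : ∃ j, y ∈ appr_low_S r ρ x j := by
  obtain ⟨j, hj, hmin⟩ := (wellFounded_lt : WellFounded ((· < ·) : Fin n → Fin n → Prop)).has_min
    {j | y ∈ Metric.ball (x j) ρ} h
  refine ⟨j, ⟨hy, hj⟩, fun hc => ?_⟩
  obtain ⟨i, hi⟩ := Set.mem_iUnion.1 hc
  obtain ⟨hij, hi'⟩ := Set.mem_iUnion.1 hi
  exact hmin i hi' hij

theorem appr_low {d : ℕ} (r : ℝ) (m : EE d → ℂ) (hm : Measurable m) (C : ℝ)
    (hC : ∀ x, ‖m x‖ ≤ C) (R : ℝ) (hR : 0 ≤ R) (hsupp : ∀ ξ, R < ‖ξ‖ → m ξ = 0) (δ : ℝ) (hδ : 0 < δ) :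
    ∃ W : Submodule ℂ (HH d), FiniteDimensional ℂ W ∧
      ∀ f : HH d, ∃ w ∈ W, ‖proj (Metric.ball 0 r) (𝓕⁻ (mulOp m (𝓕 f))) - w‖ ≤ δ * ‖f‖ := by
  classical
  have hm2 : MemLp m 2 volume := by
    have h1 : MemLp ((Metric.closedBall (0 : EE d) R).indicator (fun _ => C)) 2 volume :=
      memLp_indicator_const 2 measurableSet_closedBall C
        (Or.inr measure_closedBall_lt_top.ne)
    refine h1.mono hm.aestronglyMeasurable (Eventually.of_forall fun ξ => ?_)
    by_cases h : ‖ξ‖ ≤ R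
    · rw [Set.indicator_of_mem (by simpa using h)]
      exact (hC ξ).trans (le_abs_self C)
    · rw [hsupp ξ (not_le.1 h)]
      simp
  set K := Real.sqrt (∫ ξ, ‖m ξ‖ ^ 2) with hKdef
  set V : ℝ := ((volume : Measure (EE d)).real (Metric.ball (0 : EE d) r))
    ^ (1 / (2 : ℝ≥0∞).toReal) with hVdef
  have hK : 0 ≤ K := Real.sqrt_nonneg _
  have hV : 0 ≤ V := Real.rpow_nonneg measureReal_nonneg _
  set D : ℝ := 2 * Real.pi * R * K * V + 1 with hD
  have hD0 : 0 ≤ 2 * Real.pi * R * K * V := by positivity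
  have hD1 : 0 < D := by linarith
  set ρ : ℝ := δ / D with hρdef
  have hρ : 0 < ρ := div_pos hδ hD1
  have htb : TotallyBounded (Metric.ball (0 : EE d) r) :=
    (isCompact_closedBall (0 : EE d) r).totallyBounded.subset Metric.ball_subset_closedBall
  obtain ⟨t, htf, ht⟩ := Metric.totallyBounded_iff.1 htb ρ hρ
  obtain ⟨n, x, -, hx⟩ := htf.fin_param
  refine ⟨Submodule.span ℂ (Set.range fun j : Fin n =>
    indicatorConstLp 2 (appr_low_meas r ρ x j) (appr_low_fin r ρ x j) (1 : ℂ)),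
    FiniteDimensional.span_of_finite ℂ (Set.finite_range _), fun f => ?_⟩
  obtain ⟨G, -, hG, hlip⟩ := cont_rep m hm C hC hm2 f
  have hlip' := hlip R hR hsupp
  refine ⟨∑ j : Fin n, G (x j) •
    indicatorConstLp 2 (appr_low_meas r ρ x j) (appr_low_fin r ρ x j) (1 : ℂ),
    Submodule.sum_mem _ fun j _ => Submodule.smul_mem _ _ (Submodule.subset_span ⟨j, rfl⟩), ?_⟩
  set M : ℝ := 2 * Real.pi * R * ρ * (K * ‖f‖) with hM
  have hM0 : 0 ≤ M := by positivity
  have hbound : ‖proj (Metric.ball 0 r) (𝓕⁻ (mulOp m (𝓕 f))) - ∑ j : Fin n, G (x j) •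
      indicatorConstLp 2 (appr_low_meas r ρ x j) (appr_low_fin r ρ x j) (1 : ℂ)‖ ≤
      ‖indicatorConstLp 2 (measurableSet_ball (x := (0 : EE d)) (ε := r))
        (appr_low_bf r) (M : ℂ)‖ := by
    refine Lp.norm_le_norm_of_ae_le ?_
    have hind : ∀ j : Fin n, (indicatorConstLp 2 (appr_low_meas r ρ x j)
        (appr_low_fin r ρ x j) (1 : ℂ) : EE d → ℂ) =ᵐ[volume]
        (appr_low_S r ρ x j).indicator fun _ => (1 : ℂ) := fun j => indicatorConstLp_coeFn
    have hsm : ∀ j : Fin n, ((G (x j) • indicatorConstLp 2 (appr_low_meas r ρ x j)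
        (appr_low_fin r ρ x j) (1 : ℂ) : HH d) : EE d → ℂ) =ᵐ[volume]
        G (x j) • (indicatorConstLp 2 (appr_low_meas r ρ x j)
        (appr_low_fin r ρ x j) (1 : ℂ) : EE d → ℂ) := fun j => Lp.coeFn_smul _ _
    filter_upwards [Lp.coeFn_sub (proj (Metric.ball 0 r) (𝓕⁻ (mulOp m (𝓕 f))))
      (∑ j : Fin n, G (x j) •
        indicatorConstLp 2 (appr_low_meas r ρ x j) (appr_low_fin r ρ x j) (1 : ℂ)),
      proj_ae (Metric.ball 0 r) measurableSet_ball (𝓕⁻ (mulOp m (𝓕 f))), hG,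
      Lp.coeFn_fun_finsetSum Finset.univ (fun j : Fin n => (G (x j) •
        indicatorConstLp 2 (appr_low_meas r ρ x j) (appr_low_fin r ρ x j) (1 : ℂ) : HH d)),
      ae_all_iff.2 hind, ae_all_iff.2 hsm,
      (indicatorConstLp_coeFn : (indicatorConstLp 2 (measurableSet_ball (x := (0 : EE d))
        (ε := r)) (appr_low_bf r) (M : ℂ) : EE d → ℂ) =ᵐ[volume] _)]
      with y h1 h2 h3 h4 h5 h6 h7
    rw [h1, Pi.sub_apply, h2, h4, h7]
    have h8 : ∀ j : Fin n, ((G (x j) • indicatorConstLp 2 (appr_low_meas r ρ x j)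
        (appr_low_fin r ρ x j) (1 : ℂ) : HH d) : EE d → ℂ) y =
        G (x j) * (appr_low_S r ρ x j).indicator (fun _ => (1 : ℂ)) y := by
      intro j
      rw [h6 j, Pi.smul_apply, smul_eq_mul, h5 j]
    rw [Finset.sum_congr rfl fun j _ => h8 j]
    by_cases hy : y ∈ Metric.ball (0 : EE d) r
    · rw [Set.indicator_of_mem hy, Set.indicator_of_mem hy, h3]
      have hex : ∃ j, y ∈ Metric.ball (x j) ρ := by
        obtain ⟨z, hz⟩ := Set.mem_iUnion.1 (ht hy)
        obtain ⟨hz1, hz2⟩ := Set.mem_iUnion.1 hz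
        rw [← hx] at hz1
        obtain ⟨j, rfl⟩ := hz1
        exact ⟨j, hz2⟩
      obtain ⟨j, hj⟩ := appr_low_ex r ρ x y hy hex
      rw [Finset.sum_eq_single j]
      · rw [Set.indicator_of_mem hj, mul_one]
        refine (hlip' y (x j)).trans ?_
        rw [Complex.norm_real, Real.norm_of_nonneg hM0]
        have h9 : ‖y - x j‖ ≤ ρ := by
          have := hj.1.2
          rw [Metric.mem_ball, dist_eq_norm] at this
          exact this.le
        have h10 : 0 ≤ 2 * Real.pi * R := by positivity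
        have h11 : 0 ≤ K * ‖f‖ := by positivity
        exact mul_le_mul_of_nonneg_right (mul_le_mul_of_nonneg_left h9 h10) h11
      · intro i _ hij
        rw [Set.indicator_of_notMem, mul_zero]
        intro hi
        exact hij (appr_low_uniq r ρ x y i j hi hj)
      · intro h
        exact absurd (Finset.mem_univ j) h
    · rw [Set.indicator_of_notMem hy, Finset.sum_eq_zero, sub_zero, norm_zero]
      · exact norm_nonneg _
      · intro j _
        rw [Set.indicator_of_notMem, mul_zero]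
        intro hj
        exact hy hj.1.1
  refine hbound.trans ?_
  rw [norm_indicatorConstLp (by norm_num) (by norm_num), Complex.norm_real,
    Real.norm_of_nonneg hM0, ← hVdef]
  have e1 : M * V = (2 * Real.pi * R * K * V) * ρ * ‖f‖ := by
    rw [hM]; ring
  rw [e1]
  refine mul_le_mul_of_nonneg_right ?_ (norm_nonneg f)
  calc (2 * Real.pi * R * K * V) * ρ ≤ D * ρ :=
        mul_le_mul_of_nonneg_right (by linarith) hρ.le
    _ = δ := by
        rw [hρdef]
        field_simp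

end

end LTS
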