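import Pool.Agent.H631.LT.Defs
import Pool.Agent.H631.LT.J02
import Pool.Agent.H631.LT.J03
import Pool.Agent.H631.LT.J08

open MeasureTheory Filter Topology ENNReal
open scoped Laplacian FourierTransform InnerProductSpace

namespace LTS

noncomputable section

/-! TARGET: prove the following -/

theorem h400_inv_norm {d : ℕ} (g : HH d) : ‖(𝓕⁻ g : HH d)‖ = ‖g‖ :=
  (Lp.fourierTransformₗᵢ (EE d) ℂ).symm.norm_map g

theorem h400_inv_add {d : ℕ} (g h : HH d) : (𝓕⁻ (g + h) : HH d) = 𝓕⁻ g + 𝓕⁻ h :=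
  (Lp.fourierTransformₗᵢ (EE d) ℂ).symm.map_add g h

theorem h400_four_norm {d : ℕ} (g : HH d) : ‖(𝓕 g : HH d)‖ = ‖g‖ :=
  (Lp.fourierTransformₗᵢ (EE d) ℂ).norm_map g

open Classical in
theorem h400_split {d : ℕ} (m : EE d → ℂ) (hm : Measurable m) (C : ℝ) (hC0 : 0 ≤ C)
    (hC : ∀ x, ‖m x‖ ≤ C) (S : Set (EE d)) (hS : MeasurableSet S) (g : HH d) :
    mulOp m g = mulOp (S.indicator m) g + mulOp (Sᶜ.indicator m) g := by
  have h1 : ∀ T : Set (EE d), ∀ x, ‖T.indicator m x‖ ≤ C := by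
    intro T x
    refine (norm_indicator_le_norm_self m x).trans (hC x)
  apply Lp.ext
  filter_upwards [mulOp_ae m hm C hC g, mulOp_ae (S.indicator m) (hm.indicator hS) C (h1 S) g,
    mulOp_ae (Sᶜ.indicator m) (hm.indicator hS.compl) C (h1 Sᶜ) g,
    Lp.coeFn_add (mulOp (S.indicator m) g) (mulOp (Sᶜ.indicator m) g)] with x e1 e2 e3 e4
  rw [e4, Pi.add_apply, e1, e2, e3, ← add_mul, Set.indicator_self_add_compl_apply]

theorem h400_wgt_far {d : ℕ} (ħ lam R : ℝ) (hħ : 0 < ħ) (hl : 0 < lam) (hR : 0 < R) (ξ : EE d)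
    (hξ : R < ‖ξ‖) : ‖wgt ħ lam ξ‖ ≤ (2 * Real.pi * ħ * R)⁻¹ := by
  have hpi := Real.pi_pos
  unfold wgt
  rw [Complex.norm_real, Real.norm_eq_abs, abs_of_nonneg (by positivity)]
  apply inv_anti₀ (by positivity)
  apply Real.le_sqrt_of_sq_le
  have h1 : R ^ 2 ≤ ‖ξ‖ ^ 2 := pow_le_pow_left₀ hR.le hξ.le 2
  calc (2 * Real.pi * ħ * R) ^ 2 = 4 * Real.pi ^ 2 * ħ ^ 2 * R ^ 2 := by ring
    _ ≤ 4 * Real.pi ^ 2 * ħ ^ 2 * ‖ξ‖ ^ 2 := mul_le_mul_of_nonneg_left h1 (by positivity)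
    _ ≤ lam + 4 * Real.pi ^ 2 * ħ ^ 2 * ‖ξ‖ ^ 2 := by linarith

theorem appr_ball {d : ℕ} (ħ lam r : ℝ) (hħ : 0 < ħ) (hl : 0 < lam) :
    Appr (proj (Metric.ball (0 : EE d) r) ∘L Top d ħ lam) := by
  intro δ hδ
  have hpi := Real.pi_pos
  obtain ⟨R, hR⟩ : ∃ R : ℝ, R = (Real.pi * ħ * δ)⁻¹ := ⟨_, rfl⟩
  have hR0 : 0 < R := by
    rw [hR]
    positivity
  have hRδ : (2 * Real.pi * ħ * R)⁻¹ = δ / 2 := by
    rw [hR]
    field_simp
  obtain ⟨S, hS⟩ : ∃ S : Set (EE d), S = Metric.closedBall 0 R := ⟨_, rfl⟩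
  have hSm : MeasurableSet S := by
    rw [hS]
    exact measurableSet_closedBall
  have hSmem : ∀ ξ : EE d, ξ ∈ S ↔ ‖ξ‖ ≤ R := by
    intro ξ
    rw [hS, Metric.mem_closedBall, dist_zero_right]
  have hw := wgt_meas (d := d) ħ lam
  have hC := wgt_bdd (d := d) ħ lam hl
  have hC0 : 0 ≤ (Real.sqrt lam)⁻¹ := by positivity
  obtain ⟨W, hWf, hW⟩ := appr_low (d := d) r (S.indicator (wgt ħ lam)) (hw.indicator hSm)
    (Real.sqrt lam)⁻¹ (fun x => (norm_indicator_le_norm_self _ x).trans (hC x)) R hR0.le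
    (fun ξ hξ => Set.indicator_of_notMem (fun h => absurd ((hSmem ξ).mp h) (not_le.mpr hξ)) _)
    (δ / 2) (by positivity)
  refine ⟨W, hWf, ?_⟩
  intro f
  obtain ⟨w, hwW, hw1⟩ := hW f
  refine ⟨w, hwW, ?_⟩
  rw [ContinuousLinearMap.comp_apply, Top_apply, h400_split (wgt ħ lam) hw _ hC0 hC S hSm,
    h400_inv_add, map_add]
  have h2 : ‖proj (Metric.ball (0 : EE d) r) (𝓕⁻ (mulOp (Sᶜ.indicator (wgt ħ lam)) (𝓕 f)))‖ ≤
      δ / 2 * ‖f‖ := by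
    refine (proj_norm _ measurableSet_ball _).trans ?_
    rw [h400_inv_norm]
    have h3 := mulOp_norm (Sᶜ.indicator (wgt ħ lam)) (hw.indicator hSm.compl) (δ / 2) (by
      intro ξ
      by_cases h4 : ξ ∈ S
      · have h5 : ξ ∉ Sᶜ := fun h => h h4
        rw [Set.indicator_of_notMem h5, norm_zero]
        positivity
      · rw [Set.indicator_of_mem h4, ← hRδ]
        exact h400_wgt_far ħ lam R hħ hl hR0 ξ (not_le.mp (fun h => h4 ((hSmem ξ).mpr h)))) (𝓕 f)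
    rwa [h400_four_norm] at h3
  rw [add_sub_right_comm]
  refine (norm_add_le _ _).trans ?_
  linarith

end

end LTS
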