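import Pool.Agent.H631.LT.Defs

open MeasureTheory Filter Topology ENNReal
open scoped Laplacian FourierTransform InnerProductSpace

namespace LTS

noncomputable section

/-! TARGET: prove the following -/

theorem int_low_pt (θ : ℝ) (hθ0 : 0 < θ) (hθ1 : θ < 1) (ħ lam t : ℝ) (hħ : 0 < ħ) (hlam : 0 < lam)
    (ht : 0 < t) : (lam + 4 * Real.pi ^ 2 * ħ ^ 2 * t ^ 2)⁻¹ ≤
      (ħ ^ (-(2 * θ)) * lam ^ (θ - 1)) * t ^ (-(2 * θ)) := by
  have h1 := Real.geom_mean_le_arith_mean2_weighted (w₁ := 1 - θ) (w₂ := θ) (p₁ := lam)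
    (p₂ := (ħ * t) ^ 2) (by linarith) hθ0.le hlam.le (by positivity) (by ring)
  have h2 : lam ^ (1 - θ) * ((ħ * t) ^ 2) ^ θ ≤ lam + 4 * Real.pi ^ 2 * ħ ^ 2 * t ^ 2 := by
    refine h1.trans ?_
    have h3 : (1 - θ) * lam ≤ lam := by nlinarith
    have h4 : 0 < (ħ * t) ^ 2 := by positivity
    have h5 : θ * (ħ * t) ^ 2 ≤ (ħ * t) ^ 2 := by nlinarith
    have h6 : (1 : ℝ) ≤ 4 * Real.pi ^ 2 := by nlinarith [Real.pi_gt_three]
    have h7 : (ħ * t) ^ 2 ≤ 4 * Real.pi ^ 2 * ħ ^ 2 * t ^ 2 := by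
      have : 4 * Real.pi ^ 2 * ħ ^ 2 * t ^ 2 = (4 * Real.pi ^ 2) * (ħ * t) ^ 2 := by ring
      rw [this]
      nlinarith
    linarith
  have h8 : 0 < lam ^ (1 - θ) * ((ħ * t) ^ 2) ^ θ := by positivity
  have h9 := inv_anti₀ h8 h2
  refine h9.trans (le_of_eq ?_)
  rw [mul_inv, ← Real.rpow_neg hlam.le, ← Real.rpow_neg (by positivity), ← Real.rpow_natCast,
    ← Real.rpow_mul (by positivity), Real.mul_rpow hħ.le ht.le]
  have e1 : -(1 - θ) = θ - 1 := by ring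
  have e2 : ((2 : ℕ) : ℝ) * -θ = -(2 * θ) := by push_cast; ring
  rw [e1, e2]
  ring

theorem int_low (d : ℕ) (θ : ℝ) (hθ0 : 0 < θ) (hθ1 : θ < 1) (hθd : 2 * θ < d) :
    ∃ C : ℝ, 0 < C ∧ ∀ R ħ lam : ℝ, 0 < R → 0 < ħ → 0 < lam →
      ∫ ξ in Metric.closedBall (0 : EE d) R, (lam + 4 * Real.pi ^ 2 * ħ ^ 2 * ‖ξ‖ ^ 2)⁻¹ ≤
        C * R ^ ((d : ℝ) - 2 * θ) * ħ ^ (-(2 * θ)) * lam ^ (θ - 1) := by
  have hd : 0 < d := by
    have : (0 : ℝ) < d := by linarith
    exact_mod_cast this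
  have hne : Nonempty (Fin d) := ⟨⟨0, hd⟩⟩
  have hnt : Nontrivial (EE d) := by
    apply Module.nontrivial_of_finrank_pos (R := ℝ)
    rw [finrank_euclideanSpace_fin]
    exact hd
  have hfr : Module.finrank ℝ (EE d) = d := finrank_euclideanSpace_fin
  have hvol : 0 < (volume : Measure (EE d)).real (Metric.ball 0 1) :=
    ENNReal.toReal_pos (Metric.measure_ball_pos volume 0 one_pos).ne' measure_ball_lt_top.ne
  have hexp : (-1 : ℝ) < (d : ℝ) - 1 - 2 * θ := by linarith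
  have hcong : ∀ y : ℝ, 0 < y → y ^ (d - 1) • (y ^ (-(2 * θ)) : ℝ) = y ^ ((d : ℝ) - 1 - 2 * θ) := by
    intro y hy
    rw [smul_eq_mul, ← Real.rpow_natCast, ← Real.rpow_add hy, Nat.cast_sub (by omega : 1 ≤ d)]
    congr 1
    push_cast
    ring
  have hii : ∀ R : ℝ, 0 < R → IntegrableOn (fun y : ℝ => y ^ ((d : ℝ) - 1 - 2 * θ))
      (Set.Ioc 0 R) := by
    intro R hR
    have := intervalIntegral.intervalIntegrable_rpow' (a := 0) (b := R) hexp
    rwa [intervalIntegrable_iff_integrableOn_Ioc_of_le hR.le] at this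
  have hsm : ∀ R : ℝ, (fun y : ℝ => y ^ (Module.finrank ℝ (EE d) - 1) •
      (Set.Iic R).indicator (fun y : ℝ => (y ^ (-(2 * θ)) : ℝ)) y) =
      (Set.Iic R).indicator (fun y : ℝ => y ^ (d - 1) • (y ^ (-(2 * θ)) : ℝ)) := by
    intro R
    funext y
    rw [hfr]
    by_cases hy : y ∈ Set.Iic R
    · rw [Set.indicator_of_mem hy, Set.indicator_of_mem hy]
    · rw [Set.indicator_of_notMem hy, Set.indicator_of_notMem hy, smul_zero]
  have hset : ∀ R : ℝ, Set.Ioi (0 : ℝ) ∩ Set.Iic R = Set.Ioc 0 R := by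
    intro R
    rfl
  have hfun : ∀ R : ℝ, (Metric.closedBall (0 : EE d) R).indicator
      (fun ξ : EE d => (‖ξ‖ ^ (-(2 * θ)) : ℝ)) =
      fun ξ => (Set.Iic R).indicator (fun y : ℝ => (y ^ (-(2 * θ)) : ℝ)) ‖ξ‖ := by
    intro R
    funext ξ
    by_cases hξ : ‖ξ‖ ≤ R
    · rw [Set.indicator_of_mem (by rw [mem_closedBall_zero_iff]; exact hξ),
        Set.indicator_of_mem (by exact hξ)]
    · rw [Set.indicator_of_notMem (by rw [mem_closedBall_zero_iff]; exact hξ),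
        Set.indicator_of_notMem (by exact hξ)]
  have hint : ∀ R : ℝ, 0 < R → IntegrableOn (fun ξ : EE d => (‖ξ‖ ^ (-(2 * θ)) : ℝ))
      (Metric.closedBall 0 R) := by
    intro R hR
    rw [← integrable_indicator_iff Metric.isClosed_closedBall.measurableSet, hfun R,
      integrable_fun_norm_addHaar volume, hsm R, IntegrableOn,
      integrable_indicator_iff measurableSet_Iic, IntegrableOn,
      Measure.restrict_restrict measurableSet_Iic, Set.inter_comm, hset R]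
    refine (integrableOn_congr_fun ?_ measurableSet_Ioc).2 (hii R hR)
    intro y hy
    exact hcong y hy.1
  have hval : ∀ R : ℝ, 0 < R → ∫ ξ in Metric.closedBall (0 : EE d) R, (‖ξ‖ ^ (-(2 * θ)) : ℝ) =
      (d : ℝ) * (volume : Measure (EE d)).real (Metric.ball 0 1) *
        (R ^ ((d : ℝ) - 2 * θ) / ((d : ℝ) - 2 * θ)) := by
    intro R hR
    rw [← integral_indicator Metric.isClosed_closedBall.measurableSet, hfun R,
      integral_fun_norm_addHaar volume, hsm R, setIntegral_indicator measurableSet_Iic, hset R,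
      setIntegral_congr_fun measurableSet_Ioc (fun y hy => hcong y hy.1),
      ← intervalIntegral.integral_of_le hR.le, integral_rpow (Or.inl hexp), hfr]
    have e1 : (d : ℝ) - 1 - 2 * θ + 1 = (d : ℝ) - 2 * θ := by ring
    rw [e1, Real.zero_rpow (by linarith), sub_zero, nsmul_eq_mul, smul_eq_mul, mul_assoc]
  refine ⟨(d : ℝ) * (volume : Measure (EE d)).real (Metric.ball 0 1) / ((d : ℝ) - 2 * θ),
    div_pos (mul_pos (by exact_mod_cast hd) hvol) (by linarith), ?_⟩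
  intro R ħ lam hR hħ hlam
  have hmono : ∫ ξ in Metric.closedBall (0 : EE d) R,
      (lam + 4 * Real.pi ^ 2 * ħ ^ 2 * ‖ξ‖ ^ 2)⁻¹ ≤
      ∫ ξ in Metric.closedBall (0 : EE d) R, (ħ ^ (-(2 * θ)) * lam ^ (θ - 1)) *
        (‖ξ‖ ^ (-(2 * θ)) : ℝ) := by
    apply integral_mono_of_nonneg
    · exact Filter.Eventually.of_forall (fun ξ => by positivity)
    · exact (hint R hR).const_mul _
    · have h0 : ∀ᵐ ξ ∂(volume : Measure (EE d)), ξ ≠ 0 :=
        compl_mem_ae_iff.2 (measure_singleton (0 : EE d))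
      filter_upwards [ae_restrict_of_ae h0] with ξ hξ
      exact int_low_pt θ hθ0 hθ1 ħ lam ‖ξ‖ hħ hlam (norm_pos_iff.2 hξ)
  refine hmono.trans (le_of_eq ?_)
  rw [integral_const_mul, hval R hR]
  ring

end

end LTS
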