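import Pool.Agent.H631.LT.Defs

open MeasureTheory Filter Topology ENNReal
open scoped Laplacian FourierTransform InnerProductSpace

namespace LTS

noncomputable section

/-! TARGET: prove the following -/

private theorem j24465_real (c lam : ℝ) (hc : 0 < c) (hl : 0 < lam) :
    Integrable (fun x : ℝ => (lam + c ^ 2 * x ^ 2)⁻¹) ∧
    ∫ x : ℝ, (lam + c ^ 2 * x ^ 2)⁻¹ = Real.pi / (c * Real.sqrt lam) := by
  have hs : 0 < Real.sqrt lam := Real.sqrt_pos.2 hl
  have hss : Real.sqrt lam * Real.sqrt lam = lam := Real.mul_self_sqrt hl.le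
  have ha : c / Real.sqrt lam ≠ 0 := (div_pos hc hs).ne'
  have e : (fun x : ℝ => (lam + c ^ 2 * x ^ 2)⁻¹) =
      fun x : ℝ => lam⁻¹ * (1 + (c / Real.sqrt lam * x) ^ 2)⁻¹ := by
    funext x
    rw [← mul_inv]
    congr 1
    rw [mul_pow, div_pow, sq (Real.sqrt lam), hss]
    field_simp
  constructor
  · rw [e]
    exact (integrable_inv_one_add_sq.comp_mul_left' ha).const_mul _
  · rw [e, integral_const_mul,
      Measure.integral_comp_mul_left (fun y : ℝ => (1 + y ^ 2)⁻¹) (c / Real.sqrt lam),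
      integral_univ_inv_one_add_sq, smul_eq_mul, inv_div, abs_of_pos (div_pos hs hc)]
    have h1 : lam = Real.sqrt lam * Real.sqrt lam := hss.symm
    rw [h1, Real.sqrt_mul_self hs.le]
    field_simp

private theorem j24465_mp :
    MeasurePreserving (fun ξ : EE 1 => ξ 0) volume (volume : Measure ℝ) := by
  have h1 := (volume_preserving_funUnique (Fin 1) ℝ).comp
    (EuclideanSpace.volume_preserving_symm_measurableEquiv_toLp (Fin 1))
  exact h1

private theorem j24465_emb : MeasurableEmbedding (fun ξ : EE 1 => ξ 0) := by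
  exact ((MeasurableEquiv.toLp 2 (Fin 1 → ℝ)).symm.trans
    (MeasurableEquiv.funUnique (Fin 1) ℝ)).measurableEmbedding

private theorem j24465_norm (ξ : EE 1) : ‖ξ‖ ^ 2 = (ξ 0) ^ 2 := by
  rw [EuclideanSpace.norm_sq_eq]
  simp

theorem int_one (ħ lam : ℝ) (hħ : 0 < ħ) (hl : 0 < lam) :
    MemLp (wgt (d := 1) ħ lam) 2 volume ∧
    ∫ ξ : EE 1, ‖wgt ħ lam ξ‖ ^ 2 ≤ 1 / (ħ * Real.sqrt lam) := by
  have hc : 0 < 2 * Real.pi * ħ := by positivity
  obtain ⟨h1, h2⟩ := j24465_real (2 * Real.pi * ħ) lam hc hl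
  have hsq : ∀ ξ : EE 1, ‖wgt ħ lam ξ‖ ^ 2 =
      (lam + (2 * Real.pi * ħ) ^ 2 * (ξ 0) ^ 2)⁻¹ := by
    intro ξ
    have hp : 0 < lam + 4 * Real.pi ^ 2 * ħ ^ 2 * ‖ξ‖ ^ 2 := by positivity
    unfold wgt
    rw [Complex.norm_real, Real.norm_of_nonneg (inv_nonneg.2 (Real.sqrt_nonneg _)), inv_pow,
      Real.sq_sqrt hp.le, j24465_norm]
    congr 1
    ring
  have hcont : Continuous (fun ξ : EE 1 => wgt ħ lam ξ) := by
    unfold wgt
    apply Complex.continuous_ofReal.comp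
    apply Continuous.inv₀
    · fun_prop
    · intro ξ
      have hp : 0 < lam + 4 * Real.pi ^ 2 * ħ ^ 2 * ‖ξ‖ ^ 2 := by positivity
      exact (Real.sqrt_pos.2 hp).ne'
  have hI : Integrable (fun ξ : EE 1 => (lam + (2 * Real.pi * ħ) ^ 2 * (ξ 0) ^ 2)⁻¹) := by
    have h3 := (j24465_mp.integrable_comp_emb j24465_emb).2 h1
    exact h3
  constructor
  · rw [memLp_two_iff_integrable_sq_norm hcont.aestronglyMeasurable]
    refine hI.congr (Filter.Eventually.of_forall fun ξ => ?_)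
    exact (hsq ξ).symm
  · have e1 : ∫ ξ : EE 1, ‖wgt ħ lam ξ‖ ^ 2 =
        ∫ ξ : EE 1, (lam + (2 * Real.pi * ħ) ^ 2 * (ξ 0) ^ 2)⁻¹ :=
      integral_congr_ae (Filter.Eventually.of_forall fun ξ => hsq ξ)
    have e2 := j24465_mp.integral_comp j24465_emb
      (fun x : ℝ => (lam + (2 * Real.pi * ħ) ^ 2 * x ^ 2)⁻¹)
    rw [e1, e2, h2]
    have hs : 0 < Real.sqrt lam := Real.sqrt_pos.2 hl
    have e3 : Real.pi / (2 * Real.pi * ħ * Real.sqrt lam) = (1 / 2) * (1 / (ħ * Real.sqrt lam)) := by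
      field_simp
    rw [e3]
    have h4 : 0 ≤ 1 / (ħ * Real.sqrt lam) := by positivity
    linarith

end

end LTS
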