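import Pool.Agent.H631.LT.Defs
import Pool.Agent.H631.LT.J02
import Pool.Agent.H631.LT.J03
import Pool.Agent.H631.LT.J07
import Pool.Agent.H631.LT.J10
import Pool.Agent.H631.LT.J11

open MeasureTheory Filter Topology ENNReal
open scoped Laplacian FourierTransform InnerProductSpace

namespace LTS

noncomputable section

/-! TARGET: prove the following -/

theorem wgt_sq {d : ℕ} (ħ lam : ℝ) (hl : 0 < lam) (ξ : EE d) :
    ‖wgt ħ lam ξ‖ ^ 2 = (lam + 4 * Real.pi ^ 2 * ħ ^ 2 * ‖ξ‖ ^ 2)⁻¹ := by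
  have h0 : 0 ≤ lam + 4 * Real.pi ^ 2 * ħ ^ 2 * ‖ξ‖ ^ 2 := by positivity
  unfold wgt
  rw [Complex.norm_real, Real.norm_eq_abs, sq_abs, inv_pow, Real.sq_sqrt h0]

theorem ball_vol {d : ℕ} (r : ℝ) (hr : 0 < r) :
    (volume (Metric.ball (0 : EE d) r)).toReal =
      r ^ d * (volume (Metric.ball (0 : EE d) 1)).toReal := by
  rw [Measure.addHaar_ball_of_pos volume (0 : EE d) hr, ENNReal.toReal_mul,
    ENNReal.toReal_ofReal (by positivity), finrank_euclideanSpace, Fintype.card_fin]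

theorem Top_ball (d : ℕ) (hd : 1 ≤ d) (θ : ℝ) (hθ0 : 0 < θ) (hθ1 : θ < 1) (hθd : 2 * θ ≤ d) :
    ∃ C : ℝ, 0 < C ∧ ∀ r ħ lam : ℝ, 0 < r → 0 < ħ → 0 < lam → ∀ f : HH d,
      ‖proj (Metric.ball (0 : EE d) r) (Top d ħ lam f)‖ ^ 2 ≤
        C * (r / ħ) ^ (2 * θ) * lam ^ (θ - 1) * ‖f‖ ^ 2 := by
  obtain ⟨V, hV⟩ : ∃ V, V = (volume (Metric.ball (0 : EE d) 1)).toReal := ⟨_, rfl⟩
  have hV0 : 0 ≤ V := by rw [hV]; exact ENNReal.toReal_nonneg
  have hfin : ∀ r : ℝ, volume (Metric.ball (0 : EE d) r) ≠ ⊤ := fun r => measure_ball_lt_top.ne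
  rcases lt_or_eq_of_le hθd with hlt | heq
  · obtain ⟨C1, hC1, hint⟩ := int_low d θ hθ0 hθ1 hlt
    refine ⟨2 * (V * C1 + 1), by positivity, ?_⟩
    intro r ħ lam hr hħ hl f
    have hR : 0 < r⁻¹ := by positivity
    obtain ⟨M, hM⟩ : ∃ M, M = (r / ħ) ^ (2 * θ) * lam ^ (θ - 1) := ⟨_, rfl⟩
    have hMpos : 0 < M := by rw [hM]; positivity
    obtain ⟨S, hS⟩ : ∃ S, S = Metric.closedBall (0 : EE d) r⁻¹ := ⟨_, rfl⟩
    have hSm : MeasurableSet S := by rw [hS]; exact Metric.isClosed_closedBall.measurableSet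
    obtain ⟨m1, hm1⟩ : ∃ m1 : EE d → ℂ, m1 = S.indicator (wgt ħ lam) := ⟨_, rfl⟩
    obtain ⟨m2, hm2⟩ : ∃ m2 : EE d → ℂ, m2 = Sᶜ.indicator (wgt ħ lam) := ⟨_, rfl⟩
    have hwm : Measurable (wgt (d := d) ħ lam) := wgt_meas ħ lam
    have hm1m : Measurable m1 := by rw [hm1]; exact hwm.indicator hSm
    have hm2m : Measurable m2 := by rw [hm2]; exact hwm.indicator hSm.compl
    have hm1b : ∀ x, ‖m1 x‖ ≤ (Real.sqrt lam)⁻¹ := by
      intro x
      rw [hm1]
      exact (norm_indicator_le_norm_self _ _).trans (wgt_bdd ħ lam hl x)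
    have hm2sq : ∀ x, ‖m2 x‖ ^ 2 ≤ M := by
      intro x
      rw [hm2]
      by_cases hx : x ∈ S
      · rw [Set.indicator_of_notMem (by simpa using hx)]
        simpa using hMpos.le
      · rw [Set.indicator_of_mem (by simpa using hx), wgt_sq ħ lam hl]
        have hx' : r⁻¹ < ‖x‖ := by
          rw [hS, Metric.mem_closedBall, dist_zero_right] at hx
          exact not_le.1 hx
        have h1 := Real.geom_mean_le_arith_mean2_weighted (w₁ := 1 - θ) (w₂ := θ) (p₁ := lam)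
          (p₂ := (ħ / r) ^ 2) (by linarith) hθ0.le hl.le (by positivity) (by ring)
        have h2 : (ħ / r) ^ 2 ≤ 4 * Real.pi ^ 2 * ħ ^ 2 * ‖x‖ ^ 2 := by
          have h3 : (r⁻¹) ^ 2 ≤ ‖x‖ ^ 2 := pow_le_pow_left₀ hR.le hx'.le 2
          have h4 : (1 : ℝ) ≤ 4 * Real.pi ^ 2 := by nlinarith [Real.pi_gt_three]
          calc (ħ / r) ^ 2 = 1 * (ħ ^ 2 * (r⁻¹) ^ 2) := by rw [div_eq_mul_inv]; ring
            _ ≤ (4 * Real.pi ^ 2) * (ħ ^ 2 * ‖x‖ ^ 2) := by
              apply mul_le_mul h4 _ (by positivity) (by positivity)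
              exact mul_le_mul_of_nonneg_left h3 (by positivity)
            _ = _ := by ring
        have h5 : ((ħ / r) ^ 2) ^ θ = (ħ / r) ^ (2 * θ) := by
          rw [← Real.rpow_natCast, ← Real.rpow_mul (by positivity)]
          norm_num
        rw [h5] at h1
        have h6 : lam ^ (1 - θ) * (ħ / r) ^ (2 * θ) ≤
            lam + 4 * Real.pi ^ 2 * ħ ^ 2 * ‖x‖ ^ 2 := by
          have h7 : 0 ≤ θ * lam := by positivity
          have h8 : 0 ≤ (1 - θ) * (ħ / r) ^ 2 := mul_nonneg (by linarith) (by positivity)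
          nlinarith
        have h9 : M = (lam ^ (1 - θ) * (ħ / r) ^ (2 * θ))⁻¹ := by
          rw [hM, mul_inv, mul_comm, ← Real.rpow_neg hl.le, ← Real.inv_rpow (by positivity),
            inv_div]
          congr 2
          ring
        rw [h9]
        exact inv_anti₀ (by positivity) h6
    have hm2b : ∀ x, ‖m2 x‖ ≤ Real.sqrt M := fun x => Real.le_sqrt_of_sq_le (hm2sq x)
    have hdec : ∀ g : HH d, mulOp (wgt ħ lam) g = mulOp m1 g + mulOp m2 g := by
      intro g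
      apply Lp.ext
      filter_upwards [mulOp_ae (wgt ħ lam) hwm _ (wgt_bdd ħ lam hl) g, mulOp_ae m1 hm1m _ hm1b g,
        mulOp_ae m2 hm2m _ hm2b g, Lp.coeFn_add (mulOp m1 g) (mulOp m2 g)] with x h1 h2 h3 h4
      rw [h4, Pi.add_apply, h1, h2, h3, hm1, hm2, ← add_mul]
      congr 1
      by_cases hx : x ∈ S
      · rw [Set.indicator_of_mem hx, Set.indicator_of_notMem (by simpa using hx), add_zero]
      · rw [Set.indicator_of_notMem hx, Set.indicator_of_mem (by simpa using hx), zero_add]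
    rw [Top_apply, hdec, FourierInvAdd.fourierInv_add, map_add]
    have hfirst : ‖proj (Metric.ball (0 : EE d) r) (𝓕⁻ (mulOp m1 (𝓕 f)))‖ ^ 2 ≤
        V * C1 * M * ‖f‖ ^ 2 := by
      have hmem : MemLp m1 2 volume := by
        rw [hm1, memLp_indicator_iff_restrict hSm]
        have : IsFiniteMeasure ((volume : Measure (EE d)).restrict S) := by
          refine ⟨?_⟩
          rw [Measure.restrict_apply_univ, hS]
          exact measure_closedBall_lt_top
        exact MemLp.of_bound hwm.aestronglyMeasurable _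
          (Eventually.of_forall (wgt_bdd ħ lam hl))
      refine (low_part _ Metric.isOpen_ball.measurableSet (hfin r) m1 hm1m _ hm1b hmem f).trans ?_
      apply mul_le_mul_of_nonneg_right _ (by positivity)
      have h1 : ∫ ξ, ‖m1 ξ‖ ^ 2 = ∫ ξ in S, (lam + 4 * Real.pi ^ 2 * ħ ^ 2 * ‖ξ‖ ^ 2)⁻¹ := by
        rw [← integral_indicator hSm]
        congr 1
        funext ξ
        rw [hm1]
        by_cases hx : ξ ∈ S
        · rw [Set.indicator_of_mem hx, Set.indicator_of_mem hx, wgt_sq ħ lam hl]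
        · rw [Set.indicator_of_notMem hx, Set.indicator_of_notMem hx]
          simp
      have h2 := hint r⁻¹ ħ lam hR hħ hl
      rw [← hS, ← h1] at h2
      rw [ball_vol r hr, ← hV]
      calc r ^ d * V * ∫ ξ, ‖m1 ξ‖ ^ 2 ≤
          r ^ d * V * (C1 * r⁻¹ ^ ((d : ℝ) - 2 * θ) * ħ ^ (-(2 * θ)) * lam ^ (θ - 1)) :=
            mul_le_mul_of_nonneg_left h2 (by positivity)
        _ = V * C1 * M := by
          have h3 : r⁻¹ ^ ((d : ℝ) - 2 * θ) = r ^ (2 * θ) / r ^ d := by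
            rw [Real.inv_rpow hr.le, ← Real.rpow_neg hr.le, neg_sub, Real.rpow_sub hr,
              Real.rpow_natCast]
          have h4 : ħ ^ (-(2 * θ)) = (ħ ^ (2 * θ))⁻¹ := Real.rpow_neg hħ.le _
          rw [hM, h3, h4, Real.div_rpow hr.le hħ.le]
          have h5 : r ^ d ≠ 0 := by positivity
          field_simp
    have hsecond : ‖proj (Metric.ball (0 : EE d) r) (𝓕⁻ (mulOp m2 (𝓕 f)))‖ ^ 2 ≤
        M * ‖f‖ ^ 2 := by
      have h1 : ‖proj (Metric.ball (0 : EE d) r) (𝓕⁻ (mulOp m2 (𝓕 f)))‖ ≤ Real.sqrt M * ‖f‖ := by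
        refine (proj_norm _ Metric.isOpen_ball.measurableSet _).trans ?_
        have h2 : ‖(𝓕⁻ (mulOp m2 (𝓕 f)) : HH d)‖ = ‖mulOp m2 (𝓕 f)‖ :=
          (Lp.fourierTransformₗᵢ (EE d) ℂ).symm.norm_map _
        rw [h2]
        refine (mulOp_norm m2 hm2m _ hm2b _).trans ?_
        rw [Lp.norm_fourier_eq]
      calc ‖proj (Metric.ball (0 : EE d) r) (𝓕⁻ (mulOp m2 (𝓕 f)))‖ ^ 2 ≤
            (Real.sqrt M * ‖f‖) ^ 2 := pow_le_pow_left₀ (norm_nonneg _) h1 2
        _ = M * ‖f‖ ^ 2 := by rw [mul_pow, Real.sq_sqrt hMpos.le]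
    have htri := norm_add_le (proj (Metric.ball (0 : EE d) r) (𝓕⁻ (mulOp m1 (𝓕 f))))
      (proj (Metric.ball (0 : EE d) r) (𝓕⁻ (mulOp m2 (𝓕 f))))
    have hgoal : 2 * (V * C1 + 1) * (r / ħ) ^ (2 * θ) * lam ^ (θ - 1) * ‖f‖ ^ 2 =
        2 * (V * C1 * M * ‖f‖ ^ 2 + M * ‖f‖ ^ 2) := by
      rw [hM]
      ring
    rw [hgoal]
    obtain ⟨a, ha⟩ : ∃ a, a = ‖proj (Metric.ball (0 : EE d) r) (𝓕⁻ (mulOp m1 (𝓕 f)))‖ := ⟨_, rfl⟩
    obtain ⟨b, hb⟩ : ∃ b, b = ‖proj (Metric.ball (0 : EE d) r) (𝓕⁻ (mulOp m2 (𝓕 f)))‖ := ⟨_, rfl⟩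
    rw [← ha] at hfirst
    rw [← hb] at hsecond
    rw [← ha, ← hb] at htri
    calc _ ≤ (a + b) ^ 2 := pow_le_pow_left₀ (norm_nonneg _) htri 2
      _ ≤ 2 * (a ^ 2 + b ^ 2) := by nlinarith [sq_nonneg (a - b)]
      _ ≤ _ := by linarith
  · have hd1 : d = 1 := by
      have h1 : (d : ℝ) < 2 := by rw [← heq]; linarith
      have h2 : d < 2 := by exact_mod_cast h1
      omega
    subst hd1
    have hθ : θ = 1 / 2 := by
      rw [Nat.cast_one] at heq
      linarith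
    refine ⟨V + 1, by positivity, ?_⟩
    intro r ħ lam hr hħ hl f
    obtain ⟨hmem, hint⟩ := int_one ħ lam hħ hl
    rw [Top_apply]
    refine (low_part _ Metric.isOpen_ball.measurableSet (hfin r) (wgt ħ lam) (wgt_meas ħ lam) _
      (wgt_bdd ħ lam hl) hmem f).trans ?_
    apply mul_le_mul_of_nonneg_right _ (by positivity)
    rw [ball_vol r hr, ← hV, pow_one]
    have e1 : (2 : ℝ) * θ = 1 := by rw [hθ]; norm_num
    have e2 : lam ^ (θ - 1) = (Real.sqrt lam)⁻¹ := by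
      rw [hθ, Real.sqrt_eq_rpow, ← Real.rpow_neg hl.le]
      norm_num
    rw [e1, Real.rpow_one, e2]
    calc r * V * ∫ ξ : EE 1, ‖wgt ħ lam ξ‖ ^ 2 ≤ r * V * (1 / (ħ * Real.sqrt lam)) :=
          mul_le_mul_of_nonneg_left hint (by positivity)
      _ = V * (r / ħ) * (Real.sqrt lam)⁻¹ := by
        have : 0 < Real.sqrt lam := Real.sqrt_pos.2 hl
        field_simp
      _ ≤ (V + 1) * (r / ħ) * (Real.sqrt lam)⁻¹ := by
        apply mul_le_mul_of_nonneg_right _ (by positivity)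
        apply mul_le_mul_of_nonneg_right _ (by positivity)
        linarith

end

end LTS
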