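import Pool.Agent.H631.LT.Defs

open MeasureTheory Filter Topology ENNReal
open scoped Laplacian FourierTransform InnerProductSpace

namespace LTS

noncomputable section

/-! TARGET: prove the following -/

theorem aux_tb {H : Type} [NormedAddCommGroup H] [InnerProductSpace ℂ H]
    (M : H →L[ℂ] H) (hM : Appr M) : TotallyBounded (M '' Metric.closedBall 0 1) := by
  rw [Metric.totallyBounded_iff]
  intro ε hε
  obtain ⟨W, hW, hWa⟩ := hM (ε / 4) (by positivity)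
  have : ProperSpace W := FiniteDimensional.proper ℂ W
  have hK : IsCompact ((fun w : W => (w : H)) '' Metric.closedBall (0 : W) (‖M‖ + ε / 4)) :=
    (isCompact_closedBall (0 : W) _).image continuous_subtype_val
  obtain ⟨t, ht, htc⟩ := Metric.totallyBounded_iff.1 hK.totallyBounded (ε / 2) (by positivity)
  refine ⟨t, ht, ?_⟩
  rintro _ ⟨f, hf, rfl⟩
  rw [mem_closedBall_zero_iff] at hf
  obtain ⟨w, hw, hwf⟩ := hWa f
  have h1 : ‖M f - w‖ ≤ ε / 4 := hwf.trans (by nlinarith)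
  have h2 : ‖M f‖ ≤ ‖M‖ := by
    calc ‖M f‖ ≤ ‖M‖ * ‖f‖ := M.le_opNorm f
      _ ≤ ‖M‖ * 1 := mul_le_mul_of_nonneg_left hf (norm_nonneg _)
      _ = ‖M‖ := mul_one _
  have h3 : ‖w‖ ≤ ‖M‖ + ε / 4 := by
    have : w = M f - (M f - w) := by abel
    calc ‖w‖ = ‖M f - (M f - w)‖ := by rw [← this]
      _ ≤ ‖M f‖ + ‖M f - w‖ := norm_sub_le _ _
      _ ≤ _ := by linarith
  have h4 : w ∈ (fun w : W => (w : H)) '' Metric.closedBall (0 : W) (‖M‖ + ε / 4) :=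
    ⟨⟨w, hw⟩, by rw [mem_closedBall_zero_iff]; exact h3, rfl⟩
  have h5 := htc h4
  rw [Set.mem_iUnion₂] at h5 ⊢
  obtain ⟨y, hy, hyw⟩ := h5
  refine ⟨y, hy, ?_⟩
  rw [Metric.mem_ball] at hyw ⊢
  calc dist (M f) y ≤ dist (M f) w + dist w y := dist_triangle _ _ _
    _ < ε := by rw [dist_eq_norm (M f) w]; linarith

theorem aux_sub {H : Type} [NormedAddCommGroup H] [InnerProductSpace ℂ H] [CompleteSpace H]
    (M : H →L[ℂ] H) (hM : Appr M) (g : ℕ → H) (hg : ∀ n, ‖g n‖ ≤ 1) :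
    ∃ (y : H) (φ : ℕ → ℕ), StrictMono φ ∧ Tendsto (fun n => M (g (φ n))) atTop (𝓝 y) := by
  have h1 : IsCompact (closure (M '' Metric.closedBall 0 1)) :=
    (aux_tb M hM).closure.isCompact_of_isClosed isClosed_closure
  obtain ⟨y, _, φ, hφ, hlim⟩ := h1.tendsto_subseq (x := fun n => M (g n))
    (fun n => subset_closure ⟨g n, by rw [mem_closedBall_zero_iff]; exact hg n, rfl⟩)
  exact ⟨y, φ, hφ, hlim⟩

theorem aux_cs {H : Type} [NormedAddCommGroup H] [InnerProductSpace ℂ H]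
    (L : H →L[ℂ] H) (hLs : ∀ f g, ⟪L f, g⟫_ℂ = ⟪f, L g⟫_ℂ) (hL : ∀ f, 0 ≤ (⟪L f, f⟫_ℂ).re) (f : H) :
    ‖L f‖ ^ 2 ≤ (‖L‖ + 1) * (⟪L f, f⟫_ℂ).re := by
  set t : ℝ := 1 / (‖L‖ + 1) with ht
  have hLn : 0 ≤ ‖L‖ := norm_nonneg _
  have htpos : 0 < t := by positivity
  have htL : t * ‖L‖ ≤ 1 := by
    rw [ht, one_div, inv_mul_le_iff₀ (by positivity)]
    linarith
  have h1 := hL (f - (t : ℂ) • L f)
  have h2 : (⟪L (f - (t : ℂ) • L f), f - (t : ℂ) • L f⟫_ℂ).re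
      = (⟪L f, f⟫_ℂ).re - 2 * t * ‖L f‖ ^ 2 + t ^ 2 * (⟪L (L f), L f⟫_ℂ).re := by
    rw [map_sub, map_smul, inner_sub_left, inner_sub_right, inner_sub_right, inner_smul_left,
      inner_smul_left, inner_smul_right, inner_smul_right, hLs (L f) f]
    have e : (⟪L f, L f⟫_ℂ) = ((‖L f‖ ^ 2 : ℝ) : ℂ) := by
      rw [inner_self_eq_norm_sq_to_K]
      norm_cast
    rw [e, Complex.conj_ofReal]
    simp only [Complex.sub_re, Complex.re_ofReal_mul, Complex.ofReal_re]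
    ring
  have h3 : (⟪L (L f), L f⟫_ℂ).re ≤ ‖L‖ * ‖L f‖ ^ 2 := by
    calc (⟪L (L f), L f⟫_ℂ).re ≤ ‖(⟪L (L f), L f⟫_ℂ)‖ := Complex.re_le_norm _
      _ ≤ ‖L (L f)‖ * ‖L f‖ := norm_inner_le_norm _ _
      _ ≤ (‖L‖ * ‖L f‖) * ‖L f‖ := mul_le_mul_of_nonneg_right (L.le_opNorm _) (norm_nonneg _)
      _ = _ := by ring
  rw [h2] at h1
  have h4 : t ^ 2 * (⟪L (L f), L f⟫_ℂ).re ≤ t * ‖L f‖ ^ 2 := by
    calc t ^ 2 * (⟪L (L f), L f⟫_ℂ).re ≤ t ^ 2 * (‖L‖ * ‖L f‖ ^ 2) :=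
          mul_le_mul_of_nonneg_left h3 (sq_nonneg t)
      _ = (t * ‖L f‖ ^ 2) * (t * ‖L‖) := by ring
      _ ≤ (t * ‖L f‖ ^ 2) * 1 := mul_le_mul_of_nonneg_left htL (by positivity)
      _ = _ := mul_one _
  have h5 : t * ‖L f‖ ^ 2 ≤ (⟪L f, f⟫_ℂ).re := by linarith
  have h6 : (‖L‖ + 1) * t = 1 := by rw [ht]; field_simp
  calc ‖L f‖ ^ 2 = (‖L‖ + 1) * t * ‖L f‖ ^ 2 := by rw [h6, one_mul]
    _ = (‖L‖ + 1) * (t * ‖L f‖ ^ 2) := by ring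
    _ ≤ _ := mul_le_mul_of_nonneg_left h5 (by positivity)

theorem abs_min {H : Type} [NormedAddCommGroup H] [InnerProductSpace ℂ H] [CompleteSpace H]
    (T M : H →L[ℂ] H) (hM : Appr M) (hMs : ∀ f g, ⟪M f, g⟫_ℂ = ⟪f, M g⟫_ℂ)
    (hTs : ∀ f g, ⟪T f, g⟫_ℂ = ⟪f, T g⟫_ℂ) (q lam κ : ℝ) (hq : 0 ≤ q) (hq1 : q < 1) (hl : 0 < lam)
    (hκ : 0 < κ) (hT : ∀ f, lam * ‖T f‖ ^ 2 ≤ ‖f‖ ^ 2)
    (hMq : ∀ f, 0 ≤ (⟪M f, f⟫_ℂ).re ∧ (⟪M f, f⟫_ℂ).re ≤ q * ‖f‖ ^ 2)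
    (g₀ : H) (hg₀ : T g₀ ≠ 0) (htrial : ‖g₀‖ ^ 2 - (⟪M g₀, g₀⟫_ℂ).re ≤ (lam - κ) * ‖T g₀‖ ^ 2) :
    ∃ (ν : ℝ) (g : H), T g ≠ 0 ∧ (1 - q) * lam ≤ ν ∧ ν ≤ lam - κ ∧
      g - M g = (ν : ℂ) • T (T g) := by
  set S : Set ℝ := {t | ∃ g, T g ≠ 0 ∧ t = (‖g‖ ^ 2 - (⟪M g, g⟫_ℂ).re) / ‖T g‖ ^ 2} with hS
  have hlow : ∀ g, (1 - q) * lam * ‖T g‖ ^ 2 ≤ ‖g‖ ^ 2 - (⟪M g, g⟫_ℂ).re := by
    intro g
    have h1 := (hMq g).2
    have h2 := mul_le_mul_of_nonneg_left (hT g) (by linarith : 0 ≤ 1 - q)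
    nlinarith
  have hbdd : ∀ t ∈ S, (1 - q) * lam ≤ t := by
    rintro t ⟨g, hg, rfl⟩
    have hpos : 0 < ‖T g‖ ^ 2 := by
      have := norm_pos_iff.2 hg
      positivity
    rw [le_div_iff₀ hpos]
    exact hlow g
  have hbb : BddBelow S := ⟨(1 - q) * lam, hbdd⟩
  have hne : S.Nonempty := ⟨_, g₀, hg₀, rfl⟩
  set ν : ℝ := sInf S with hν
  have hν1 : (1 - q) * lam ≤ ν := le_csInf hne hbdd
  have hν2 : ν ≤ lam - κ := by
    have h1 : ν ≤ (‖g₀‖ ^ 2 - (⟪M g₀, g₀⟫_ℂ).re) / ‖T g₀‖ ^ 2 := csInf_le hbb ⟨g₀, hg₀, rfl⟩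
    refine h1.trans ?_
    have hpos : 0 < ‖T g₀‖ ^ 2 := by
      have := norm_pos_iff.2 hg₀
      positivity
    rw [div_le_iff₀ hpos]
    exact htrial
  have hνpos : 0 < ν := lt_of_lt_of_le (mul_pos (by linarith) hl) hν1
  set L : H →L[ℂ] H := ContinuousLinearMap.id ℂ H - M - (ν : ℂ) • (T.comp T) with hL
  have hLa : ∀ g, L g = g - M g - (ν : ℂ) • T (T g) := fun g => rfl
  have hLs : ∀ f g, ⟪L f, g⟫_ℂ = ⟪f, L g⟫_ℂ := by
    intro f g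
    rw [hLa, hLa, inner_sub_left, inner_sub_left, inner_sub_right, inner_sub_right, hMs,
      inner_smul_left, inner_smul_right, Complex.conj_ofReal, hTs, hTs]
  have hLq : ∀ g, (⟪L g, g⟫_ℂ).re = ‖g‖ ^ 2 - (⟪M g, g⟫_ℂ).re - ν * ‖T g‖ ^ 2 := by
    intro g
    have e1 : ∀ x : H, (⟪x, x⟫_ℂ).re = ‖x‖ ^ 2 := by
      intro x
      exact (norm_sq_eq_re_inner (𝕜 := ℂ) x).symm
    rw [hLa, inner_sub_left, inner_sub_left, inner_smul_left, Complex.conj_ofReal, hTs,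
      Complex.sub_re, Complex.sub_re, Complex.re_ofReal_mul, e1, e1]
  have hLpos : ∀ g, 0 ≤ (⟪L g, g⟫_ℂ).re := by
    intro g
    rw [hLq]
    by_cases hg : T g = 0
    · rw [hg, norm_zero]
      have := (hMq g).2
      nlinarith [sq_nonneg ‖g‖]
    · have hpos : 0 < ‖T g‖ ^ 2 := by
        have := norm_pos_iff.2 hg
        positivity
      have h1 : ν ≤ (‖g‖ ^ 2 - (⟪M g, g⟫_ℂ).re) / ‖T g‖ ^ 2 := csInf_le hbb ⟨g, hg, rfl⟩
      rw [le_div_iff₀ hpos] at h1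
      linarith
  -- minimising sequence
  have hseq : ∀ n : ℕ, ∃ g : H, ‖g‖ = 1 ∧ (⟪L g, g⟫_ℂ).re ≤ 1 / ((n : ℝ) + 1) := by
    intro n
    have hn : (0:ℝ) < (n : ℝ) + 1 := by positivity
    obtain ⟨t, ⟨g, hg, rfl⟩, hlt⟩ := exists_lt_of_csInf_lt hne
      (show sInf S < ν + lam / ((n : ℝ) + 1) by
        rw [← hν]
        have : 0 < lam / ((n : ℝ) + 1) := by positivity
        linarith)
    have hpos : 0 < ‖T g‖ ^ 2 := by
      have := norm_pos_iff.2 hg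
      positivity
    rw [div_lt_iff₀ hpos] at hlt
    have hgne : g ≠ 0 := by
      rintro rfl
      exact hg (map_zero T)
    have hgn : 0 < ‖g‖ := norm_pos_iff.2 hgne
    have h1 : (⟪L g, g⟫_ℂ).re ≤ ‖g‖ ^ 2 / ((n : ℝ) + 1) := by
      rw [hLq]
      have h2 : lam / ((n : ℝ) + 1) * ‖T g‖ ^ 2 ≤ ‖g‖ ^ 2 / ((n : ℝ) + 1) := by
        rw [div_mul_eq_mul_div]
        exact div_le_div_of_nonneg_right (hT g) hn.le
      nlinarith
    refine ⟨((‖g‖⁻¹ : ℝ) : ℂ) • g, ?_, ?_⟩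
    · rw [norm_smul, Complex.norm_real, Real.norm_eq_abs, abs_of_pos (by positivity),
        inv_mul_cancel₀ hgn.ne']
    · rw [map_smul, inner_smul_left, inner_smul_right, Complex.conj_ofReal, Complex.re_ofReal_mul,
        Complex.re_ofReal_mul]
      calc ‖g‖⁻¹ * (‖g‖⁻¹ * (⟪L g, g⟫_ℂ).re) ≤ ‖g‖⁻¹ * (‖g‖⁻¹ * (‖g‖ ^ 2 / ((n : ℝ) + 1))) := by
            apply mul_le_mul_of_nonneg_left _ (by positivity)
            exact mul_le_mul_of_nonneg_left h1 (by positivity)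
        _ = 1 / ((n : ℝ) + 1) := by field_simp
  choose g hg1 hgQ using hseq
  have hLg : Tendsto (fun n => L (g n)) atTop (𝓝 0) := by
    rw [tendsto_zero_iff_norm_tendsto_zero]
    have h1 : Tendsto (fun n : ℕ => Real.sqrt ((‖L‖ + 1) * (1 / ((n : ℝ) + 1)))) atTop (𝓝 0) := by
      have h2 : Tendsto (fun n : ℕ => (‖L‖ + 1) * (1 / ((n : ℝ) + 1))) atTop (𝓝 ((‖L‖ + 1) * 0)) :=
        tendsto_one_div_add_atTop_nhds_zero_nat.const_mul _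
      rw [mul_zero] at h2
      have h3 := (Real.continuous_sqrt.tendsto 0).comp h2
      rw [Real.sqrt_zero] at h3
      exact h3
    refine squeeze_zero (fun _ => norm_nonneg _) ?_ h1
    intro n
    apply Real.le_sqrt_of_sq_le
    refine (aux_cs L hLs hLpos (g n)).trans ?_
    exact mul_le_mul_of_nonneg_left (hgQ n) (by positivity)
  obtain ⟨y, φ, hφ, hy⟩ := aux_sub M hM g (fun n => (hg1 n).le)
  have hLg' : Tendsto (fun n => L (g (φ n))) atTop (𝓝 0) := hLg.comp hφ.tendsto_atTop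
  set A : H →L[ℂ] H := L + M with hA
  have hAa : ∀ f, A f = f - (ν : ℂ) • T (T f) := by
    intro f
    have : A f = L f + M f := rfl
    rw [this, hLa]
    abel
  have hAg : Tendsto (fun n => A (g (φ n))) atTop (𝓝 y) := by
    have h1 := hLg'.add hy
    rw [zero_add] at h1
    exact h1
  have hAcoer : ∀ f, κ / lam * ‖f‖ ≤ ‖A f‖ := by
    intro f
    have e1 : ∀ x : H, (⟪x, x⟫_ℂ).re = ‖x‖ ^ 2 := by
      intro x
      exact (norm_sq_eq_re_inner (𝕜 := ℂ) x).symm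
    have h1 : (⟪A f, f⟫_ℂ).re = ‖f‖ ^ 2 - ν * ‖T f‖ ^ 2 := by
      rw [hAa, inner_sub_left, inner_smul_left, Complex.conj_ofReal, hTs, Complex.sub_re,
        Complex.re_ofReal_mul, e1, e1]
    have h2 : κ / lam * ‖f‖ ^ 2 ≤ ‖f‖ ^ 2 - ν * ‖T f‖ ^ 2 := by
      have h3 : ‖T f‖ ^ 2 ≤ ‖f‖ ^ 2 / lam := by
        rw [le_div_iff₀ hl]
        linarith [hT f]
      have h4 : ν * ‖T f‖ ^ 2 ≤ (lam - κ) * (‖f‖ ^ 2 / lam) :=
        mul_le_mul hν2 h3 (sq_nonneg _) (by linarith)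
      have h5 : (lam - κ) * (‖f‖ ^ 2 / lam) = ‖f‖ ^ 2 - κ / lam * ‖f‖ ^ 2 := by
        field_simp
      linarith
    have h6 : (⟪A f, f⟫_ℂ).re ≤ ‖A f‖ * ‖f‖ :=
      (Complex.re_le_norm _).trans (norm_inner_le_norm _ _)
    rcases eq_or_ne f 0 with rfl | hf
    · simp
    · have hf' : 0 < ‖f‖ := norm_pos_iff.2 hf
      have h7 : (κ / lam * ‖f‖) * ‖f‖ ≤ ‖A f‖ * ‖f‖ := by
        calc (κ / lam * ‖f‖) * ‖f‖ = κ / lam * ‖f‖ ^ 2 := by ring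
          _ ≤ _ := by rw [h1] at h6; linarith
      exact le_of_mul_le_mul_right h7 hf'
  have hc : 0 < κ / lam := by positivity
  have hcau : CauchySeq (fun n => g (φ n)) := by
    have h1 : CauchySeq (fun n => A (g (φ n))) := hAg.cauchySeq
    rw [Metric.cauchySeq_iff'] at h1 ⊢
    intro ε hε
    obtain ⟨m, hm⟩ := h1 (κ / lam * ε) (by positivity)
    refine ⟨m, fun n hn => ?_⟩
    have h2 := hm n hn
    rw [dist_eq_norm] at h2 ⊢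
    rw [← map_sub] at h2
    have h3 := hAcoer (g (φ n) - g (φ m))
    exact lt_of_mul_lt_mul_left (lt_of_le_of_lt h3 h2) hc.le
  obtain ⟨gl, hgl⟩ := cauchySeq_tendsto_of_complete hcau
  have hgl1 : ‖gl‖ = 1 := by
    have h1 : Tendsto (fun n => ‖g (φ n)‖) atTop (𝓝 ‖gl‖) := hgl.norm
    simp only [hg1] at h1
    exact (tendsto_nhds_unique h1 tendsto_const_nhds)
  have hLgl : L gl = 0 := by
    have h1 : Tendsto (fun n => L (g (φ n))) atTop (𝓝 (L gl)) :=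
      (L.continuous.tendsto gl).comp hgl
    exact tendsto_nhds_unique h1 hLg'
  refine ⟨ν, gl, ?_, hν1, hν2, ?_⟩
  · intro hTg
    have h1 := hLq gl
    rw [hLgl, inner_zero_left, hTg, norm_zero, hgl1] at h1
    have h2 := (hMq gl).2
    rw [hgl1] at h2
    simp at h1
    linarith
  · rw [hLa] at hLgl
    exact sub_eq_zero.1 hLgl

end

end LTS
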