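import Pool.Agent.H631.LT.Defs

open MeasureTheory Filter Topology ENNReal
open scoped Laplacian FourierTransform InnerProductSpace

namespace LTS

noncomputable section

/-! TARGET: prove the following -/

section apr
variable {H : Type} [NormedAddCommGroup H] [InnerProductSpace ℂ H]

theorem Appr.zero : Appr (0 : H →L[ℂ] H) := by
  intro δ hδ
  refine ⟨⊥, inferInstance, fun f => ⟨0, Submodule.zero_mem _, ?_⟩⟩
  rw [ContinuousLinearMap.zero_apply, sub_zero, norm_zero]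
  positivity

theorem Appr.add {S S' : H →L[ℂ] H} (h : Appr S) (h' : Appr S') : Appr (S + S') := by
  intro δ hδ
  obtain ⟨W, hW, h1⟩ := h (δ / 2) (by linarith)
  obtain ⟨W', hW', h1'⟩ := h' (δ / 2) (by linarith)
  haveI := hW
  haveI := hW'
  refine ⟨W ⊔ W', inferInstance, fun f => ?_⟩
  obtain ⟨w, hw, h2⟩ := h1 f
  obtain ⟨w', hw', h2'⟩ := h1' f
  refine ⟨w + w', Submodule.add_mem_sup hw hw', ?_⟩
  have e : (S + S') f - (w + w') = (S f - w) + (S' f - w') := by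
    rw [ContinuousLinearMap.add_apply]; abel
  rw [e]
  calc _ ≤ ‖S f - w‖ + ‖S' f - w'‖ := norm_add_le _ _
    _ ≤ δ / 2 * ‖f‖ + δ / 2 * ‖f‖ := add_le_add h2 h2'
    _ = δ * ‖f‖ := by ring

theorem Appr.comp_left {S : H →L[ℂ] H} (h : Appr S) (T : H →L[ℂ] H) : Appr (T ∘L S) := by
  intro δ hδ
  obtain ⟨W, hW, h1⟩ := h (δ / (‖T‖ + 1)) (by positivity)
  haveI := hW
  refine ⟨W.map (T : H →ₗ[ℂ] H), inferInstance, fun f => ?_⟩
  obtain ⟨w, hw, h2⟩ := h1 f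
  refine ⟨T w, Submodule.mem_map_of_mem hw, ?_⟩
  have hT : (0:ℝ) < ‖T‖ + 1 := by positivity
  rw [ContinuousLinearMap.comp_apply, ← map_sub]
  calc _ ≤ ‖T‖ * ‖S f - w‖ := T.le_opNorm _
    _ ≤ ‖T‖ * (δ / (‖T‖ + 1) * ‖f‖) := mul_le_mul_of_nonneg_left h2 (norm_nonneg _)
    _ ≤ (‖T‖ + 1) * (δ / (‖T‖ + 1) * ‖f‖) :=
        mul_le_mul_of_nonneg_right (by linarith) (by positivity)
    _ = δ * ‖f‖ := by field_simp

theorem Appr.smul {S : H →L[ℂ] H} (h : Appr S) (c : ℂ) : Appr (c • S) := by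
  have h1 := h.comp_left (c • ContinuousLinearMap.id ℂ H)
  have e : (c • ContinuousLinearMap.id ℂ H) ∘L S = c • S := by
    ext f
    rfl
  rwa [e] at h1

theorem Appr.sum {S : ℕ → H →L[ℂ] H} (h : ∀ k, Appr (S k)) (N : ℕ) :
    Appr (∑ k ∈ Finset.range N, S k) := by
  induction N with
  | zero => rw [Finset.sum_range_zero]; exact Appr.zero
  | succ N ih => rw [Finset.sum_range_succ]; exact ih.add (h N)

theorem Appr.lim {S : H →L[ℂ] H} (h : ∀ δ : ℝ, 0 < δ → ∃ S', Appr S' ∧ ‖S' - S‖ ≤ δ) :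
    Appr S := by
  intro δ hδ
  obtain ⟨S', hS', h1⟩ := h (δ / 2) (by linarith)
  obtain ⟨W, hW, h2⟩ := hS' (δ / 2) (by linarith)
  refine ⟨W, hW, fun f => ?_⟩
  obtain ⟨w, hw, h3⟩ := h2 f
  refine ⟨w, hw, ?_⟩
  have e : S f - w = -((S' - S) f) + (S' f - w) := by
    rw [ContinuousLinearMap.sub_apply]; abel
  rw [e]
  calc _ ≤ ‖-((S' - S) f)‖ + ‖S' f - w‖ := norm_add_le _ _
    _ ≤ δ / 2 * ‖f‖ + δ / 2 * ‖f‖ := by
        refine add_le_add ?_ h3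
        rw [norm_neg]
        exact ((S' - S).le_opNorm f).trans (mul_le_mul_of_nonneg_right h1 (norm_nonneg _))
    _ = δ * ‖f‖ := by ring

end apr

theorem M_exists {H : Type} [NormedAddCommGroup H] [InnerProductSpace ℂ H] [CompleteSpace H]
    (T : H →L[ℂ] H) (P : ℕ → H →L[ℂ] H) (A b : ℕ → ℝ) (hA : ∀ k, 0 ≤ A k) (hb0 : ∀ k, 0 ≤ b k)
    (hTs : ∀ f g, ⟪T f, g⟫_ℂ = ⟪f, T g⟫_ℂ)
    (hPs : ∀ k f g, ⟪P k f, g⟫_ℂ = ⟪f, P k g⟫_ℂ) (hPP : ∀ k f, P k (P k f) = P k f)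
    (hb : ∀ k f, ‖P k (T f)‖ ^ 2 ≤ b k * ‖f‖ ^ 2) (hs : Summable fun k => A k * b k)
    (happ : ∀ k, Appr (P k ∘L T)) :
    ∃ M : H →L[ℂ] H, Appr M ∧ (∀ f g, ⟪M f, g⟫_ℂ = ⟪f, M g⟫_ℂ) ∧
      (∀ f g, HasSum (fun k => (A k : ℂ) * ⟪P k (T f), P k (T g)⟫_ℂ) ⟪M f, g⟫_ℂ) ∧
      (∀ f, HasSum (fun k => A k * ‖P k (T f)‖ ^ 2) (⟪M f, f⟫_ℂ).re) ∧
      ∀ f, 0 ≤ (⟪M f, f⟫_ℂ).re ∧ (⟪M f, f⟫_ℂ).re ≤ (∑' k, A k * b k) * ‖f‖ ^ 2 := by
  have hS : ∀ k f g, ⟪(T ∘L (P k ∘L T)) f, g⟫_ℂ = ⟪P k (T f), P k (T g)⟫_ℂ := by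
    intro k f g
    rw [ContinuousLinearMap.comp_apply, ContinuousLinearMap.comp_apply, hTs, ← hPs, hPP]
  have hprod : ∀ k f g, ‖P k (T f)‖ * ‖P k (T g)‖ ≤ b k * ‖f‖ * ‖g‖ := by
    intro k f g
    have h1 : (‖P k (T f)‖ * ‖P k (T g)‖) ^ 2 ≤ (b k * ‖f‖ * ‖g‖) ^ 2 := by
      rw [mul_pow]
      calc _ ≤ (b k * ‖f‖ ^ 2) * (b k * ‖g‖ ^ 2) :=
            mul_le_mul (hb k f) (hb k g) (sq_nonneg _) (mul_nonneg (hb0 k) (sq_nonneg _))
        _ = _ := by ring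
    exact (pow_le_pow_iff_left₀ (by positivity)
      (mul_nonneg (mul_nonneg (hb0 k) (norm_nonneg _)) (norm_nonneg _)) two_ne_zero).1 h1
  have hSn : ∀ k, ‖T ∘L (P k ∘L T)‖ ≤ b k := by
    intro k
    refine ContinuousLinearMap.opNorm_le_bound _ (hb0 k) (fun f => ?_)
    set y := (T ∘L (P k ∘L T)) f with hy
    have h1 : ‖y‖ ^ 2 ≤ b k * ‖f‖ * ‖y‖ := by
      have h2 : ‖⟪y, y⟫_ℂ‖ = ‖y‖ ^ 2 := by
        rw [inner_self_eq_norm_sq_to_K, norm_pow]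
        simp
      rw [← h2]
      have h3 : ⟪y, y⟫_ℂ = ⟪P k (T f), P k (T y)⟫_ℂ := hS k f y
      rw [h3]
      exact (norm_inner_le_norm _ _).trans (hprod k f y)
    rcases eq_or_lt_of_le (norm_nonneg y) with h0 | h0
    · rw [← h0]
      exact mul_nonneg (hb0 k) (norm_nonneg _)
    · rw [pow_two] at h1
      exact le_of_mul_le_mul_right h1 h0
  have hsum : Summable (fun k => (A k : ℂ) • (T ∘L (P k ∘L T))) := by
    refine Summable.of_norm_bounded hs (fun k => ?_)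
    rw [norm_smul, Complex.norm_real, Real.norm_of_nonneg (hA k)]
    exact mul_le_mul_of_nonneg_left (hSn k) (hA k)
  obtain ⟨M, hM⟩ := hsum
  have happM : Appr M := by
    apply Appr.lim
    intro δ hδ
    have h1 := hM.tendsto_sum_nat
    rw [Metric.tendsto_atTop] at h1
    obtain ⟨N, hN⟩ := h1 δ hδ
    refine ⟨∑ k ∈ Finset.range N, (A k : ℂ) • (T ∘L (P k ∘L T)),
      Appr.sum (fun k => ((happ k).comp_left T).smul _) N, ?_⟩
    have h2 := hN N le_rfl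
    rw [dist_eq_norm] at h2
    exact h2.le
  have hMf : ∀ f, HasSum (fun k => ((A k : ℂ) • (T ∘L (P k ∘L T))) f) (M f) := by
    intro f
    exact hM.mapL (ContinuousLinearMap.apply ℂ H f)
  have h1 : ∀ f g, HasSum (fun k => (A k : ℂ) * ⟪P k (T g), P k (T f)⟫_ℂ) ⟪g, M f⟫_ℂ := by
    intro f g
    have h2 := (hMf f).mapL (innerSL ℂ g)
    have h3 : ∀ k, (innerSL ℂ g) (((A k : ℂ) • (T ∘L (P k ∘L T))) f) =
        (A k : ℂ) * ⟪P k (T g), P k (T f)⟫_ℂ := by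
      intro k
      rw [innerSL_apply_apply, ContinuousLinearMap.smul_apply, inner_smul_right,
        ← inner_conj_symm, hS k f g, inner_conj_symm]
    simp only [h3] at h2
    exact h2
  have h2 : ∀ f g, HasSum (fun k => (A k : ℂ) * ⟪P k (T f), P k (T g)⟫_ℂ) ⟪M f, g⟫_ℂ := by
    intro f g
    have h3 := (h1 f g).star
    have h4 : ∀ k, star ((A k : ℂ) * ⟪P k (T g), P k (T f)⟫_ℂ) =
        (A k : ℂ) * ⟪P k (T f), P k (T g)⟫_ℂ := by
      intro k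
      rw [star_mul', ← inner_conj_symm (P k (T f)) (P k (T g))]
      congr 1
      exact Complex.conj_ofReal _
    have h5 : star ⟪g, M f⟫_ℂ = ⟪M f, g⟫_ℂ := inner_conj_symm (M f) g
    simp only [h4, h5] at h3
    exact h3
  have h3 : ∀ f, HasSum (fun k => A k * ‖P k (T f)‖ ^ 2) (⟪M f, f⟫_ℂ).re := by
    intro f
    have h4 := (h2 f f).mapL Complex.reCLM
    have h5 : ∀ k, Complex.reCLM ((A k : ℂ) * ⟪P k (T f), P k (T f)⟫_ℂ) =
        A k * ‖P k (T f)‖ ^ 2 := by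
      intro k
      rw [inner_self_eq_norm_sq_to_K]
      show ((A k : ℂ) * ((‖P k (T f)‖ : ℝ) : ℂ) ^ 2).re = _
      rw [← Complex.ofReal_pow, ← Complex.ofReal_mul, Complex.ofReal_re]
    simp only [h5] at h4
    exact h4
  refine ⟨M, happM, ?_, h2, h3, ?_⟩
  · intro f g
    exact (h2 f g).unique (h1 g f)
  · intro f
    constructor
    · exact (h3 f).nonneg (fun k => mul_nonneg (hA k) (sq_nonneg _))
    · refine hasSum_le (fun k => ?_) (h3 f) (hs.hasSum.mul_right (‖f‖ ^ 2))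
      rw [mul_assoc]
      exact mul_le_mul_of_nonneg_left (hb k f) (hA k)

end

end LTS
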