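import Pool.Agent.H631.LT.Defs

open MeasureTheory Filter Topology ENNReal
open scoped Laplacian FourierTransform InnerProductSpace

namespace LTS

noncomputable section

/-! TARGET: prove the following -/

theorem WW_hk_pos (k : ℕ) : 0 < hk k := by
  unfold hk; positivity

theorem WW_hk_succ_lt (k : ℕ) : hk (k+1) < hk k := by
  unfold hk
  rw [pow_succ]
  have : (0:ℝ) < (2:ℝ)⁻¹ ^ k := by positivity
  nlinarith

theorem WW_expo_pos (d : ℕ) (γ : ℝ) (hγ : 0 < γ) : 0 < 1 + (d : ℝ) / (2 * γ) := by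
  have : 0 ≤ (d : ℝ) / (2 * γ) := by positivity
  linarith

theorem WW_rk_pos (d : ℕ) (γ : ℝ) (k : ℕ) : 0 < rk d γ k := Real.rpow_pos_of_pos (WW_hk_pos k) _

theorem WW_rk_succ_lt (d : ℕ) (γ : ℝ) (hγ : 0 < γ) (k : ℕ) : rk d γ (k+1) < rk d γ k :=
  Real.rpow_lt_rpow (WW_hk_pos _).le (WW_hk_succ_lt k) (WW_expo_pos d γ hγ)

theorem WW_rk_anti (d : ℕ) (γ : ℝ) (hγ : 0 < γ) : StrictAnti (rk d γ) :=
  strictAnti_nat_of_succ_lt (WW_rk_succ_lt d γ hγ)

theorem WW_rk_zero (d : ℕ) (γ : ℝ) : rk d γ 0 = 1 := by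
  unfold rk hk; simp

theorem WW_rk_tendsto (d : ℕ) (γ : ℝ) (hγ : 0 < γ) : Tendsto (rk d γ) atTop (𝓝 0) := by
  have h1 : Tendsto hk atTop (𝓝 0) := by
    unfold hk
    exact tendsto_pow_atTop_nhds_zero_of_lt_one (by norm_num) (by norm_num)
  have h2 := h1.rpow_const (p := 1 + (d : ℝ) / (2 * γ)) (Or.inr (WW_expo_pos d γ hγ).le)
  rw [Real.zero_rpow (WW_expo_pos d γ hγ).ne'] at h2
  exact h2

theorem WW_Sh_unique (d : ℕ) (γ : ℝ) (hγ : 0 < γ) (x : EE d) (j k : ℕ) (hj : x ∈ Sh d γ j)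
    (hk' : x ∈ Sh d γ k) : j = k := by
  obtain ⟨a1, a2⟩ := hj
  obtain ⟨b1, b2⟩ := hk'
  have hanti := (WW_rk_anti d γ hγ).antitone
  rcases lt_trichotomy j k with h | h | h
  · have := hanti (show j + 1 ≤ k from h)
    linarith
  · exact h
  · have := hanti (show k + 1 ≤ j from h)
    linarith

theorem WW_Sh_meas (d : ℕ) (γ : ℝ) (k : ℕ) : MeasurableSet (Sh d γ k) := by
  have h1 : MeasurableSet {x : EE d | rk d γ (k + 1) ≤ ‖x‖} :=
    measurableSet_le measurable_const measurable_norm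
  have h2 : MeasurableSet {x : EE d | ‖x‖ < rk d γ k} :=
    measurableSet_lt measurable_norm measurable_const
  exact h1.inter h2

theorem WW_Ak_nonneg (d : ℕ) (γ : ℝ) (k : ℕ) : 0 ≤ Ak d γ k := by
  unfold Ak ak
  have := Real.rpow_nonneg (WW_hk_pos k).le (-((d : ℝ) / γ))
  positivity

theorem WW_eq_of_mem (d : ℕ) (γ : ℝ) (hγ : 0 < γ) (k : ℕ) (x : EE d) (hx : x ∈ Sh d γ k) :
    WW d γ x = Ak d γ k := by
  unfold WW
  rw [tsum_eq_single k]
  · exact Set.indicator_of_mem hx _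
  · intro j hj
    exact Set.indicator_of_notMem (fun h => hj (WW_Sh_unique d γ hγ x j k h hx)) _

theorem WW_eq_zero (d : ℕ) (γ : ℝ) (x : EE d) (hx : ∀ k, x ∉ Sh d γ k) :
    WW d γ x = 0 := by
  unfold WW
  have : (fun k => (Sh d γ k).indicator (fun _ => Ak d γ k) x) = fun _ => 0 := by
    funext k
    exact Set.indicator_of_notMem (hx k) _
  rw [this, tsum_zero]

theorem WW_measurable (d : ℕ) (γ : ℝ) (hγ : 0 < γ) : Measurable (WW d γ) := by
  apply measurable_of_tendsto_metrizable (f := fun n x => ∑ k ∈ Finset.range n,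
    (Sh d γ k).indicator (fun _ => Ak d γ k) x)
  · intro n
    apply Finset.measurable_sum
    intro k _
    exact measurable_const.indicator (WW_Sh_meas d γ k)
  · rw [tendsto_pi_nhds]
    intro x
    by_cases hx : ∃ k, x ∈ Sh d γ k
    · obtain ⟨k, hk'⟩ := hx
      rw [WW_eq_of_mem d γ hγ k x hk']
      apply tendsto_const_nhds.congr'
      filter_upwards [eventually_gt_atTop k] with n hn
      have hs : ∑ i ∈ Finset.range n, (Sh d γ i).indicator (fun _ => Ak d γ i) x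
          = (Sh d γ k).indicator (fun _ => Ak d γ k) x := by
        apply Finset.sum_eq_single k
        · intro j _ hj
          exact Set.indicator_of_notMem (fun h => hj (WW_Sh_unique d γ hγ x j k h hk')) _
        · intro h
          exact absurd (Finset.mem_range.mpr hn) h
      rw [hs, Set.indicator_of_mem hk']
    · push Not at hx
      rw [WW_eq_zero d γ x hx]
      have h0 : ∀ n : ℕ, (0 : ℝ) = ∑ k ∈ Finset.range n,
          (Sh d γ k).indicator (fun _ => Ak d γ k) x := by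
        intro n
        symm
        apply Finset.sum_eq_zero
        intro k _
        exact Set.indicator_of_notMem (hx k) _
      exact Filter.Tendsto.congr h0 tendsto_const_nhds

theorem WW_prop (d : ℕ) (hd : 1 ≤ d) (γ : ℝ) (hγ : 0 < γ) :
    Measurable (WW d γ) ∧ (∀ x, 0 ≤ WW d γ x) ∧ (∀ x, 1 ≤ ‖x‖ → WW d γ x = 0) ∧
      (∀ k x, x ∈ Sh d γ k → WW d γ x = Ak d γ k) ∧
      (∀ k, MeasurableSet (Sh d γ k)) ∧
      (∀ x : EE d, x ≠ 0 → ‖x‖ < 1 → ∃! k, x ∈ Sh d γ k) ∧ (∀ k, (0 : EE d) ∉ Sh d γ k) := by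
  refine ⟨WW_measurable d γ hγ, ?_, ?_, fun k x hx => WW_eq_of_mem d γ hγ k x hx,
    WW_Sh_meas d γ, ?_, ?_⟩
  · intro x
    by_cases hx : ∃ k, x ∈ Sh d γ k
    · obtain ⟨k, hk'⟩ := hx
      rw [WW_eq_of_mem d γ hγ k x hk']
      exact WW_Ak_nonneg d γ k
    · push Not at hx
      rw [WW_eq_zero d γ x hx]
  · intro x hx
    apply WW_eq_zero
    rintro k ⟨_, h2⟩
    have h3 := (WW_rk_anti d γ hγ).antitone (Nat.zero_le k)
    rw [WW_rk_zero] at h3
    linarith
  · intro x hx0 hx1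
    have hpos : 0 < ‖x‖ := norm_pos_iff.mpr hx0
    have hex : ∃ k, rk d γ k ≤ ‖x‖ := by
      have := (WW_rk_tendsto d γ hγ).eventually (gt_mem_nhds hpos)
      obtain ⟨k, hk'⟩ := this.exists
      exact ⟨k, hk'.le⟩
    classical
    set m := Nat.find hex with hm
    have hm1 : rk d γ m ≤ ‖x‖ := Nat.find_spec hex
    have hm0 : m ≠ 0 := by
      intro h0
      rw [h0, WW_rk_zero] at hm1
      linarith
    obtain ⟨j, hj⟩ := Nat.exists_eq_succ_of_ne_zero hm0
    have hj2 : ‖x‖ < rk d γ j := by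
      have := Nat.find_min hex (m := j) (by rw [← hm, hj]; exact Nat.lt_succ_self j)
      exact not_le.mp this
    have hmem : x ∈ Sh d γ j := ⟨by rw [hj] at hm1; exact hm1, hj2⟩
    exact ⟨j, hmem, fun k hk' => WW_Sh_unique d γ hγ x k j hk' hmem⟩
  · rintro k ⟨h1, _⟩
    rw [norm_zero] at h1
    have := WW_rk_pos d γ (k+1)
    linarith


end

end LTS
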