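import Pool.Agent.H631.LT.Defs
import Pool.Agent.H631.LT.J15

open MeasureTheory Filter Topology ENNReal
open scoped Laplacian FourierTransform InnerProductSpace

namespace LTS

noncomputable section

/-! TARGET: prove the following -/

theorem WW_mem_vol (d : ℕ) (γ : ℝ) (k : ℕ) :
    volume (Sh d γ k) ≤ ENNReal.ofReal ((rk d γ k) ^ d) * volume (Metric.ball (0 : EE d) 1) := by
  have hr : 0 < rk d γ k := by
    unfold rk hk
    positivity
  have hsub : Sh d γ k ⊆ Metric.ball (0 : EE d) (rk d γ k) := by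
    intro x hx
    rw [mem_ball_zero_iff]
    exact hx.2
  refine (measure_mono hsub).trans ?_
  have h := Measure.addHaar_ball_mul_of_pos (volume : Measure (EE d)) (0 : EE d) hr 1
  rw [mul_one, finrank_euclideanSpace_fin] at h
  rw [h]

theorem WW_mem_volreal (d : ℕ) (γ : ℝ) (k : ℕ) :
    (volume (Sh d γ k)).toReal ≤ (rk d γ k) ^ d * (volume (Metric.ball (0 : EE d) 1)).toReal := by
  have hr : 0 < rk d γ k := by
    unfold rk hk
    positivity
  have h := WW_mem_vol d γ k
  have hfin : volume (Metric.ball (0 : EE d) 1) ≠ ⊤ := measure_ball_lt_top.ne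
  have h2 := ENNReal.toReal_mono (ENNReal.mul_ne_top ENNReal.ofReal_ne_top hfin) h
  rw [ENNReal.toReal_mul, ENNReal.toReal_ofReal (by positivity)] at h2
  exact h2

theorem WW_mem (d : ℕ) (hd : 1 ≤ d) (γ : ℝ) (hγ : 0 < γ) :
    MemLp (fun x => -((WW d γ x : ℝ) : ℂ)) (ENNReal.ofReal (γ + (d : ℝ) / 2)) volume ∧
      Integrable (fun x => (WW d γ x) ^ (γ + (d : ℝ) / 2)) volume ∧
      0 < ∫ x, (WW d γ x) ^ (γ + (d : ℝ) / 2) := by
  obtain ⟨h1, h2, h3, h4, h5, h6, h7⟩ := WW_prop d hd γ hγ
  obtain ⟨p, hp⟩ : ∃ p : ℝ, p = γ + (d : ℝ) / 2 := ⟨_, rfl⟩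
  rw [← hp]
  have hd' : (1:ℝ) ≤ d := by exact_mod_cast hd
  have hp0 : 0 < p := by rw [hp]; positivity
  have hhk : ∀ k, 0 < hk k := fun k => by unfold hk; positivity
  have hak : ∀ k, 0 < ak k := fun k => by unfold ak; positivity
  have hAk : ∀ k, 0 < Ak d γ k := fun k => mul_pos (hak k) (Real.rpow_pos_of_pos (hhk k) _)
  have hrk : ∀ k, 0 < rk d γ k := fun k => Real.rpow_pos_of_pos (hhk k) _
  have hkey : ∀ k, Ak d γ k ^ p * (rk d γ k) ^ d = ak k ^ p := by
    intro k
    unfold Ak rk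
    rw [Real.mul_rpow (hak k).le (Real.rpow_nonneg (hhk k).le _), ← Real.rpow_mul (hhk k).le,
      ← Real.rpow_natCast, ← Real.rpow_mul (hhk k).le, mul_assoc, ← Real.rpow_add (hhk k)]
    have : -((d:ℝ) / γ) * p + (1 + (d:ℝ) / (2 * γ)) * (d:ℝ) = 0 := by
      rw [hp]
      field_simp
      ring
    rw [this, Real.rpow_zero, mul_one]
  have hvfin : ∀ k, volume (Sh d γ k) < ⊤ := fun k =>
    lt_of_le_of_lt (WW_mem_vol d γ k) (ENNReal.mul_lt_top ENNReal.ofReal_lt_top
      measure_ball_lt_top)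
  have hfk : ∀ k, ∀ x ∈ Sh d γ k, WW d γ x ^ p = Ak d γ k ^ p := by
    intro k x hx
    rw [h4 k x hx]
  have hIk : ∀ k, IntegrableOn (fun x => WW d γ x ^ p) (Sh d γ k) volume := by
    intro k
    have hc : IntegrableOn (fun _ : EE d => Ak d γ k ^ p) (Sh d γ k) volume :=
      integrableOn_const (hvfin k).ne
    exact hc.congr_fun (fun x hx => (hfk k x hx).symm) (h5 k)
  have hnorm : ∀ k, ∫ x in Sh d γ k, ‖WW d γ x ^ p‖ =
      (volume (Sh d γ k)).toReal * Ak d γ k ^ p := by
    intro k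
    have : ∫ x in Sh d γ k, ‖WW d γ x ^ p‖ = ∫ x in Sh d γ k, Ak d γ k ^ p := by
      refine setIntegral_congr_fun (h5 k) fun x hx => ?_
      show ‖WW d γ x ^ p‖ = Ak d γ k ^ p
      rw [hfk k x hx, Real.norm_of_nonneg (Real.rpow_nonneg (hAk k).le _)]
    rw [this, setIntegral_const, smul_eq_mul]
    rfl
  have hsak : Summable (fun k => ak k ^ p) := by
    have hs : Summable (fun n : ℕ => 1 / (n : ℝ) ^ (2 * p)) := by
      rw [Real.summable_one_div_nat_rpow]
      rw [hp]
      linarith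
    have hs2 := (summable_nat_add_iff 1).2 hs
    refine hs2.congr fun k => ?_
    unfold ak
    rw [Real.div_rpow zero_le_one (by positivity), Real.one_rpow, ← Real.rpow_natCast,
      ← Real.rpow_mul (by positivity)]
    push_cast
    rfl
  have hsum : Summable (fun k => ∫ x in Sh d γ k, ‖WW d γ x ^ p‖) := by
    refine Summable.of_nonneg_of_le (fun k => integral_nonneg fun x => norm_nonneg _) (fun k => ?_)
      (hsak.mul_right (volume (Metric.ball (0 : EE d) 1)).toReal)
    rw [hnorm, ← hkey]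
    calc (volume (Sh d γ k)).toReal * Ak d γ k ^ p
        ≤ ((rk d γ k) ^ d * (volume (Metric.ball (0 : EE d) 1)).toReal) * Ak d γ k ^ p := by
          gcongr
          · exact Real.rpow_nonneg (hAk k).le _
          · exact WW_mem_volreal d γ k
      _ = Ak d γ k ^ p * rk d γ k ^ d * (volume (Metric.ball (0 : EE d) 1)).toReal := by ring
  have hun := integrableOn_iUnion_of_summable_integral_norm hIk hsum
  have hsupp : Function.support (fun x => WW d γ x ^ p) ⊆ ⋃ k, Sh d γ k := by
    intro x hx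
    rw [Function.mem_support] at hx
    have hWx : WW d γ x ≠ 0 := by
      intro h
      apply hx
      rw [h, Real.zero_rpow hp0.ne']
    by_cases hx1 : 1 ≤ ‖x‖
    · exact absurd (h3 x hx1) hWx
    · by_cases hx0 : x = 0
      · exfalso
        apply hWx
        rw [hx0]
        unfold WW
        have : ∀ k, (Sh d γ k).indicator (fun _ => Ak d γ k) (0 : EE d) = 0 := fun k =>
          Set.indicator_of_notMem (h7 k) _
        simp only [this, tsum_zero]
      · obtain ⟨k, hk', -⟩ := h6 x hx0 (not_le.1 hx1)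
        exact Set.mem_iUnion.2 ⟨k, hk'⟩
  have hint : Integrable (fun x => WW d γ x ^ p) volume :=
    (integrableOn_iff_integrable_of_support_subset hsupp).1 hun
  refine ⟨?_, hint, ?_⟩
  · have hpE : ENNReal.ofReal p ≠ 0 := by
      rw [Ne, ENNReal.ofReal_eq_zero, not_le]
      exact hp0
    have hm : Measurable fun x => -((WW d γ x : ℝ) : ℂ) :=
      (Complex.measurable_ofReal.comp h1).neg
    rw [← integrable_norm_rpow_iff hm.aestronglyMeasurable hpE ENNReal.ofReal_ne_top,
      ENNReal.toReal_ofReal hp0.le]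
    refine hint.congr (Filter.Eventually.of_forall fun x => ?_)
    show WW d γ x ^ p = ‖-((WW d γ x : ℝ) : ℂ)‖ ^ p
    rw [norm_neg, Complex.norm_real, Real.norm_of_nonneg (h2 x)]
  · rw [integral_pos_iff_support_of_nonneg (fun x => Real.rpow_nonneg (h2 x) _) hint]
    have hopen : IsOpen {x : EE d | rk d γ 1 < ‖x‖ ∧ ‖x‖ < 1} :=
      (isOpen_lt continuous_const continuous_norm).inter
        (isOpen_lt continuous_norm continuous_const)
    have hr0 : rk d γ 0 = 1 := by
      unfold rk hk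
      rw [pow_zero, Real.one_rpow]
    have hr1 : rk d γ 1 < 1 := by
      unfold rk hk
      apply Real.rpow_lt_one (by norm_num) (by norm_num)
      positivity
    have hne : {x : EE d | rk d γ 1 < ‖x‖ ∧ ‖x‖ < 1}.Nonempty := by
      have : Nonempty (Fin d) := ⟨⟨0, hd⟩⟩
      obtain ⟨x, hx⟩ := exists_norm_eq (EE d) (show (0:ℝ) ≤ (rk d γ 1 + 1) / 2 by
        have := hrk 1
        positivity)
      refine ⟨x, ?_, ?_⟩
      · rw [hx]; linarith
      · rw [hx]; linarith
    refine lt_of_lt_of_le (hopen.measure_pos volume hne) (measure_mono ?_)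
    rintro x ⟨hx1, hx2⟩
    rw [Function.mem_support]
    have hxS : x ∈ Sh d γ 0 := by
      refine ⟨?_, ?_⟩
      · exact hx1.le
      · rw [hr0]; exact hx2
    rw [hfk 0 x hxS]
    exact (Real.rpow_pos_of_pos (hAk 0) _).ne'

end

end LTS
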