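import Pool.Agent.H631.LT.Defs

open MeasureTheory Filter Topology ENNReal
open scoped Laplacian FourierTransform InnerProductSpace

namespace LTS

noncomputable section

/-! TARGET: prove the following -/

theorem trial_fn_lap {d : ℕ} (f : EE d → ℂ) (hf : ContDiff ℝ 2 f) (s : ℝ) :
    (Δ (fun x => f (s • x)) : EE d → ℂ) = fun x => ((s : ℂ) ^ 2) • (Δ f) (s • x) := by
  rw [InnerProductSpace.laplacian_eq_iteratedFDeriv_stdOrthonormalBasis,
    InnerProductSpace.laplacian_eq_iteratedFDeriv_stdOrthonormalBasis]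
  funext x
  rw [Finset.smul_sum]
  apply Finset.sum_congr rfl
  intro i _
  have h1 := ContinuousLinearMap.iteratedFDeriv_comp_right (s • ContinuousLinearMap.id ℝ (EE d))
    hf x (i := 2) le_rfl
  have h2 : (f ∘ (s • ContinuousLinearMap.id ℝ (EE d))) = fun x => f (s • x) := by
    funext y
    simp
  rw [h2] at h1
  rw [h1, ContinuousMultilinearMap.compContinuousLinearMap_apply]
  have h3 : (fun j : Fin 2 => (s • ContinuousLinearMap.id ℝ (EE d))
      (![(stdOrthonormalBasis ℝ (EE d)) i, (stdOrthonormalBasis ℝ (EE d)) i] j)) =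
      fun j : Fin 2 => (fun _ => s) j •
        (![(stdOrthonormalBasis ℝ (EE d)) i, (stdOrthonormalBasis ℝ (EE d)) i] j) := by
    funext j
    simp
  rw [h3, ContinuousMultilinearMap.map_smul_univ]
  simp only [Finset.prod_const, Finset.card_univ, Fintype.card_fin,
    _root_.smul_apply, ContinuousLinearMap.id_apply, Complex.real_smul, smul_eq_mul]
  push_cast
  rfl

theorem trial_fn_norm {d : ℕ} (g : EE d → ℂ) (hg : Continuous g) (s : ℝ) (hs : 0 < s) :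
    eLpNorm (fun x => g (s • x)) 2 (volume : Measure (EE d)) =
      (ENNReal.ofReal (abs (s ^ Module.finrank ℝ (EE d))⁻¹)) ^ (1 / (2 : ℝ≥0∞)).toReal •
        eLpNorm g 2 (volume : Measure (EE d)) := by
  have h1 := Measure.map_addHaar_smul (volume : Measure (EE d)) hs.ne'
  have h2 := eLpNorm_map_measure (p := 2) (f := fun x : EE d => s • x)
    (μ := (volume : Measure (EE d))) (g := g) hg.aestronglyMeasurable
    (by fun_prop)
  have h3 : (fun x => g (s • x)) = g ∘ (fun x : EE d => s • x) := rfl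
  rw [h3, ← h2, h1, eLpNorm_smul_measure_of_ne_top (by norm_num)]

theorem trial_fn_lapc {d : ℕ} (f : EE d → ℂ) (hf : ContDiff ℝ 2 f) (hc : HasCompactSupport f) :
    Continuous (Δ f : EE d → ℂ) ∧ HasCompactSupport (Δ f : EE d → ℂ) := by
  rw [InnerProductSpace.laplacian_eq_iteratedFDeriv_stdOrthonormalBasis]
  refine ⟨?_, ?_⟩
  · apply continuous_finsetSum
    intro i _
    have h1 : Continuous (iteratedFDeriv ℝ 2 f) := hf.continuous_iteratedFDeriv le_rfl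
    exact h1.eval_const _
  · apply HasCompactSupport.intro hc
    intro x hx
    apply Finset.sum_eq_zero
    intro i _
    have h1 : iteratedFDeriv ℝ 2 f x = 0 := by
      by_contra h
      exact hx (support_iteratedFDeriv_subset 2 h)
    rw [h1]
    rfl

theorem trial_fn (d : ℕ) (hd : 1 ≤ d) : ∃ C : ℝ, 0 < C ∧ ∀ r : ℝ, 0 < r →
    ∃ (φ : EE d → ℂ) (p z : HH d), IsTest φ ∧ (∀ x, φ x ≠ 0 → r / 2 ≤ ‖x‖ ∧ ‖x‖ < r) ∧
      (p : EE d → ℂ) =ᵐ[volume] φ ∧ (z : EE d → ℂ) =ᵐ[volume] (Δ φ) ∧ p ≠ 0 ∧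
      ‖z‖ ≤ C * r⁻¹ ^ 2 * ‖p‖ := by
  set e0 : EE d := EuclideanSpace.single ⟨0, hd⟩ (1 : ℝ) with he0
  have hne0 : ‖e0‖ = 1 := by rw [he0, PiLp.norm_single]; simp
  set c : EE d := (3 / 4 : ℝ) • e0 with hc
  have hcn : ‖c‖ = 3 / 4 := by
    rw [hc, norm_smul, hne0, Real.norm_of_nonneg (by norm_num), mul_one]
  let b : ContDiffBump c := ⟨1 / 16, 1 / 8, by norm_num, by norm_num⟩
  set φ0 : EE d → ℂ := fun x => ((b x : ℝ) : ℂ) with hφ0
  have hsm : ContDiff ℝ (⊤ : ℕ∞) φ0 := Complex.ofRealCLM.contDiff.comp b.contDiff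
  have hcs : HasCompactSupport φ0 := b.hasCompactSupport.comp_left (g := fun x : ℝ => (x : ℂ)) rfl
  have h2top : (2 : WithTop ℕ∞) ≤ ((⊤ : ℕ∞) : WithTop ℕ∞) := by
    exact WithTop.coe_le_coe.mpr (le_top : (2 : ℕ∞) ≤ ⊤)
  have hsm2 : ContDiff ℝ 2 φ0 := hsm.of_le h2top
  obtain ⟨hLc, hLs⟩ := trial_fn_lapc φ0 hsm2 hcs
  have hm0 : MemLp φ0 2 (volume : Measure (EE d)) :=
    hsm.continuous.memLp_of_hasCompactSupport hcs
  have hmL : MemLp (Δ φ0 : EE d → ℂ) 2 (volume : Measure (EE d)) :=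
    hLc.memLp_of_hasCompactSupport hLs
  have hφc : φ0 c = 1 := by
    have h1 : b c = 1 := b.one_of_mem_closedBall (Metric.mem_closedBall_self b.rIn_pos.le)
    rw [hφ0]
    simp only
    rw [h1]; simp
  have hN0 : 0 < (eLpNorm φ0 2 (volume : Measure (EE d))).toReal := by
    apply ENNReal.toReal_pos _ hm0.eLpNorm_ne_top
    intro h
    rw [eLpNorm_eq_zero_iff hsm.continuous.aestronglyMeasurable (by norm_num)] at h
    have h2 : φ0 = 0 := (hsm.continuous.ae_eq_iff_eq _ continuous_const).mp h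
    rw [h2] at hφc
    exact zero_ne_one hφc
  set N0 := (eLpNorm φ0 2 (volume : Measure (EE d))).toReal with hN0d
  set N1 := (eLpNorm (Δ φ0 : EE d → ℂ) 2 (volume : Measure (EE d))).toReal with hN1d
  have hN1 : 0 ≤ N1 := ENNReal.toReal_nonneg
  refine ⟨N1 / N0 + 1, by positivity, ?_⟩
  intro r hr
  have hr' : 0 < r⁻¹ := inv_pos.mpr hr
  set φ : EE d → ℂ := fun x => φ0 (r⁻¹ • x) with hφ
  have hφsm : ContDiff ℝ (⊤ : ℕ∞) φ := hsm.comp (contDiff_const_smul r⁻¹)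
  have hφcs : HasCompactSupport φ := hcs.comp_smul hr'.ne'
  have hmφ : MemLp φ 2 (volume : Measure (EE d)) :=
    hφsm.continuous.memLp_of_hasCompactSupport hφcs
  obtain ⟨hLc', hLs'⟩ := trial_fn_lapc φ (hφsm.of_le h2top) hφcs
  have hmLφ : MemLp (Δ φ : EE d → ℂ) 2 (volume : Measure (EE d)) :=
    hLc'.memLp_of_hasCompactSupport hLs'
  set k := ((ENNReal.ofReal (abs (r⁻¹ ^ Module.finrank ℝ (EE d))⁻¹)) ^
    (1 / (2 : ℝ≥0∞)).toReal).toReal with hk
  have hkpos : 0 < k := by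
    rw [hk]
    have hpos : 0 < |((r⁻¹) ^ Module.finrank ℝ (EE d))⁻¹| := by positivity
    apply ENNReal.toReal_pos
    · have h1 : 0 < (ENNReal.ofReal (abs (r⁻¹ ^ Module.finrank ℝ (EE d))⁻¹)) ^
          (1 / (2 : ℝ≥0∞)).toReal :=
        ENNReal.rpow_pos (ENNReal.ofReal_pos.mpr hpos) ENNReal.ofReal_ne_top
      exact h1.ne'
    · exact ENNReal.rpow_ne_top_of_nonneg ENNReal.toReal_nonneg ENNReal.ofReal_ne_top
  have hp : ‖hmφ.toLp φ‖ = k * N0 := by
    rw [Lp.norm_toLp, hφ, trial_fn_norm φ0 hsm.continuous r⁻¹ hr', smul_eq_mul,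
      ENNReal.toReal_mul]
  have hz : ‖hmLφ.toLp (Δ φ : EE d → ℂ)‖ = r⁻¹ ^ 2 * (k * N1) := by
    rw [Lp.norm_toLp, hφ, trial_fn_lap φ0 hsm2 r⁻¹]
    have h1 : (fun x => (((r⁻¹ : ℝ) : ℂ) ^ 2) • (Δ φ0 : EE d → ℂ) (r⁻¹ • x)) =
        (((r⁻¹ : ℝ) : ℂ) ^ 2) • (fun x => (Δ φ0 : EE d → ℂ) (r⁻¹ • x)) := rfl
    rw [h1, eLpNorm_const_smul, trial_fn_norm _ hLc r⁻¹ hr', smul_eq_mul, ENNReal.toReal_mul,
      ENNReal.toReal_mul]
    congr 1
    rw [toReal_enorm, norm_pow, Complex.norm_real, Real.norm_of_nonneg hr'.le]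
  refine ⟨φ, hmφ.toLp φ, hmLφ.toLp _, ⟨hφsm, hφcs⟩, ?_, hmφ.coeFn_toLp, hmLφ.coeFn_toLp, ?_, ?_⟩
  · intro x hx
    have h1 : b (r⁻¹ • x) ≠ 0 := by
      intro h
      apply hx
      rw [hφ, hφ0]
      simp only
      rw [h]; simp
    have h2 : r⁻¹ • x ∈ Metric.ball c (1 / 8) := by
      have h3 : r⁻¹ • x ∈ Function.support b := h1
      rw [b.support_eq] at h3
      exact h3
    rw [Metric.mem_ball, dist_eq_norm] at h2
    have h3 : ‖r⁻¹ • x‖ = r⁻¹ * ‖x‖ := by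
      rw [norm_smul, Real.norm_of_nonneg hr'.le]
    have h4 : ‖r⁻¹ • x‖ ≤ ‖r⁻¹ • x - c‖ + ‖c‖ := by
      have := norm_add_le (r⁻¹ • x - c) c
      rwa [sub_add_cancel] at this
    have h5 : ‖c‖ ≤ ‖r⁻¹ • x‖ + ‖r⁻¹ • x - c‖ := by
      have := norm_sub_le (r⁻¹ • x) (r⁻¹ • x - c)
      rwa [_root_.sub_sub_cancel] at this
    rw [hcn] at h4 h5
    rw [h3] at h4 h5
    have h6 : 1 / 2 ≤ r⁻¹ * ‖x‖ := by linarith
    have h7 : r⁻¹ * ‖x‖ < 1 := by linarith
    constructor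
    · have := mul_le_mul_of_nonneg_left h6 hr.le
      rw [← mul_assoc, mul_inv_cancel₀ hr.ne', one_mul] at this
      linarith
    · have := mul_lt_mul_of_pos_left h7 hr
      rw [← mul_assoc, mul_inv_cancel₀ hr.ne', one_mul] at this
      linarith
  · intro h
    have h1 : ‖hmφ.toLp φ‖ = 0 := by rw [h, norm_zero]
    rw [hp] at h1
    have : 0 < k * N0 := mul_pos hkpos hN0
    linarith
  · rw [hp, hz]
    have h1 : (N1 / N0 + 1) * r⁻¹ ^ 2 * (k * N0) = r⁻¹ ^ 2 * (k * (N1 + N0)) := by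
      field_simp
    rw [h1]
    have h2 : k * N1 ≤ k * (N1 + N0) := mul_le_mul_of_nonneg_left (by linarith) hkpos.le
    exact mul_le_mul_of_nonneg_left h2 (by positivity)

end

end LTS
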