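import Pool.Agent.H631.LT.Defs

open MeasureTheory Filter Topology ENNReal
open scoped Laplacian FourierTransform InnerProductSpace

namespace LTS

noncomputable section

/-! TARGET: prove the following -/

theorem poly_exp_24481 (p : ℝ) (hp : 0 < p) (r : ℝ) (hr0 : 0 < r) (hr1 : r < 1) :
    ∃ C : ℝ, 0 < C ∧ ∀ k : ℕ, ((k : ℝ) + 2) ^ p * r ^ k ≤ C := by
  obtain ⟨m, hm⟩ := exists_nat_ge p
  have ht := tendsto_pow_const_mul_const_pow_of_abs_lt_one m (r := r) (by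
    rw [abs_of_pos hr0]; exact hr1)
  obtain ⟨C, hC⟩ := ht.bddAbove_range
  have hC' : ∀ n : ℕ, (n : ℝ) ^ m * r ^ n ≤ C := fun n => hC ⟨n, rfl⟩
  have hCpos : 0 < C := by
    have h1 := hC' 1
    have h2 : 0 < ((1 : ℕ) : ℝ) ^ m * r ^ 1 := by positivity
    linarith
  refine ⟨C * (r ^ 2)⁻¹, by positivity, ?_⟩
  intro k
  have h1 := hC' (k + 2)
  push_cast at h1
  have h2 : ((k : ℝ) + 2) ^ p ≤ ((k : ℝ) + 2) ^ m := by
    rw [← Real.rpow_natCast]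
    apply Real.rpow_le_rpow_of_exponent_le _ hm
    have : (0 : ℝ) ≤ k := Nat.cast_nonneg k
    linarith
  have h3 : r ^ k = r ^ (k + 2) * (r ^ 2)⁻¹ := by
    rw [pow_add, mul_assoc, mul_inv_cancel₀ (by positivity), mul_one]
  calc ((k : ℝ) + 2) ^ p * r ^ k ≤ ((k : ℝ) + 2) ^ m * r ^ k := by gcongr
    _ = (((k : ℝ) + 2) ^ m * r ^ (k + 2)) * (r ^ 2)⁻¹ := by rw [h3]; ring
    _ ≤ C * (r ^ 2)⁻¹ := by gcongr

theorem choose_k (d : ℕ) (hd : 1 ≤ d) (γ : ℝ) (hγ : 0 < γ) (C₁ : ℝ) (hC₁ : 0 < C₁) (ε : ℝ)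
    (hε : 0 < ε) : ∃ c : ℝ, 0 < c ∧ ∃ ħ₀ : ℝ, 0 < ħ₀ ∧ ∀ ħ : ℝ, 0 < ħ → ħ < ħ₀ →
      ∃ k : ℕ, C₁ * ħ ^ 2 * (rk d γ k)⁻¹ ^ 2 ≤ Ak d γ k / 2 ∧
        c * ħ ^ (ε - (d : ℝ) / γ) ≤ Ak d γ k / 2 := by
  set α : ℝ := (d : ℝ) / γ with hα
  have hd0 : (0 : ℝ) < d := by exact_mod_cast hd
  have hα0 : 0 < α := by positivity
  set B : ℝ := Real.sqrt (2 * C₁) with hB
  have hB0 : 0 < B := Real.sqrt_pos.2 (by positivity)
  have hBsq : B ^ 2 = 2 * C₁ := Real.sq_sqrt (by positivity)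
  set r : ℝ := (2 : ℝ)⁻¹ ^ ε with hr
  have hr0 : 0 < r := by positivity
  have hr1 : r < 1 := Real.rpow_lt_one (by norm_num) (by norm_num) hε
  obtain ⟨C₂, hC₂, hC₂b⟩ := poly_exp_24481 (α + 2) (by positivity) r hr0 hr1
  refine ⟨1 / 2 * (2 * B) ^ (-α) * B ^ ε / C₂, by positivity, 1 / B, by positivity, ?_⟩
  intro ħ hħ hħ1
  have hex : ∃ k : ℕ, 1 < B * ħ * ((k : ℝ) + 1) * 2 ^ k := by
    obtain ⟨k, hk⟩ := pow_unbounded_of_one_lt (1 / (B * ħ)) (one_lt_two (α := ℝ))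
    refine ⟨k, ?_⟩
    rw [div_lt_iff₀ (by positivity)] at hk
    have h1 : (0 : ℝ) ≤ k := Nat.cast_nonneg k
    have h2 : 0 < B * ħ * 2 ^ k := by positivity
    nlinarith
  classical
  have hK0 : Nat.find hex ≠ 0 := by
    intro h
    have h1 := Nat.find_spec hex
    rw [h] at h1
    rw [lt_div_iff₀ hB0] at hħ1
    norm_num at h1
    nlinarith
  obtain ⟨k, hk⟩ := Nat.exists_eq_succ_of_ne_zero hK0
  have hPk : B * ħ * ((k : ℝ) + 1) * 2 ^ k ≤ 1 := by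
    have := Nat.find_min hex (m := k) (by omega)
    exact not_lt.1 this
  have hPk1 : 1 < B * ħ * (((k : ℝ) + 1) + 1) * 2 ^ (k + 1) := by
    have := Nat.find_spec hex
    rw [hk] at this
    push_cast at this
    exact this
  refine ⟨k, ?_⟩
  have hk0 : (0 : ℝ) ≤ k := Nat.cast_nonneg k
  set x : ℝ := LTS.hk k with hx
  have hx0 : 0 < x := by rw [hx]; unfold LTS.hk; positivity
  have hx2 : x * 2 ^ k = 1 := by
    rw [hx]; unfold LTS.hk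
    rw [← mul_pow]
    norm_num
  -- the two inequalities for x
  have hA : B * ħ * ((k : ℝ) + 1) ≤ x := by
    have h1 : B * ħ * ((k : ℝ) + 1) * 2 ^ k ≤ x * 2 ^ k := by rw [hx2]; exact hPk
    exact le_of_mul_le_mul_right h1 (by positivity)
  have hA2 : x ≤ 2 * B * (ħ * ((k : ℝ) + 2)) := by
    have h1 : x * 2 ^ k ≤ (2 * B * (ħ * ((k : ℝ) + 2))) * 2 ^ k := by
      rw [hx2]
      calc (1 : ℝ) ≤ B * ħ * (((k : ℝ) + 1) + 1) * 2 ^ (k + 1) := hPk1.le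
        _ = _ := by ring
    exact le_of_mul_le_mul_right h1 (by positivity)
  have hAk : Ak d γ k = 1 / ((k : ℝ) + 1) ^ 2 * x ^ (-α) := rfl
  have hrk : (rk d γ k)⁻¹ ^ 2 = x ^ (-α) * x⁻¹ ^ 2 := by
    have e1 : rk d γ k = x ^ (1 + (d : ℝ) / (2 * γ)) := rfl
    rw [e1, inv_pow, ← Real.rpow_natCast (x ^ (1 + (d : ℝ) / (2 * γ))) 2, ← Real.rpow_mul hx0.le,
      inv_pow, ← Real.rpow_natCast x 2, ← Real.rpow_neg hx0.le, ← Real.rpow_neg hx0.le,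
      ← Real.rpow_add hx0]
    congr 1
    rw [hα]
    push_cast
    field_simp
    ring
  have hxa : 0 < x ^ (-α) := Real.rpow_pos_of_pos hx0 _
  constructor
  · rw [hAk, hrk]
    have h1 : (B * ħ * ((k : ℝ) + 1)) ^ 2 ≤ x ^ 2 := pow_le_pow_left₀ (by positivity) hA 2
    have h2 : C₁ * ħ ^ 2 * x⁻¹ ^ 2 ≤ 1 / ((k : ℝ) + 1) ^ 2 / 2 := by
      rw [inv_pow, ← div_eq_mul_inv, div_div, div_le_div_iff₀ (by positivity) (by positivity)]
      have h3 : (B * ħ * ((k : ℝ) + 1)) ^ 2 = 2 * C₁ * (ħ ^ 2 * ((k : ℝ) + 1) ^ 2) := by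
        rw [mul_pow, mul_pow, hBsq]; ring
      rw [h3] at h1
      nlinarith
    calc C₁ * ħ ^ 2 * (x ^ (-α) * x⁻¹ ^ 2) = x ^ (-α) * (C₁ * ħ ^ 2 * x⁻¹ ^ 2) := by ring
      _ ≤ x ^ (-α) * (1 / ((k : ℝ) + 1) ^ 2 / 2) := mul_le_mul_of_nonneg_left h2 hxa.le
      _ = _ := by ring
  · rw [hAk]
    -- lower bound for x^(-α)
    have h1 : (2 * B * (ħ * ((k : ℝ) + 2))) ^ (-α) ≤ x ^ (-α) :=
      Real.rpow_le_rpow_of_nonpos hx0 hA2 (by linarith)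
    have h2 : (2 * B * (ħ * ((k : ℝ) + 2))) ^ (-α) =
        (2 * B) ^ (-α) * (ħ ^ (-α) * ((k : ℝ) + 2) ^ (-α)) := by
      rw [Real.mul_rpow (x := 2 * B) (y := ħ * ((k : ℝ) + 2)) (by positivity) (by positivity),
        Real.mul_rpow (x := ħ) (y := (k : ℝ) + 2) hħ.le (by positivity)]
    rw [h2] at h1
    have h3 : ħ ^ (ε - α) = ħ ^ ε * ħ ^ (-α) := by
      rw [← Real.rpow_add hħ]; congr 1
    -- upper bound for ħ^ε
    have h4 : ħ ≤ x / B := by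
      rw [le_div_iff₀ hB0]
      nlinarith [mul_pos hB0 hħ]
    have h5 : ħ ^ ε ≤ x ^ ε / B ^ ε := by
      rw [← Real.div_rpow hx0.le hB0.le]
      exact Real.rpow_le_rpow hħ.le h4 hε.le
    have h6 : x ^ ε = r ^ k := by
      rw [hx, hr]; unfold LTS.hk
      rw [← Real.rpow_natCast, ← Real.rpow_natCast, ← Real.rpow_mul (by norm_num),
        ← Real.rpow_mul (by norm_num), mul_comm]
    rw [h6] at h5
    have h7 := hC₂b k
    have hk2 : 0 < ((k : ℝ) + 2) ^ (α + 2) := by positivity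
    have hħa : 0 < ħ ^ (-α) := Real.rpow_pos_of_pos hħ _
    have h8 : ((k : ℝ) + 2) ^ (-α) = ((k : ℝ) + 2) ^ 2 / ((k : ℝ) + 2) ^ (α + 2) := by
      rw [eq_div_iff hk2.ne', ← Real.rpow_add (by positivity), ← Real.rpow_natCast]
      congr 1
      push_cast
      ring
    have hBe : 0 < B ^ ε := Real.rpow_pos_of_pos hB0 _
    have h2B : 0 < (2 * B) ^ (-α) := Real.rpow_pos_of_pos (by positivity) _
    calc 1 / 2 * (2 * B) ^ (-α) * B ^ ε / C₂ * ħ ^ (ε - α)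
        = (1 / 2 * (2 * B) ^ (-α) * ħ ^ (-α)) * (B ^ ε * ħ ^ ε / C₂) := by rw [h3]; ring
      _ ≤ (1 / 2 * (2 * B) ^ (-α) * ħ ^ (-α)) * (1 / ((k : ℝ) + 2) ^ (α + 2)) := by
          apply mul_le_mul_of_nonneg_left _ (by positivity)
          rw [div_le_div_iff₀ hC₂ hk2, one_mul]
          have h9 : B ^ ε * ħ ^ ε ≤ r ^ k := by
            rw [mul_comm, ← le_div_iff₀ hBe]
            exact h5
          calc B ^ ε * ħ ^ ε * ((k : ℝ) + 2) ^ (α + 2) ≤ r ^ k * ((k : ℝ) + 2) ^ (α + 2) :=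
                mul_le_mul_of_nonneg_right h9 hk2.le
            _ ≤ C₂ := by rw [mul_comm]; exact h7
      _ ≤ (1 / 2 * (2 * B) ^ (-α) * ħ ^ (-α)) *
          (1 / ((k : ℝ) + 1) ^ 2 * ((k : ℝ) + 2) ^ (-α)) := by
          apply mul_le_mul_of_nonneg_left _ (by positivity)
          rw [h8, div_mul_div_comm, one_mul]
          rw [div_le_div_iff₀ hk2 (by positivity)]
          have h10 : ((k : ℝ) + 1) ^ 2 ≤ ((k : ℝ) + 2) ^ 2 := by gcongr; linarith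
          nlinarith
      _ = 1 / ((k : ℝ) + 1) ^ 2 * ((2 * B) ^ (-α) * (ħ ^ (-α) * ((k : ℝ) + 2) ^ (-α))) / 2 := by
          ring
      _ ≤ 1 / ((k : ℝ) + 1) ^ 2 * x ^ (-α) / 2 := by
          apply div_le_div_of_nonneg_right _ (by norm_num)
          exact mul_le_mul_of_nonneg_left h1 (by positivity)

end

end LTS

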