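import Pool.Agent.H631.LT.Defs
import Pool.Agent.H631.LT.J02
import Pool.Agent.H631.LT.J03
import Pool.Agent.H631.LT.J04
import Pool.Agent.H631.LT.J15
import Pool.Agent.H631.LT.J16

open MeasureTheory Filter Topology ENNReal
open scoped Laplacian FourierTransform InnerProductSpace

namespace LTS

noncomputable section

theorem wf_lap {d : ℕ} (φ : EE d → ℂ) (hφ : IsTest φ) : Continuous (Δ φ) ∧ HasCompactSupport (Δ φ) := by
  have hrw := InnerProductSpace.laplacian_eq_iteratedFDeriv_stdOrthonormalBasis φ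
  have h2 : (((2 : ℕ) : ℕ∞) : WithTop ℕ∞) ≤ ((⊤ : ℕ∞) : WithTop ℕ∞) := by
    exact_mod_cast (le_top : ((2 : ℕ) : ℕ∞) ≤ ⊤)
  have h1 : Continuous (iteratedFDeriv ℝ 2 φ) := hφ.1.continuous_iteratedFDeriv h2
  rw [hrw]
  constructor
  · refine continuous_finsetSum _ fun i _ => ?_
    exact (ContinuousMultilinearMap.apply ℝ (fun _ : Fin 2 => EE d) ℂ
      ![(stdOrthonormalBasis ℝ (EE d)) i, (stdOrthonormalBasis ℝ (EE d)) i]).continuous.comp h1
  · refine (hφ.2.iteratedFDeriv (𝕜 := ℝ) 2).mono ?_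
    intro x hx h0
    apply hx
    change (∑ i, iteratedFDeriv ℝ 2 φ x _) = 0
    refine Finset.sum_eq_zero fun i _ => ?_
    rw [h0]; rfl

theorem wf_inner {d : ℕ} (S : Set (EE d)) (hS : MeasurableSet S) (p q : HH d) :
    ⟪proj S p, proj S q⟫_ℂ = ∫ x in S, (starRingEnd ℂ) (p x) * q x := by
  rw [L2.inner_def, ← integral_indicator hS]
  refine integral_congr_ae ?_
  filter_upwards [proj_ae S hS p, proj_ae S hS q] with x hx hy
  rw [hx, hy]
  by_cases h : x ∈ S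
  · simp [h, mul_comm]
  · simp [h]

theorem wf_gen (d : ℕ) (hd : 1 ≤ d) (γ : ℝ) (hγ : 0 < γ) {E : Type} [NormedAddCommGroup E]
    [NormedSpace ℝ E] (f : EE d → E) (hf : Integrable f)
    (hs : Summable fun k => Ak d γ k * ∫ x in Sh d γ k, ‖f x‖) :
    Integrable (fun x => WW d γ x • f x) ∧
      HasSum (fun k => Ak d γ k • ∫ x in Sh d γ k, f x) (∫ x, WW d γ x • f x) := by
  obtain ⟨h1, h2, h3, h4, h5, h6, h7⟩ := WW_prop d hd γ hγ
  have hAk : ∀ k, 0 < Ak d γ k := by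
    intro k; unfold Ak ak hk; positivity
  have hcongr : ∀ k, ∀ x ∈ Sh d γ k, WW d γ x • f x = Ak d γ k • f x := by
    intro k x hx; rw [h4 k x hx]
  have hon : ∀ k, IntegrableOn (fun x => WW d γ x • f x) (Sh d γ k) := by
    intro k
    rw [integrableOn_congr_fun (hcongr k) (h5 k)]
    exact (hf.smul (Ak d γ k)).integrableOn
  have hnorm : ∀ k, ∫ x in Sh d γ k, ‖WW d γ x • f x‖ = Ak d γ k * ∫ x in Sh d γ k, ‖f x‖ := by
    intro k
    rw [← integral_const_mul]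
    refine setIntegral_congr_fun (h5 k) fun x hx => ?_
    simp only [hcongr k x hx, norm_smul, Real.norm_of_nonneg (hAk k).le]
  have hU : IntegrableOn (fun x => WW d γ x • f x) (⋃ k, Sh d γ k) :=
    integrableOn_iUnion_of_summable_integral_norm hon (by simpa only [hnorm] using hs)
  have hz : ∀ x, x ∉ ⋃ k, Sh d γ k → WW d γ x • f x = 0 := by
    intro x hx
    have : WW d γ x = 0 := by
      unfold WW
      have h8 : ∀ k, (Sh d γ k).indicator (fun _ => Ak d γ k) x = 0 := by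
        intro k
        apply Set.indicator_of_notMem
        intro hk
        exact hx (Set.mem_iUnion.2 ⟨k, hk⟩)
      simp only [h8, tsum_zero]
    rw [this, zero_smul]
  refine ⟨hU.integrable_of_forall_notMem_eq_zero hz, ?_⟩
  have hdisj : Pairwise (Function.onFun Disjoint (Sh d γ)) := by
    intro j k hjk
    refine Set.disjoint_left.2 fun x hj hk => ?_
    have hx0 : x ≠ 0 := by
      rintro rfl
      exact h7 j hj
    have hx1 : ‖x‖ < 1 := by
      by_contra hc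
      have h8 := h3 x (not_lt.1 hc)
      rw [h4 j x hj] at h8
      exact (hAk j).ne' h8
    exact hjk ((h6 x hx0 hx1).unique hj hk)
  have h8 := hasSum_integral_iUnion h5 hdisj hU
  rw [setIntegral_eq_integral_of_forall_compl_eq_zero hz] at h8
  have e2 : (fun k => Ak d γ k • ∫ x in Sh d γ k, f x) = fun k => ∫ x in Sh d γ k, WW d γ x • f x := by
    funext k
    rw [← integral_smul]
    exact (setIntegral_congr_fun (h5 k) fun x hx => hcongr k x hx).symm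
  rw [e2]
  exact h8

theorem wf_sq (d : ℕ) (hd : 1 ≤ d) (γ : ℝ) (hγ : 0 < γ) (p : HH d) (s : ℂ)
    (hs : HasSum (fun k => (Ak d γ k : ℂ) * ⟪proj (Sh d γ k) p, proj (Sh d γ k) p⟫_ℂ) s) :
    (Summable fun k => Ak d γ k * ∫ x in Sh d γ k, ‖(p : EE d → ℂ) x‖ ^ 2) ∧
      Integrable (fun x => WW d γ x * ‖(p : EE d → ℂ) x‖ ^ 2) := by
  obtain ⟨h1, h2, h3, h4, h5, h6, h7⟩ := WW_prop d hd γ hγ
  have e1 : ∀ k, (Ak d γ k : ℂ) * ⟪proj (Sh d γ k) p, proj (Sh d γ k) p⟫_ℂ =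
      ((Ak d γ k * ∫ x in Sh d γ k, ‖(p : EE d → ℂ) x‖ ^ 2 : ℝ) : ℂ) := by
    intro k
    rw [wf_inner _ (h5 k), Complex.ofReal_mul, ← integral_complex_ofReal]
    congr 1
    refine setIntegral_congr_fun (h5 k) fun x _ => ?_
    rw [Complex.conj_mul']
    push_cast; rfl
  have hsum : Summable fun k => Ak d γ k * ∫ x in Sh d γ k, ‖(p : EE d → ℂ) x‖ ^ 2 := by
    have := hs.summable
    simp only [e1] at this
    exact Complex.summable_ofReal.1 this
  refine ⟨hsum, ?_⟩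
  have hint : Integrable (fun x => ‖(p : EE d → ℂ) x‖ ^ 2) :=
    (memLp_two_iff_integrable_sq_norm (Lp.aestronglyMeasurable p)).1 (Lp.memLp p)
  have h8 := (wf_gen d hd γ hγ (fun x => ‖(p : EE d → ℂ) x‖ ^ 2) hint (by
    refine hsum.congr fun k => ?_
    congr 1
    refine setIntegral_congr_fun (h5 k) fun x _ => ?_
    simp)).1
  exact h8

theorem wf_pq (d : ℕ) (hd : 1 ≤ d) (γ : ℝ) (hγ : 0 < γ) (p q : HH d)
    (hp : Summable fun k => Ak d γ k * ∫ x in Sh d γ k, ‖(p : EE d → ℂ) x‖ ^ 2)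
    (hq : Summable fun k => Ak d γ k * ∫ x in Sh d γ k, ‖(q : EE d → ℂ) x‖ ^ 2) :
    Integrable (fun x => WW d γ x • ((starRingEnd ℂ) ((p : EE d → ℂ) x) * (q : EE d → ℂ) x)) ∧
    HasSum (fun k => (Ak d γ k : ℂ) * ⟪proj (Sh d γ k) p, proj (Sh d γ k) q⟫_ℂ)
      (∫ x, WW d γ x • ((starRingEnd ℂ) ((p : EE d → ℂ) x) * (q : EE d → ℂ) x)) := by
  obtain ⟨h1, h2, h3, h4, h5, h6, h7⟩ := WW_prop d hd γ hγ
  have hAk : ∀ k, 0 < Ak d γ k := by
    intro k; unfold Ak ak hk; positivity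
  have hip : Integrable (fun x => ‖(p : EE d → ℂ) x‖ ^ 2) :=
    (memLp_two_iff_integrable_sq_norm (Lp.aestronglyMeasurable p)).1 (Lp.memLp p)
  have hiq : Integrable (fun x => ‖(q : EE d → ℂ) x‖ ^ 2) :=
    (memLp_two_iff_integrable_sq_norm (Lp.aestronglyMeasurable q)).1 (Lp.memLp q)
  have hi : Integrable (fun x => (starRingEnd ℂ) ((p : EE d → ℂ) x) * (q : EE d → ℂ) x) := by
    have := L2.integrable_inner (𝕜 := ℂ) p q
    refine this.congr (Eventually.of_forall fun x => ?_)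
    simp [mul_comm]
  have hg := wf_gen d hd γ hγ (fun x => (starRingEnd ℂ) ((p : EE d → ℂ) x) * (q : EE d → ℂ) x) hi (by
    refine Summable.of_nonneg_of_le (fun k => ?_) (fun k => ?_) ((hp.add hq).mul_left (1/2))
    · exact mul_nonneg (hAk k).le (integral_nonneg fun x => norm_nonneg _)
    · rw [← mul_add, mul_left_comm]
      refine mul_le_mul_of_nonneg_left ?_ (hAk k).le
      rw [← integral_add hip.integrableOn hiq.integrableOn, ← integral_const_mul]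
      refine integral_mono hi.norm.integrableOn ((hip.add hiq).const_mul _).integrableOn fun x => ?_
      simp only [norm_mul, RCLike.norm_conj]
      nlinarith [sq_nonneg (‖(p : EE d → ℂ) x‖ - ‖(q : EE d → ℂ) x‖)])
  refine ⟨hg.1, ?_⟩
  have h8 := hg.2
  have e1 : (fun k => (Ak d γ k : ℂ) * ⟪proj (Sh d γ k) p, proj (Sh d γ k) q⟫_ℂ) =
      fun k => Ak d γ k • ∫ x in Sh d γ k, (starRingEnd ℂ) ((p : EE d → ℂ) x) * (q : EE d → ℂ) x := by
    funext k
    rw [wf_inner _ (h5 k), Complex.real_smul]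
  rw [e1]
  exact h8

/-! TARGET: prove the following -/

theorem weak_form (d : ℕ) (hd : 1 ≤ d) (γ : ℝ) (hγ : 0 < γ) (ħ lam : ℝ) (hħ : 0 < ħ) (hl : 0 < lam)
    (M : HH d →L[ℂ] HH d) (hMs : ∀ f g, ⟪M f, g⟫_ℂ = ⟪f, M g⟫_ℂ)
    (hM : ∀ f g, HasSum (fun k => (Ak d γ k : ℂ) *
      ⟪proj (Sh d γ k) (Top d ħ lam f), proj (Sh d γ k) (Top d ħ lam g)⟫_ℂ) ⟪M f, g⟫_ℂ)
    (ν : ℝ) (g : HH d) (hg : g - M g = (ν : ℂ) • Top d ħ lam (Top d ħ lam g)) :
    Integrable (fun x => WW d γ x * ‖(Top d ħ lam g : EE d → ℂ) x‖ ^ 2) ∧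
    ∀ φ : EE d → ℂ, IsTest φ →
      Integrable (fun x => (WW d γ x : ℂ) * (Top d ħ lam g : EE d → ℂ) x * φ x) ∧
      (∫ x, (Top d ħ lam g : EE d → ℂ) x * (-((ħ : ℂ) ^ 2) * (Δ φ) x)) -
        (∫ x, (WW d γ x : ℂ) * (Top d ħ lam g : EE d → ℂ) x * φ x) =
          ((ν - lam : ℝ) : ℂ) * (∫ x, (Top d ħ lam g : EE d → ℂ) x * φ x) := by
  obtain ⟨u, hu⟩ : ∃ u : HH d, u = Top d ħ lam g := ⟨_, rfl⟩
  have hsu := wf_sq d hd γ hγ u _ (by rw [hu]; exact hM g g)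
  rw [← hu]
  refine ⟨hsu.2, ?_⟩
  intro φ hφ
  -- the conjugate test function
  let χ : EE d → ℂ := Complex.conjCLE ∘ φ
  have hχφ : ∀ x, (starRingEnd ℂ) (χ x) = φ x := fun x => Complex.conj_conj (φ x)
  have hχ : IsTest χ := by
    refine ⟨Complex.conjCLE.contDiff.comp hφ.1, ?_⟩
    exact hφ.2.comp_left (map_zero Complex.conjCLE)
  have hΔ : Δ χ = Complex.conjCLE ∘ Δ φ := InnerProductSpace.laplacian_CLE_comp_left
  have hΔ' : ∀ x, (starRingEnd ℂ) ((Δ χ) x) = (Δ φ) x := by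
    intro x
    rw [hΔ]
    exact Complex.conj_conj _
  obtain ⟨hLc, hLs⟩ := wf_lap χ hχ
  have hχm : MemLp χ 2 (volume : Measure (EE d)) := hχ.1.continuous.memLp_of_hasCompactSupport hχ.2
  have hLm : MemLp (Δ χ) 2 (volume : Measure (EE d)) := hLc.memLp_of_hasCompactSupport hLs
  have hzm : MemLp (fun x => -((ħ : ℂ) ^ 2) * (Δ χ) x + (lam : ℂ) * χ x) 2 (volume : Measure (EE d)) :=
    (hLm.const_mul _).add (hχm.const_mul _)
  let p : HH d := hχm.toLp χ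
  let z : HH d := hzm.toLp _
  have hp : (p : EE d → ℂ) =ᵐ[volume] χ := hχm.coeFn_toLp
  have hz : (z : EE d → ℂ) =ᵐ[volume] fun x => -((ħ : ℂ) ^ 2) * (Δ χ) x + (lam : ℂ) * χ x :=
    hzm.coeFn_toLp
  have hTT : Top d ħ lam (Top d ħ lam z) = p := Top_test ħ lam hħ hl χ hχ p z hp hz
  have hsp := wf_sq d hd γ hγ p _ (by rw [← hTT]; exact hM (Top d ħ lam z) (Top d ħ lam z))
  obtain ⟨hpq1, hpq2⟩ := wf_pq d hd γ hγ p u hsp.1 hsu.1
  have hI : Integrable (fun x => (WW d γ x : ℂ) * (u : EE d → ℂ) x * φ x) := by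
    refine hpq1.congr ?_
    filter_upwards [hp] with x hx
    rw [hx, hχφ, Complex.real_smul]; ring
  refine ⟨hI, ?_⟩
  have hIeq : ∫ x, WW d γ x • ((starRingEnd ℂ) ((p : EE d → ℂ) x) * (u : EE d → ℂ) x) =
      ∫ x, (WW d γ x : ℂ) * (u : EE d → ℂ) x * φ x := by
    refine integral_congr_ae ?_
    filter_upwards [hp] with x hx
    rw [hx, hχφ, Complex.real_smul]; ring
  -- the identity
  have e1 : ⟪Top d ħ lam z, g⟫_ℂ = ⟪z, u⟫_ℂ := by rw [Top_sa ħ lam hl, hu]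
  have e2 : ⟪M (Top d ħ lam z), g⟫_ℂ = ∫ x, (WW d γ x : ℂ) * (u : EE d → ℂ) x * φ x := by
    have h1 := hM (Top d ħ lam z) g
    rw [hTT, ← hu] at h1
    rw [← hIeq]
    exact h1.unique hpq2
  have e3 : ⟪Top d ħ lam z, g⟫_ℂ = ⟪M (Top d ħ lam z), g⟫_ℂ + (ν : ℂ) * ⟪p, u⟫_ℂ := by
    have h1 : g = M g + (ν : ℂ) • Top d ħ lam (Top d ħ lam g) := by rw [← hg]; abel
    calc ⟪Top d ħ lam z, g⟫_ℂ = ⟪Top d ħ lam z, M g + (ν : ℂ) • Top d ħ lam (Top d ħ lam g)⟫_ℂ := by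
          rw [← h1]
      _ = ⟪Top d ħ lam z, M g⟫_ℂ + (ν : ℂ) * ⟪Top d ħ lam z, Top d ħ lam (Top d ħ lam g)⟫_ℂ := by
          rw [inner_add_right, inner_smul_right]
      _ = _ := by
          rw [hMs, ← Top_sa ħ lam hl, hTT, hu]
  have e4 : ⟪p, u⟫_ℂ = ∫ x, (u : EE d → ℂ) x * φ x := by
    rw [L2.inner_def]
    refine integral_congr_ae ?_
    filter_upwards [hp] with x hx
    rw [hx, RCLike.inner_apply, hχφ]
  have hi1 : Integrable (fun x => (u : EE d → ℂ) x * φ x) := by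
    refine (L2.integrable_inner (𝕜 := ℂ) p u).congr ?_
    filter_upwards [hp] with x hx
    rw [hx, RCLike.inner_apply, hχφ]
  let q : HH d := hLm.toLp _
  have hq : (q : EE d → ℂ) =ᵐ[volume] Δ χ := hLm.coeFn_toLp
  have hi2 : Integrable (fun x => (u : EE d → ℂ) x * (-((ħ : ℂ) ^ 2) * (Δ φ) x)) := by
    refine ((L2.integrable_inner (𝕜 := ℂ) q u).const_mul (-((ħ : ℂ) ^ 2))).congr ?_
    filter_upwards [hq] with x hx
    rw [hx, RCLike.inner_apply, hΔ']; ring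
  have e5 : ⟪z, u⟫_ℂ = (∫ x, (u : EE d → ℂ) x * (-((ħ : ℂ) ^ 2) * (Δ φ) x)) +
      (lam : ℂ) * (∫ x, (u : EE d → ℂ) x * φ x) := by
    rw [← integral_const_mul, ← integral_add hi2 (hi1.const_mul _), L2.inner_def]
    refine integral_congr_ae ?_
    filter_upwards [hz] with x hx
    rw [hx, RCLike.inner_apply]
    simp only [map_add, map_mul, map_neg, map_pow, Complex.conj_ofReal, hΔ', hχφ]
    ring
  rw [← e4, ← e2]
  rw [← e4] at e5
  have e6 : ∫ x, (u : EE d → ℂ) x * (-((ħ : ℂ) ^ 2) * (Δ φ) x) = ⟪z, u⟫_ℂ - (lam : ℂ) * ⟪p, u⟫_ℂ := by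
    rw [e5]; ring
  rw [e6, ← e1, e3]
  push_cast
  ring

end

end LTS
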