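import Pool.Agent.H631.LT.J01
import Pool.Agent.H631.LT.J02
import Pool.Agent.H631.LT.J03
import Pool.Agent.H631.LT.J04
import Pool.Agent.H631.LT.J05
import Pool.Agent.H631.LT.J06
import Pool.Agent.H631.LT.J07
import Pool.Agent.H631.LT.J08
import Pool.Agent.H631.LT.J09
import Pool.Agent.H631.LT.J10
import Pool.Agent.H631.LT.J11
import Pool.Agent.H631.LT.J12
import Pool.Agent.H631.LT.J13
import Pool.Agent.H631.LT.J14
import Pool.Agent.H631.LT.J15
import Pool.Agent.H631.LT.J16
import Pool.Agent.H631.LT.J17
import Pool.Agent.H631.LT.J18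
import Pool.Agent.H631.LT.J19
import Pool.Agent.H631.LT.J20

open MeasureTheory Filter Topology ENNReal
open scoped Laplacian FourierTransform InnerProductSpace

namespace LTS

noncomputable section

end

end LTS
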