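import Mathlib

/-! Basic definitions for the lower bounds of eigenvalue sums of Schrodinger operators with
singular potentials. -/

open MeasureTheory Filter Topology ENNReal
open scoped Laplacian FourierTransform InnerProductSpace

namespace LTS

noncomputable section

/-- Euclidean space of dimension `d`. -/
abbrev EE (d : ℕ) := EuclideanSpace ℝ (Fin d)

/-- The Hilbert space `L²(ℝ^d; ℂ)`. -/
abbrev HH (d : ℕ) := Lp ℂ 2 (volume : Measure (EE d))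

/-- Test functions. -/
def IsTest {d : ℕ} (φ : EE d → ℂ) : Prop := ContDiff ℝ (⊤ : ℕ∞) φ ∧ HasCompactSupport φ

open Classical in
/-- The operator of multiplication by `m` (zero if it is not a bounded operator). -/
def mulOp {d : ℕ} (m : EE d → ℂ) : HH d →L[ℂ] HH d :=
  if h : ∃ A : HH d →L[ℂ] HH d, ∀ f : HH d, (A f : EE d → ℂ) =ᵐ[volume] fun x => m x * f x
  then h.choose else 0

/-- The projection onto functions supported in `S`. -/
def proj {d : ℕ} (S : Set (EE d)) : HH d →L[ℂ] HH d := mulOp (S.indicator fun _ => (1 : ℂ))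

/-- The symbol of `(-ħ²Δ + lam)^{-1/2}`. -/
def wgt {d : ℕ} (ħ lam : ℝ) (ξ : EE d) : ℂ :=
  ((Real.sqrt (lam + 4 * Real.pi ^ 2 * ħ ^ 2 * ‖ξ‖ ^ 2))⁻¹ : ℝ)

/-- The operator `T = (-ħ²Δ + lam)^{-1/2}`. -/
def Top (d : ℕ) (ħ lam : ℝ) : HH d →L[ℂ] HH d :=
  ((Lp.fourierTransformₗᵢ (EE d) ℂ).symm.toContinuousLinearEquiv.toContinuousLinearMap) ∘L
    (mulOp (wgt ħ lam)) ∘L
      ((Lp.fourierTransformₗᵢ (EE d) ℂ).toContinuousLinearEquiv.toContinuousLinearMap)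

/-- `S` is a uniform limit of maps with finite-dimensional range (compactness). -/
def Appr {H : Type} [NormedAddCommGroup H] [InnerProductSpace ℂ H] (S : H →L[ℂ] H) : Prop :=
  ∀ δ : ℝ, 0 < δ → ∃ W : Submodule ℂ H, FiniteDimensional ℂ W ∧
    ∀ f : H, ∃ w ∈ W, ‖S f - w‖ ≤ δ * ‖f‖

/-! ### The potential -/

/-- `ħ_k = 2^{-k}` -/
def hk (k : ℕ) : ℝ := (2 : ℝ)⁻¹ ^ k

/-- weights -/
def ak (k : ℕ) : ℝ := 1 / ((k : ℝ) + 1) ^ 2

/-- depths `A_k = a_k ħ_k^{-d/γ}` -/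
def Ak (d : ℕ) (γ : ℝ) (k : ℕ) : ℝ := ak k * (hk k) ^ (-((d : ℝ) / γ))

/-- radii `r_k = ħ_k^{1 + d/(2γ)}` -/
def rk (d : ℕ) (γ : ℝ) (k : ℕ) : ℝ := (hk k) ^ (1 + (d : ℝ) / (2 * γ))

/-- shells -/
def Sh (d : ℕ) (γ : ℝ) (k : ℕ) : Set (EE d) := {x | rk d γ (k + 1) ≤ ‖x‖ ∧ ‖x‖ < rk d γ k}

/-- The function `W`, equal to `A_k` on the `k`-th shell. -/
def WW (d : ℕ) (γ : ℝ) (x : EE d) : ℝ := ∑' k, (Sh d γ k).indicator (fun _ => Ak d γ k) x

end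

end LTS
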