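import Pool.Agent.H631.LT.Defs

open MeasureTheory Filter Topology ENNReal
open scoped Laplacian FourierTransform InnerProductSpace

namespace LTS

noncomputable section

theorem asymp (d : ℕ) (hd : 1 ≤ d) (γ : ℝ) (hγ : 0 < γ) (C₀ η : ℝ) (hC₀ : 0 ≤ C₀) (hη : 0 < η) :
    (∀ ħ : ℝ, 0 < ħ → Summable fun k => ak k * min C₀ ((ħ / hk k) ^ ((d : ℝ) / γ) / η)) ∧
    Tendsto (fun ħ : ℝ => ∑' k, ak k * min C₀ ((ħ / hk k) ^ ((d : ℝ) / γ) / η)) (𝓝[>] 0) (𝓝 0) := by
  have hak : ∀ k, 0 ≤ ak k := fun k => by unfold ak; positivity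
  have hhk : ∀ k, 0 < hk k := fun k => by unfold hk; positivity
  have hs : Summable ak := by
    have h1 : Summable (fun n : ℕ => 1 / (n : ℝ) ^ 2) :=
      Real.summable_one_div_nat_pow.2 one_lt_two
    have h2 := (summable_nat_add_iff 1).2 h1
    refine h2.congr ?_
    intro n
    unfold ak
    push_cast
    rfl
  have hbs : Summable (fun k => C₀ * ak k) := hs.mul_left C₀
  have hn : ∀ ħ : ℝ, 0 < ħ → ∀ k, 0 ≤ ak k * min C₀ ((ħ / hk k) ^ ((d : ℝ) / γ) / η) := by
    intro ħ hħ k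
    refine mul_nonneg (hak k) (le_min hC₀ ?_)
    have := hhk k
    positivity
  have hb : ∀ ħ : ℝ, 0 < ħ → ∀ k, ak k * min C₀ ((ħ / hk k) ^ ((d : ℝ) / γ) / η) ≤ C₀ * ak k := by
    intro ħ hħ k
    rw [mul_comm C₀]
    exact mul_le_mul_of_nonneg_left (min_le_left _ _) (hak k)
  constructor
  · intro ħ hħ
    exact Summable.of_nonneg_of_le (hn ħ hħ) (hb ħ hħ) hbs
  · have h0 : ∑' k : ℕ, (0 : ℝ) = 0 := tsum_zero
    suffices hh : Tendsto (fun ħ : ℝ => ∑' k, ak k * min C₀ ((ħ / hk k) ^ ((d : ℝ) / γ) / η))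
        (𝓝[>] 0) (𝓝 (∑' k : ℕ, (0 : ℝ))) by rwa [h0] at hh
    apply tendsto_tsum_of_dominated_convergence hbs
    · intro k
      have hp : 0 < (d : ℝ) / γ := by
        have : (0 : ℝ) < d := by exact_mod_cast hd
        positivity
      have hk0 := hhk k
      have t1 : Tendsto (fun ħ : ℝ => (ħ / hk k) ^ ((d : ℝ) / γ) / η) (𝓝[>] 0) (𝓝 0) := by
        have hcont : ContinuousAt (fun ħ : ℝ => (ħ / hk k) ^ ((d : ℝ) / γ) / η) 0 := by
          apply ContinuousAt.div_const
          apply ContinuousAt.rpow_const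
          · exact (continuous_id.div_const _).continuousAt
          · exact Or.inr hp.le
        have := hcont.tendsto
        simp only [zero_div, Real.zero_rpow hp.ne'] at this
        exact this.mono_left nhdsWithin_le_nhds
      have t2 : Tendsto (fun ħ : ℝ => min C₀ ((ħ / hk k) ^ ((d : ℝ) / γ) / η)) (𝓝[>] 0)
          (𝓝 (min C₀ 0)) := tendsto_const_nhds.min t1
      rw [min_eq_right hC₀] at t2
      have t3 := t2.const_mul (ak k)
      rwa [mul_zero] at t3
    · filter_upwards [self_mem_nhdsWithin] with ħ hħ k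
      rw [Real.norm_of_nonneg (hn ħ hħ k)]
      exact hb ħ hħ k

end

end LTS
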