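import Pool.Agent.H631.LT.All

open MeasureTheory Filter Topology ENNReal
open scoped Laplacian FourierTransform InnerProductSpace

namespace LTS

noncomputable section

theorem hk_pos (k : ℕ) : 0 < hk k := by unfold hk; positivity

theorem hk_le_one (k : ℕ) : hk k ≤ 1 := by
  unfold hk; exact pow_le_one₀ (by norm_num) (by norm_num)

theorem ak_pos (k : ℕ) : 0 < ak k := by unfold ak; positivity

theorem Ak_pos (d : ℕ) (γ : ℝ) (k : ℕ) : 0 < Ak d γ k :=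
  mul_pos (ak_pos k) (Real.rpow_pos_of_pos (hk_pos k) _)

theorem rk_pos (d : ℕ) (γ : ℝ) (k : ℕ) : 0 < rk d γ k := Real.rpow_pos_of_pos (hk_pos k) _

theorem rk_succ_le (d : ℕ) (γ : ℝ) (hγ : 0 < γ) (k : ℕ) : rk d γ (k + 1) ≤ rk d γ k / 2 := by
  unfold rk hk
  rw [pow_succ, Real.mul_rpow (by positivity) (by norm_num), div_eq_mul_inv]
  refine mul_le_mul_of_nonneg_left ?_ (by positivity)
  calc (2⁻¹ : ℝ) ^ (1 + (d : ℝ) / (2 * γ)) ≤ (2⁻¹ : ℝ) ^ (1 : ℝ) := by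
        refine Real.rpow_le_rpow_of_exponent_ge (by norm_num) (by norm_num) ?_
        have : 0 ≤ (d : ℝ) / (2 * γ) := by positivity
        linarith
    _ = 2⁻¹ := Real.rpow_one _

/-- the key scaling identity -/
theorem scal_id (d : ℕ) (γ : ℝ) (hγ : 0 < γ) (k : ℕ) (C η ħ : ℝ) (hη : 0 < η)
    (hħ : 0 < ħ) :
    Ak d γ k * (C * (rk d γ k / ħ) ^ (2 * ((d : ℝ) / (2 * γ + d))) *
      (η * ħ ^ (-((d : ℝ) / γ))) ^ ((d : ℝ) / (2 * γ + d) - 1)) =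
      ak k * (C * η ^ ((d : ℝ) / (2 * γ + d) - 1)) := by
  have hh := hk_pos k
  have hD : (0 : ℝ) < 2 * γ + d := by positivity
  unfold Ak rk
  rw [Real.div_rpow (by positivity) hħ.le, Real.mul_rpow hη.le (by positivity), ← Real.rpow_mul hh.le,
    ← Real.rpow_mul hħ.le]
  have e1 : (1 + (d : ℝ) / (2 * γ)) * (2 * ((d : ℝ) / (2 * γ + d))) = (d : ℝ) / γ := by
    field_simp
  have e2 : -((d : ℝ) / γ) * ((d : ℝ) / (2 * γ + d) - 1) = 2 * ((d : ℝ) / (2 * γ + d)) := by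
    field_simp
    ring
  rw [e1, e2]
  have h1 : hk k ^ (-((d : ℝ) / γ)) * hk k ^ ((d : ℝ) / γ) = 1 := by
    rw [← Real.rpow_add hh]; simp
  have h2 : 0 < ħ ^ (2 * ((d : ℝ) / (2 * γ + d))) := Real.rpow_pos_of_pos hħ _
  field_simp
  linear_combination (ak k * C) * h1

theorem scal_id2 (d : ℕ) (γ : ℝ) (k : ℕ) (η ħ : ℝ) (hη : 0 < η) (hħ : 0 < ħ) :
    Ak d γ k * (1 / (η * ħ ^ (-((d : ℝ) / γ)))) = ak k * ((ħ / hk k) ^ ((d : ℝ) / γ) / η) := by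
  have hh := hk_pos k
  unfold Ak
  rw [Real.div_rpow hħ.le hh.le, Real.rpow_neg hħ.le, Real.rpow_neg hh.le]
  have h2 : 0 < ħ ^ ((d : ℝ) / γ) := Real.rpow_pos_of_pos hħ _
  have h3 : 0 < hk k ^ ((d : ℝ) / γ) := Real.rpow_pos_of_pos hh _
  field_simp

set_option maxHeartbeats 4000000 in
theorem core (d : ℕ) (hd : 1 ≤ d) (γ : ℝ) (hγ : 0 < γ) (h1 : d = 1 → 1 / 2 ≤ γ) (ε : ℝ)
    (hε : 0 < ε) :
    ∃ c : ℝ, 0 < c ∧ ∃ ħ₀ : ℝ, 0 < ħ₀ ∧ ∀ ħ : ℝ, 0 < ħ → ħ < ħ₀ →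
      ∃ (e : ℝ) (u : HH d), u ≠ 0 ∧ 0 < e ∧
        e ^ γ ≤ ħ ^ (-(d : ℝ)) * ∫ x : EE d, (WW d γ x) ^ (γ + (d : ℝ) / 2) ∧
        c * ħ ^ (ε - (d : ℝ) / γ) ≤ e ∧
        (∀ i : Fin d, ∃ D : HH d, ∀ φ : EE d → ℂ, IsTest φ →
          ∫ x, (u : EE d → ℂ) x * (fderiv ℝ φ x (EuclideanSpace.single i 1)) =
            - ∫ x, (D : EE d → ℂ) x * φ x) ∧
        Integrable (fun x => WW d γ x * ‖(u : EE d → ℂ) x‖ ^ 2) ∧
        ∀ φ : EE d → ℂ, IsTest φ →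
          Integrable (fun x => (WW d γ x : ℂ) * (u : EE d → ℂ) x * φ x) ∧
          (∫ x, (u : EE d → ℂ) x * (-((ħ : ℂ) ^ 2) * (Δ φ) x)) -
            (∫ x, (WW d γ x : ℂ) * (u : EE d → ℂ) x * φ x) =
              ((-e : ℝ) : ℂ) * ∫ x, (u : EE d → ℂ) x * φ x := by
  obtain ⟨-, -, hI⟩ := WW_mem d hd γ hγ
  set I₀ := ∫ x : EE d, (WW d γ x) ^ (γ + (d : ℝ) / 2) with hI₀
  obtain ⟨-, -, -, -, hmS, -, -⟩ := WW_prop d hd γ hγ
  set η : ℝ := I₀ ^ (1 / γ) with hηdef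
  have hη : 0 < η := Real.rpow_pos_of_pos hI _
  have hηγ : η ^ γ = I₀ := by
    rw [hηdef, ← Real.rpow_mul hI.le, one_div_mul_cancel hγ.ne', Real.rpow_one]
  set θ : ℝ := (d : ℝ) / (2 * γ + d) with hθ
  have hdpos : (0 : ℝ) < d := by exact_mod_cast hd
  have hθ0 : 0 < θ := by positivity
  have hθ1 : θ < 1 := by
    rw [hθ, div_lt_one (by positivity)]; linarith
  have hθd : 2 * θ ≤ d := by
    rcases Nat.eq_or_lt_of_le hd with h | h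
    · have hg := h1 h.symm
      rw [hθ, ← h]
      push_cast
      rw [mul_div_assoc', div_le_iff₀ (by positivity)]
      nlinarith
    · have : (2 : ℝ) ≤ d := by exact_mod_cast h
      linarith
  obtain ⟨C, hC, hball⟩ := Top_ball d hd θ hθ0 hθ1 hθd
  set C₀ : ℝ := C * η ^ (θ - 1) with hC₀def
  have hC₀ : 0 ≤ C₀ := by positivity
  obtain ⟨hsumm, hlim⟩ := asymp d hd γ hγ C₀ η hC₀ hη
  obtain ⟨C₁, hC₁, htr⟩ := trial_fn d hd
  obtain ⟨c, hc, ħ₁, hħ₁, hch⟩ := choose_k d hd γ hγ C₁ hC₁ ε hε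
  have hev : ∀ᶠ ħ : ℝ in 𝓝[>] 0,
      ∑' k, ak k * min C₀ ((ħ / hk k) ^ ((d : ℝ) / γ) / η) < 1 / 2 :=
    hlim (Iio_mem_nhds (by norm_num))
  obtain ⟨ħ₂, hħ₂, hev⟩ := mem_nhdsGT_iff_exists_Ioo_subset.1 hev
  refine ⟨c, hc, min ħ₁ ħ₂, lt_min hħ₁ hħ₂, fun ħ hħ hlt => ?_⟩
  have hlt1 := hlt.trans_le (min_le_left _ _)
  have hlt2 := hlt.trans_le (min_le_right _ _)
  have hq : ∑' k, ak k * min C₀ ((ħ / hk k) ^ ((d : ℝ) / γ) / η) < 1 / 2 := hev ⟨hħ, hlt2⟩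
  set q : ℝ := ∑' k, ak k * min C₀ ((ħ / hk k) ^ ((d : ℝ) / γ) / η) with hqdef
  set lam : ℝ := η * ħ ^ (-((d : ℝ) / γ)) with hlam
  have hl : 0 < lam := mul_pos hη (Real.rpow_pos_of_pos hħ _)
  set T := Top d ħ lam with hT
  set b : ℕ → ℝ := fun k => min (C * (rk d γ k / ħ) ^ (2 * θ) * lam ^ (θ - 1)) (1 / lam) with hb
  have hAb : ∀ k, Ak d γ k * b k = ak k * min C₀ ((ħ / hk k) ^ ((d : ℝ) / γ) / η) := by
    intro k
    rw [hb]
    simp only []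
    rw [mul_min_of_nonneg _ _ (Ak_pos d γ k).le, mul_min_of_nonneg _ _ (ak_pos k).le]
    rw [scal_id2 d γ k η ħ hη hħ, scal_id d γ hγ k C η ħ hη hħ]
  have hb0 : ∀ k, 0 ≤ b k := by
    intro k
    have := rk_pos d γ k
    exact le_min (by positivity) (by positivity)
  have hbk : ∀ k f, ‖proj (Sh d γ k) (T f)‖ ^ 2 ≤ b k * ‖f‖ ^ 2 := by
    intro k f
    rw [hb]
    simp only []
    rw [min_mul_of_nonneg _ _ (by positivity)]
    refine le_min ?_ ?_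
    · have hsub : Sh d γ k ⊆ Metric.ball (0 : EE d) (rk d γ k) := by
        intro x hx
        rw [mem_ball_zero_iff]
        exact hx.2
      have h2 := hball (rk d γ k) ħ lam (rk_pos d γ k) hħ hl f
      have h3 : ‖proj (Sh d γ k) (T f)‖ ≤ ‖proj (Metric.ball (0 : EE d) (rk d γ k)) (T f)‖ := by
        rw [← proj_sub (Sh d γ k) _ (hmS k) Metric.isOpen_ball.measurableSet hsub (T f)]
        exact proj_norm _ (hmS k) _
      calc ‖proj (Sh d γ k) (T f)‖ ^ 2 ≤ ‖proj (Metric.ball (0 : EE d) (rk d γ k)) (T f)‖ ^ 2 := by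
            gcongr
        _ ≤ _ := h2
    · have h2 := Top_norm ħ lam hl f
      have h3 := proj_norm (Sh d γ k) (hmS k) (T f)
      have h4 : ‖proj (Sh d γ k) (T f)‖ ^ 2 ≤ ‖T f‖ ^ 2 := by gcongr
      have h5 : ‖T f‖ ^ 2 ≤ 1 / lam * ‖f‖ ^ 2 := by
        rw [one_div, ← div_eq_inv_mul, le_div_iff₀ hl]
        linarith
      exact h4.trans h5
  have happ : ∀ k, Appr (proj (Sh d γ k) ∘L T) := by
    intro k δ hδ
    obtain ⟨W, hW, hf⟩ := appr_ball (d := d) ħ lam (rk d γ k) hħ hl δ hδ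
    refine ⟨W.map (proj (Sh d γ k)).toLinearMap, inferInstance, fun f => ?_⟩
    obtain ⟨w, hw, hle⟩ := hf f
    refine ⟨proj (Sh d γ k) w, Submodule.mem_map_of_mem hw, ?_⟩
    have hsub : Sh d γ k ⊆ Metric.ball (0 : EE d) (rk d γ k) := by
      intro x hx
      rw [mem_ball_zero_iff]
      exact hx.2
    have e1 : (proj (Sh d γ k) ∘L T) f - proj (Sh d γ k) w =
        proj (Sh d γ k) (((proj (Metric.ball (0 : EE d) (rk d γ k))) ∘L T) f - w) := by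
      rw [map_sub, ContinuousLinearMap.comp_apply, ContinuousLinearMap.comp_apply,
        proj_sub (Sh d γ k) _ (hmS k) Metric.isOpen_ball.measurableSet hsub (T f)]
    rw [e1]
    exact (proj_norm _ (hmS k) _).trans hle
  have hpp : ∀ k (f : HH d), proj (Sh d γ k) (proj (Sh d γ k) f) = proj (Sh d γ k) f :=
    fun k f => proj_sub _ _ (hmS k) (hmS k) subset_rfl f
  obtain ⟨M, hMA, hMs, hMsum, hMsum2, hMb⟩ := M_exists T (fun k => proj (Sh d γ k))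
    (fun k => Ak d γ k) b (fun k => (Ak_pos d γ k).le) hb0 (fun f g => Top_sa ħ lam hl f g)
    (fun k f g => proj_inner _ (hmS k) f g) hpp hbk
    (by simpa only [hAb] using hsumm ħ hħ) happ
  have hqb : ∑' k, Ak d γ k * b k = q := by
    rw [hqdef]; exact tsum_congr hAb
  simp only [hqb] at hMb
  have hq0 : 0 ≤ q := tsum_nonneg fun k => mul_nonneg (ak_pos k).le
    (le_min hC₀ (by have := hk_pos k; positivity))
  obtain ⟨k, hk1, hk2⟩ := hch ħ hħ hlt1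
  obtain ⟨φ, p, z, hφ, hφs, hp, hz, hp0, hzn⟩ := htr (rk d γ k) (rk_pos d γ k)
  set z' : HH d := (-((ħ : ℂ) ^ 2)) • z + (lam : ℂ) • p with hz'
  have hz'ae : (z' : EE d → ℂ) =ᵐ[volume] fun x => -((ħ : ℂ) ^ 2) * (Δ φ) x + (lam : ℂ) * φ x := by
    have a1 := Lp.coeFn_add ((-((ħ : ℂ) ^ 2)) • z) ((lam : ℂ) • p)
    have a2 := Lp.coeFn_smul (-((ħ : ℂ) ^ 2)) z
    have a3 := Lp.coeFn_smul (lam : ℂ) p
    filter_upwards [a1, a2, a3, hp, hz] with x h1 h2 h3 h4 h5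
    rw [hz', h1, Pi.add_apply, h2, h3, Pi.smul_apply, Pi.smul_apply, h4, h5]
    simp
  have hTT : T (T z') = p := Top_test ħ lam hħ hl φ hφ p z' hp hz'ae
  have hpn : 0 < ‖p‖ := norm_pos_iff.2 hp0
  have hprojp : proj (Sh d γ k) p = p := by
    refine Lp.ext ?_
    filter_upwards [proj_ae (Sh d γ k) (hmS k) p, hp] with x h1 h2
    rw [h1]
    by_cases hx : x ∈ Sh d γ k
    · rw [Set.indicator_of_mem hx]
    · rw [Set.indicator_of_notMem hx, h2]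
      by_contra h0
      have := hφs x (fun h => h0 h.symm)
      exact hx ⟨(rk_succ_le d γ hγ k).trans this.1, this.2⟩
  have htrial : ‖T z'‖ ^ 2 - (⟪M (T z'), T z'⟫_ℂ).re ≤ (lam - Ak d γ k / 2) * ‖T (T z')‖ ^ 2 := by
    have g1 : ‖T z'‖ ^ 2 = (⟪z', p⟫_ℂ).re := by
      rw [← hTT, ← Top_sa ħ lam hl z' (T z'), ← inner_self_eq_norm_sq (𝕜 := ℂ)]
      rfl
    have g2 : (⟪z', p⟫_ℂ).re ≤ ħ ^ 2 * (‖z‖ * ‖p‖) + lam * ‖p‖ ^ 2 := by
      rw [hz', inner_add_left, inner_smul_left, inner_smul_left, inner_self_eq_norm_sq_to_K]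
      have hz1 : ‖⟪z, p⟫_ℂ‖ ≤ ‖z‖ * ‖p‖ := norm_inner_le_norm _ _
      have hz2 : -(⟪z, p⟫_ℂ).re ≤ ‖z‖ * ‖p‖ := by
        have := Complex.abs_re_le_norm ⟪z, p⟫_ℂ
        have := neg_abs_le (⟪z, p⟫_ℂ).re
        linarith
      have e1 : ((starRingEnd ℂ) (-(ħ : ℂ) ^ 2) * ⟪z, p⟫_ℂ).re = ħ ^ 2 * (-(⟪z, p⟫_ℂ).re) := by
        rw [map_neg, map_pow, Complex.conj_ofReal, ← Complex.ofReal_pow, ← Complex.ofReal_neg,
          Complex.re_ofReal_mul]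
        ring
      have e2 : ((starRingEnd ℂ) (lam : ℂ) * ((‖p‖ : ℂ)) ^ 2).re = lam * ‖p‖ ^ 2 := by
        rw [Complex.conj_ofReal, ← Complex.ofReal_pow, ← Complex.ofReal_mul, Complex.ofReal_re]
      rw [Complex.add_re, e1]
      have e3 : ((starRingEnd ℂ) (lam : ℂ) * ((‖p‖ : ℂ)) ^ 2).re = lam * ‖p‖ ^ 2 := e2
      have e4 := mul_le_mul_of_nonneg_left hz2 (sq_nonneg ħ)
      calc _ ≤ ħ ^ 2 * (‖z‖ * ‖p‖) + ((starRingEnd ℂ) (lam : ℂ) * ((‖p‖ : ℂ)) ^ 2).re := by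
            refine add_le_add e4 (le_of_eq rfl)
        _ = _ := by rw [e3]
    have g3 : Ak d γ k * ‖p‖ ^ 2 ≤ (⟪M (T z'), T z'⟫_ℂ).re := by
      have h6 := hMsum2 (T z')
      have h7 := le_hasSum h6 k (fun j _ => mul_nonneg (Ak_pos d γ j).le (sq_nonneg _))
      rw [hTT, hprojp] at h7
      exact h7
    have g4 : ħ ^ 2 * (‖z‖ * ‖p‖) ≤ Ak d γ k / 2 * ‖p‖ ^ 2 := by
      calc ħ ^ 2 * (‖z‖ * ‖p‖) ≤ ħ ^ 2 * ((C₁ * (rk d γ k)⁻¹ ^ 2 * ‖p‖) * ‖p‖) := by gcongr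
        _ = (C₁ * ħ ^ 2 * (rk d γ k)⁻¹ ^ 2) * ‖p‖ ^ 2 := by ring
        _ ≤ _ := by gcongr
    rw [hTT, g1]
    nlinarith
  obtain ⟨ν, g, hTg, hν1, hν2, hg⟩ := abs_min T M hMA hMs (fun f g => Top_sa ħ lam hl f g) q lam
    (Ak d γ k / 2) hq0 (by linarith) hl (by have := Ak_pos d γ k; linarith)
    (fun f => Top_norm ħ lam hl f) hMb (T z') (by rw [hTT]; exact hp0) htrial
  obtain ⟨hint, hw⟩ := weak_form d hd γ hγ ħ lam hħ hl M hMs hMsum ν g hg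
  refine ⟨lam - ν, T g, hTg, ?_, ?_, ?_, ?_, hint, ?_⟩
  · have := Ak_pos d γ k
    linarith
  · have hle : lam - ν ≤ lam := by
      have : 0 ≤ (1 - q) * lam := by
        have : 0 ≤ 1 - q := by linarith
        positivity
      linarith
    have hnn : 0 ≤ lam - ν := by
      have := Ak_pos d γ k
      linarith
    calc (lam - ν) ^ γ ≤ lam ^ γ := Real.rpow_le_rpow hnn hle hγ.le
      _ = ħ ^ (-(d : ℝ)) * I₀ := by
          rw [hlam, Real.mul_rpow hη.le (by positivity), hηγ, ← Real.rpow_mul hħ.le]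
          have : -((d : ℝ) / γ) * γ = -(d : ℝ) := by field_simp
          rw [this, mul_comm]
  · linarith
  · intro i
    exact Top_deriv ħ lam hħ hl g i
  · intro φ hφ
    obtain ⟨h8, h9⟩ := hw φ hφ
    refine ⟨h8, ?_⟩
    rw [h9]
    congr 2
    ring

end

end LTS
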